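import Pool.Agent.H86.SD.Sid

/-!
# SD-AsmA: the first stage

`m = m' + 2` (so `m - 1 = m' + 1`), base point `(m, k m)`.
* `rz_init`: start with `Rz.base (m, k m) lY : Rz .. [Y, y] 0` and apply `Rz.of_R`
  (context `w1, w2` not both empty) with
  (1) `Y ⇒ X^m Y (Zx)^m` (`wedge m (km) m`; context `[], [y]`; faces `(m-j-1, km-m+j)`); word
      `X^m Y (Zx)^m y`;
  (2) `X^m ⇒ (Xz)^(m-1) X Z^(m-1)` at `(m, km)` (`triI m (km) (m-1)`: `T2 m (km) m`);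
  (3) `Z^(m-1) ⇒ z X^m (Zx)^m` at `walk .. ((Xz)^(m-1) X) = (0, km+m-1)` (`triTLi 0 (km+m-1) m'`:
      `T1 0 (km+m) m`); word `(Xz)^(m-1) X z X^m (Zx)^m Y (Zx)^m y = (Xz)^m X^m (Zx)^m Y (Zx)^m y`;
  (4) the first `(Zx)^m ⇒ y x^m Y` at `walk .. ((Xz)^m X^m) = (-m, km+m)` (`cor_Zx`);
  (5) `(Xz)^m ⇒ y X^m Y` at `(m, km)` (`cor_Xz`); word `y X^m Y X^m y x^m Y Y (Zx)^m y`;
  (6) the second `X^m ⇒ Y (Xz)^m y` at `walk .. (y X^m Y) = (0, km+m)` (`cor_X 0 (km+m) (m-1)`);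
      word `y X^m Y Y (Xz)^m y y x^m Y Y (Zx)^m y = SS m 1` (`pw` of 1, 2 by `simp [pw, List.replicate]`).
  The faces of (1) are `∑ i ∈ range m, sg 0 i (km - i - 1)` in the reverse order
  (`Finset.sum_range_reflect`).
-/

noncomputable section

namespace Pool.Agent.H86.SD

open Finset

/-- the boundary word before stage `j` -/
def SS (m j : ℕ) : List Letter :=
  pw [ly] j ++ pw [lX] m ++ pw [lY] (2 * j) ++ pw [lX, lz] m ++ pw [ly] (2 * j) ++ pw [lx] m ++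
    pw [lY] (2 * j) ++ pw [lZ, lx] m ++ pw [ly] j

/-- the faces of the second corridors -/
def LC (m : ℕ) (c c' : ℤ) : Multiset (Fin 3 × (ℤ × ℤ)) :=
  ∑ i ∈ range m, sg 0 (-i - 1) (c + i) + ∑ i ∈ range m, sg 0 i (c' - i - 1)

/-- the faces of the first stage -/
def LI (m k : ℕ) : Multiset (Fin 3 × (ℤ × ℤ)) :=
  T1 0 (k * m + m) m + T2 m (k * m) m + ∑ i ∈ range m, sg 0 (m - i - 1) (k * m + i) +
    ∑ i ∈ range m, sg 0 (-m + i) (k * m + m - i - 1) + LC m (k * m + m) (k * m)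

theorem AsmA_R (m' : ℕ) (M c : ℤ) (hM : M = m' + 2) :
    R (M, c) [lY] ([ly] ++ pw [lX] (m' + 2) ++ [lY, lY] ++ pw [lX, lz] (m' + 2) ++ [ly, ly] ++
      pw [lx] (m' + 2) ++ [lY, lY] ++ pw [lZ, lx] (m' + 2))
      (T1 0 (c + M) (m' + 2) + T2 M c (m' + 2) + ∑ i ∈ range (m' + 2), sg 0 (M - i - 1) (c + i) +
        ∑ i ∈ range (m' + 2), sg 0 (-M + i) (c + M - i - 1) + LC (m' + 2) (c + M) c) := by
  have h1 := wedge M c (m' + 2)
  -- (2)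
  have h2 := R.right ([lY] ++ pw [lZ, lx] (m' + 2)) (triI M c (m' + 1))
  -- (3)
  have w3 : walk (M, c) (pw [lX, lz] (m' + 1) ++ [lX]) = (0, c + M - 1) := by
    rw [walk_append, walk_Xz, walk_cons, walk_nil, step_X, hM]
    push_cast
    congr 1 <;> ring
  have h3 := R.ctx (p := (M, c)) (pw [lX, lz] (m' + 1) ++ [lX]) ([lY] ++ pw [lZ, lx] (m' + 2))
    (by rw [w3]; exact triTLi 0 (c + M - 1) m')
  -- (4)
  have w4 : walk (M, c) (pw [lX, lz] (m' + 2) ++ pw [lX] (m' + 2)) = (-M, c + M) := by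
    rw [walk_append, walk_Xz, walk_X, hM]
    push_cast
    congr 1 <;> ring
  have h4 := R.ctx (p := (M, c)) (pw [lX, lz] (m' + 2) ++ pw [lX] (m' + 2))
    ([lY] ++ pw [lZ, lx] (m' + 2)) (by rw [w4]; exact cor_Zx (-M) (c + M) (m' + 1))
  -- (5)
  have h5 := R.right (pw [lX] (m' + 2) ++ ([ly] ++ pw [lx] (m' + 2) ++ [lY]) ++
    ([lY] ++ pw [lZ, lx] (m' + 2))) (cor_Xz M c (m' + 1))
  -- (6)
  have w6 : walk (M, c) ([ly] ++ pw [lX] (m' + 2) ++ [lY]) = (0, c + M) := by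
    have e : walk (M, c) [ly] = (M, c + M) := by rw [walk_cons, walk_nil, step_y]
    rw [walk_append, walk_append, e, walk_X, walk_cons, walk_nil, step_Y, hM]
    push_cast
    congr 1 <;> ring
  have h6 := R.ctx (p := (M, c)) ([ly] ++ pw [lX] (m' + 2) ++ [lY])
    (([ly] ++ pw [lx] (m' + 2) ++ [lY]) ++ ([lY] ++ pw [lZ, lx] (m' + 2)))
    (by rw [w6]; exact cor_X 0 (c + M) (m' + 1))
  have e12 : pw [lX] (m' + 2) ++ [lY] ++ pw [lZ, lx] (m' + 2) =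
      pw [lX] (m' + 1 + 1) ++ ([lY] ++ pw [lZ, lx] (m' + 2)) := by
    simp only [List.append_assoc]
  have e34 : pw [lX, lz] (m' + 1) ++ [lX] ++ ([lz] ++ pw [lX] (m' + 2) ++ pw [lZ, lx] (m' + 2)) ++
      ([lY] ++ pw [lZ, lx] (m' + 2)) =
      pw [lX, lz] (m' + 2) ++ pw [lX] (m' + 2) ++ pw [lZ, lx] (m' + 1 + 1) ++
        ([lY] ++ pw [lZ, lx] (m' + 2)) := by
    rw [pw_succ' [lX, lz] (m' + 1)]
    simp only [List.append_assoc, List.cons_append, List.nil_append]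
  have e45 : pw [lX, lz] (m' + 2) ++ pw [lX] (m' + 2) ++
      ([ly] ++ pw [lx] (m' + 1 + 1) ++ [lY]) ++ ([lY] ++ pw [lZ, lx] (m' + 2)) =
      pw [lX, lz] (m' + 1 + 1) ++ (pw [lX] (m' + 2) ++ ([ly] ++ pw [lx] (m' + 2) ++ [lY]) ++
    ([lY] ++ pw [lZ, lx] (m' + 2))) := by
    simp only [List.append_assoc]
  have e56 : ([ly] ++ pw [lX] (m' + 1 + 1) ++ [lY]) ++
      (pw [lX] (m' + 2) ++ ([ly] ++ pw [lx] (m' + 2) ++ [lY]) ++
        ([lY] ++ pw [lZ, lx] (m' + 2))) =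
      ([ly] ++ pw [lX] (m' + 2) ++ [lY]) ++ pw [lX] (m' + 1 + 1) ++
        (([ly] ++ pw [lx] (m' + 2) ++ [lY]) ++ ([lY] ++ pw [lZ, lx] (m' + 2))) := by
    simp only [List.append_assoc]
  have e6 : ([ly] ++ pw [lX] (m' + 2) ++ [lY]) ++ ([lY] ++ pw [lX, lz] (m' + 1 + 1) ++ [ly]) ++
        (([ly] ++ pw [lx] (m' + 2) ++ [lY]) ++ ([lY] ++ pw [lZ, lx] (m' + 2))) =
      [ly] ++ pw [lX] (m' + 2) ++ [lY, lY] ++ pw [lX, lz] (m' + 2) ++ [ly, ly] ++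
      pw [lx] (m' + 2) ++ [lY, lY] ++ pw [lZ, lx] (m' + 2) := by
    simp only [List.append_assoc, List.cons_append, List.nil_append]
  rw [e12] at h1
  rw [e34] at h3
  rw [e45] at h4
  rw [e56] at h5
  rw [e6] at h6
  refine R.cast (R.trans h1 (R.trans h2 (R.trans h3 (R.trans h4 (R.trans h5 h6))))) ?_
  unfold LC
  have s1 : ∑ j ∈ range (m' + 2), sg 0 (M - j - 1) (c - M + j) =
      ∑ i ∈ range (m' + 2), sg 0 i (c - i - 1) := by
    rw [← Finset.sum_range_reflect]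
    refine Finset.sum_congr rfl fun j hj => ?_
    rw [Finset.mem_range] at hj
    have f1 : M - ((m' + 2 - 1 - j : ℕ) : ℤ) - 1 = j := by omega
    have f2 : c - M + ((m' + 2 - 1 - j : ℕ) : ℤ) = c - j - 1 := by omega
    rw [f1, f2]
  have s2 : ∑ j ∈ range (m' + 1 + 1), sg 0 (0 - (j : ℤ) - 1) (c + M - 0 + j) =
      ∑ i ∈ range (m' + 2), sg 0 (-(i : ℤ) - 1) (c + M + i) := by
    refine Finset.sum_congr rfl fun j _ => ?_
    rw [sub_zero, zero_sub]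
  rw [s1, s2, sub_add_cancel]
  abel

theorem rz_init {m k : ℕ} (hm : 2 ≤ m) : Rz ((m : ℤ), (k * m : ℤ)) (SS m 1) (LI m k) := by
  obtain ⟨m', rfl⟩ : ∃ m', m = m' + 2 := ⟨m - 2, by omega⟩
  have h := AsmA_R m' ((m' + 2 : ℕ) : ℤ) (k * ((m' + 2 : ℕ) : ℤ)) (by push_cast; ring)
  have h0 : Rz (((m' + 2 : ℕ) : ℤ), (k * ((m' + 2 : ℕ) : ℤ))) ([] ++ [lY] ++ [ly]) 0 := Rz.base _ lY
  have h1 := Rz.of_R h (w1 := []) rfl (by simp) h0
  rw [zero_add] at h1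
  have e : SS (m' + 2) 1 = [] ++ ([ly] ++ pw [lX] (m' + 2) ++ [lY, lY] ++ pw [lX, lz] (m' + 2) ++
      [ly, ly] ++ pw [lx] (m' + 2) ++ [lY, lY] ++ pw [lZ, lx] (m' + 2)) ++ [ly] := by
    have e1 : ∀ l : Letter, pw [l] (2 * 1) = [l, l] := fun l => rfl
    unfold SS
    rw [pw_one, e1, e1]
    rfl
  rw [e]
  exact h1

end Pool.Agent.H86.SD
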