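import Pool.Agent.H86.SD.Sid

/-!
# SD-Sid0: one side of a stage

`m = m' + 1`, `2 * j = r + 1`.
* `side0` at `(-m, c)`: `x^m Y^(2j) (Zx)^m`, `(Zx)^m = Z x (Zx)^m'`:
  (1) `Y^(2j) Z ⇒ Z Y^(2j)` at `walk (-m,c) x^m = (0, c)` (`wcol c (2j)`: faces `(0, c-1)`);
  (2) `Y^(2j) ⇒ Z^m' Y^(2j) z^m'` at `(0, c-1)` (`wall0 (c-1) (2j-1) m'`: faces `(0, c-1-t-1)`):
      the word is `x^m Z^m Y^(2j) z^m' x (Zx)^m'`; the faces of (1), (2) together are the first sum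
      (`Finset.sum_range_succ'`);
  (3) `z^m' x (Zx)^m' ⇒ x^m` at `walk .. = (0, c-m)` (`triTRl 0 (c-m) m'`);
  (4) `x^m Z^m ⇒ (Zx)^m` at `(-m, c)` (`triTLu (-m) c m`);
  (5) `(Zx)^m ⇒ y x^m Y` at `(-m, c)` (`cor_Zx (-m) c m'`);
  the word is `y x^m Y Y^(2j) x^m`.
-/

noncomputable section

namespace Pool.Agent.H86.SD

open Finset

theorem Sid0_sum (c : ℤ) (n m' : ℕ) :
    n • sg 2 0 (c - 1) + ∑ t ∈ range m', n • sg 2 0 (c - 1 - t - 1) =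
      ∑ t ∈ range (m' + 1), n • sg 2 0 (c - t - 1) := by
  rw [Finset.sum_range_succ', add_comm]
  congr 1
  · refine Finset.sum_congr rfl fun t _ => ?_
    congr 2
    push_cast
    ring
  · simp

theorem side0 {m j : ℕ} (hm : 1 ≤ m) (hj : 1 ≤ j) (c : ℤ) :
    R (-(m : ℤ), c) (pw [lx] m ++ pw [lY] (2 * j) ++ pw [lZ, lx] m)
      ([ly] ++ pw [lx] m ++ pw [lY] (2 * j + 1) ++ pw [lx] m) (L0 m j c) := by
  obtain ⟨m', rfl⟩ : ∃ m', m = m' + 1 := ⟨m - 1, by omega⟩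
  obtain ⟨r, hr⟩ : ∃ r, 2 * j = r + 1 := ⟨2 * j - 1, by omega⟩
  unfold L0
  rw [hr]
  -- step 1
  have w1 : walk (-((m' + 1 : ℕ) : ℤ), c) (pw [lx] (m' + 1)) = (0, c) := by
    rw [walk_x]
    simp
  have s1 := R.ctx (p := (-((m' + 1 : ℕ) : ℤ), c)) (pw [lx] (m' + 1)) ([lx] ++ pw [lZ, lx] m')
    (by rw [w1]; exact wcol c (r + 1))
  -- step 2
  have w2 : walk (-((m' + 1 : ℕ) : ℤ), c) (pw [lx] (m' + 1) ++ [lZ]) = (0, c - 1) := by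
    rw [walk_append, w1]
    simp
  have s2 := R.ctx (p := (-((m' + 1 : ℕ) : ℤ), c)) (pw [lx] (m' + 1) ++ [lZ])
    ([lx] ++ pw [lZ, lx] m') (by rw [w2]; exact wall0 (c - 1) r m')
  -- step 3
  have w3 : walk (-((m' + 1 : ℕ) : ℤ), c)
      (pw [lx] (m' + 1) ++ [lZ] ++ pw [lZ] m' ++ pw [lY] (r + 1)) =
        (0, c - ((m' + 1 : ℕ) : ℤ)) := by
    rw [walk_append, walk_append, w2, walk_Z, walk_Y]
    ext <;> push_cast <;> ring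
  have s3 := R.left (p := (-((m' + 1 : ℕ) : ℤ), c))
    (pw [lx] (m' + 1) ++ [lZ] ++ pw [lZ] m' ++ pw [lY] (r + 1))
    (by rw [w3]; exact triTRl 0 (c - ((m' + 1 : ℕ) : ℤ)) m')
  -- step 4
  have s4 := R.right (pw [lY] (r + 1) ++ pw [lx] (m' + 1))
    (triTLu (-((m' + 1 : ℕ) : ℤ)) c (m' + 1))
  -- step 5
  have s5 := R.right (pw [lY] (r + 1) ++ pw [lx] (m' + 1))
    (cor_Zx (-((m' + 1 : ℕ) : ℤ)) c m')
  have e12 : pw [lx] (m' + 1) ++ ([lZ] ++ pw [lY] (r + 1)) ++ ([lx] ++ pw [lZ, lx] m') =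
      pw [lx] (m' + 1) ++ [lZ] ++ pw [lY] (r + 1) ++ ([lx] ++ pw [lZ, lx] m') := by
    simp only [List.append_assoc]
  have e23 : pw [lx] (m' + 1) ++ [lZ] ++ (pw [lZ] m' ++ pw [lY] (r + 1) ++ pw [lz] m') ++
      ([lx] ++ pw [lZ, lx] m') =
      pw [lx] (m' + 1) ++ [lZ] ++ pw [lZ] m' ++ pw [lY] (r + 1) ++
        (pw [lz] m' ++ [lx] ++ pw [lZ, lx] m') := by
    simp only [List.append_assoc]
  have e34 : pw [lx] (m' + 1) ++ [lZ] ++ pw [lZ] m' ++ pw [lY] (r + 1) ++ pw [lx] (m' + 1) =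
      pw [lx] (m' + 1) ++ pw [lZ] (m' + 1) ++ (pw [lY] (r + 1) ++ pw [lx] (m' + 1)) := by
    rw [pw_succ [lZ]]
    simp only [List.append_assoc]
  have e0 : pw [lx] (m' + 1) ++ pw [lY] (r + 1) ++ pw [lZ, lx] (m' + 1) =
      pw [lx] (m' + 1) ++ (pw [lY] (r + 1) ++ [lZ]) ++ ([lx] ++ pw [lZ, lx] m') := by
    rw [pw_succ [lZ, lx]]
    simp only [List.append_assoc, List.cons_append, List.nil_append]
  have e5 : [ly] ++ pw [lx] (m' + 1) ++ pw [lY] (r + 1 + 1) ++ pw [lx] (m' + 1) =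
      [ly] ++ pw [lx] (m' + 1) ++ [lY] ++ (pw [lY] (r + 1) ++ pw [lx] (m' + 1)) := by
    rw [pw_succ [lY] (r + 1)]
    simp only [List.append_assoc]
  rw [e12] at s1
  rw [e23] at s2
  rw [e34] at s3
  rw [e0, e5]
  refine R.cast (R.trans s1 (R.trans s2 (R.trans s3 (R.trans s4 s5)))) ?_
  rw [← Sid0_sum, Nat.add_sub_cancel]
  simp only [add_assoc]

end Pool.Agent.H86.SD
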