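import Pool.Agent.H86.SD.Sid

/-!
# SD-Sid1: one side of a stage

`m = m' + 1`, `2 * j = r + 1`.
* `side1` at `(m, c)`: `X^m Y^(2j) (Xz)^m`:
  (1) `Y^(2j) ⇒ z^m Y^(2j) Z^m` at `walk (m,c) X^m = (0, c)` (`wall1 c (2j-1) m`);
  (2) `Z^m (Xz)^m ⇒ X^m` at `walk (m,c) (X^m z^m Y^(2j)) = (0, c+m)` (`triTL 0 (c+m) m`);
  (3) `X^m z^m ⇒ (Xz)^m` at `(m, c)` (`triTR m c m`);
  (4) `(Xz)^m ⇒ y X^m Y` at `(m, c)` (`cor_Xz m c m'`);
  the word is `y X^m Y Y^(2j) X^m` (`pw_succ`).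
-/

noncomputable section

namespace Pool.Agent.H86.SD

open Finset

theorem side1 {m j : ℕ} (hm : 1 ≤ m) (hj : 1 ≤ j) (c : ℤ) :
    R ((m : ℤ), c) (pw [lX] m ++ pw [lY] (2 * j) ++ pw [lX, lz] m)
      ([ly] ++ pw [lX] m ++ pw [lY] (2 * j + 1) ++ pw [lX] m) (L1 m j c) := by
  obtain ⟨r, hr⟩ : ∃ r, 2 * j = r + 1 := ⟨2 * j - 1, by omega⟩
  obtain ⟨m', hm'⟩ : ∃ m', m = m' + 1 := ⟨m - 1, by omega⟩
  have h1 : R (walk ((m : ℤ), c) (pw [lX] m)) (pw [lY] (2 * j))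
      (pw [lz] m ++ pw [lY] (2 * j) ++ pw [lZ] m) (∑ t ∈ range m, (2 * j) • sg 2 0 (c + t)) := by
    rw [walk_X, sub_self, hr]
    exact wall1 c r m
  have h1' := R.ctx (pw [lX] m) (pw [lX, lz] m) h1
  have h2 : R (walk ((m : ℤ), c) (pw [lX] m ++ pw [lz] m ++ pw [lY] (2 * j)))
      (pw [lZ] m ++ pw [lX, lz] m) (pw [lX] m) (T1 0 (c + m) m) := by
    rw [walk_append, walk_append, walk_X, sub_self, walk_z, walk_Y, mul_zero, sub_zero]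
    exact triTL 0 (c + m) m
  have h2' := R.left (pw [lX] m ++ pw [lz] m ++ pw [lY] (2 * j)) h2
  have h3' := R.right (pw [lY] (2 * j) ++ pw [lX] m) (triTR (m : ℤ) c m)
  have h4 : R ((m : ℤ), c) (pw [lX, lz] m) ([ly] ++ pw [lX] m ++ [lY])
      (∑ i ∈ range m, sg 0 (m - i - 1) (c + i)) := by
    have := cor_Xz (m : ℤ) c m'
    rw [← hm'] at this
    exact this
  have h4' := R.right (pw [lY] (2 * j) ++ pw [lX] m) h4
  have e1 : pw [lX] m ++ (pw [lz] m ++ pw [lY] (2 * j) ++ pw [lZ] m) ++ pw [lX, lz] m =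
      pw [lX] m ++ pw [lz] m ++ pw [lY] (2 * j) ++ (pw [lZ] m ++ pw [lX, lz] m) := by
    simp only [List.append_assoc]
  have e2 : pw [lX] m ++ pw [lz] m ++ pw [lY] (2 * j) ++ pw [lX] m =
      pw [lX] m ++ pw [lz] m ++ (pw [lY] (2 * j) ++ pw [lX] m) := by
    simp only [List.append_assoc]
  have e4 : [ly] ++ pw [lX] m ++ pw [lY] (2 * j + 1) ++ pw [lX] m =
      [ly] ++ pw [lX] m ++ [lY] ++ (pw [lY] (2 * j) ++ pw [lX] m) := by
    rw [pw_succ]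
    simp only [List.append_assoc]
  rw [e1] at h1'
  rw [e2] at h2'
  rw [e4]
  refine R.cast (R.trans h1' (R.trans h2' (R.trans h3' h4'))) ?_
  unfold L1
  simp only [add_assoc]

end Pool.Agent.H86.SD
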