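import Pool.Agent.H86.SD.AsmA
import Pool.Agent.H86.SD.Sid1
import Pool.Agent.H86.SD.Sid0

/-!
# SD-AsmB: all stages

Base point `(m, k m)` throughout.
* `rz_A`: in `SS m j = y^j [X^m Y^(2j) (Xz)^m] y^(2j) [x^m Y^(2j) (Zx)^m] y^j` replace the first bracket by
  `side1` at `walk (m, km) (y^j) = (m, km + jm)` and the second by `side0` at the position after
  `y^j X^m Y^(2j) (Xz)^m y^(2j)`, which is `(-m, km + jm + m - 2jm) = (-m, km - jm + m)` (`walk_y`, ..).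
  The result is `y^j y X^m Y^(2j+1) X^m y^(2j) y x^m Y^(2j+1) x^m y^j = WW m j` (`pw_succ'`).
  (`Rz.of_R` twice; the contexts contain `y^j`, `1 ≤ j`.)
* `rz_B`: in `WW m j = y^(j+1) X^m Y^(2j+1) [X^m] y^(2j+1) x^m Y^(2j+1) [x^m] y^j` replace the brackets by
  `cor_X 0 (km+(j+1)m) (m-1)` and `cor_x 0 (km - jm) (m-1)`: the positions are
  `walk .. (y^(j+1) X^m Y^(2j+1)) = (0, km + (j+1)m)`, and after the whole prefix
  `(0, km + (j+1)m - (2j+1)m) = (0, km - jm)` (for the second one the prefix after the first replacement,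
  same position).  The result: `y^(j+1) X^m Y^(2j+1) Y (Xz)^m y y^(2j+1) x^m Y^(2j+1) Y (Zx)^m y y^j
  = SS m (j+1)`.
* `rz_all`: induction on `j`: `Rz (m, km) (WW m (j+1)) (LI m k + ∑ i ∈ range (j+1), LA m k (i+1) +
  ∑ i ∈ range j, LB m k (i+1))`: `rz_init`, `rz_A`, then `rz_B`, `rz_A`.  For `k ≥ 1` take `j = k - 1`.
-/

noncomputable section

namespace Pool.Agent.H86.SD

open Finset

/-- the faces of stage `j` -/
def LA (m k j : ℕ) : Multiset (Fin 3 × (ℤ × ℤ)) :=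
  L1 m j (k * m + j * m) + L0 m j (k * m - j * m + m)

/-- the faces of the second corridors of stage `j` -/
def LB (m k j : ℕ) : Multiset (Fin 3 × (ℤ × ℤ)) := LC m (k * m + (j + 1) * m) (k * m - j * m)

/-- all faces -/
def LT (m k : ℕ) : Multiset (Fin 3 × (ℤ × ℤ)) :=
  LI m k + ∑ i ∈ range k, LA m k (i + 1) + ∑ i ∈ range (k - 1), LB m k (i + 1)

theorem AsmB_ne {l : Letter} {j : ℕ} (hj : 1 ≤ j) (w : List Letter) : pw [l] j ++ w ≠ [] := by
  intro h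
  rw [List.append_eq_nil_iff] at h
  have h1 := length_pw [l] j
  rw [h.1] at h1
  simp at h1
  omega

theorem AsmB_pos1 (m k j : ℕ) :
    walk ((m : ℤ), (k * m : ℤ)) (pw [ly] j) = ((m : ℤ), (k * m + j * m : ℤ)) := by
  rw [walk_y]

theorem AsmB_pos2 (m k j : ℕ) :
    walk ((m : ℤ), (k * m : ℤ)) (pw [ly] j ++
      ([ly] ++ pw [lX] m ++ pw [lY] (2 * j + 1) ++ pw [lX] m) ++ pw [ly] (2 * j)) =
      (-(m : ℤ), (k * m - j * m + m : ℤ)) := by
  simp only [walk_append, walk_y, walk_X, walk_Y, walk_cons, walk_nil, step_y]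
  ext <;> (push_cast; ring)

theorem AsmB_pos3 (m k j : ℕ) :
    walk ((m : ℤ), (k * m : ℤ)) (pw [ly] (j + 1) ++ pw [lX] m ++ pw [lY] (2 * j + 1)) =
      ((0 : ℤ), (k * m + (j + 1) * m : ℤ)) := by
  simp only [walk_append, walk_y, walk_X, walk_Y]
  ext <;> (push_cast; ring)

theorem AsmB_pos4 (m k j : ℕ) :
    walk ((m : ℤ), (k * m : ℤ)) (pw [ly] (j + 1) ++ pw [lX] m ++ pw [lY] (2 * j + 1) ++
      ([lY] ++ pw [lX, lz] m ++ [ly]) ++ (pw [ly] (2 * j + 1) ++ pw [lx] m ++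
        pw [lY] (2 * j + 1))) = ((0 : ℤ), (k * m - j * m : ℤ)) := by
  simp only [walk_append, walk_y, walk_X, walk_Y, walk_x, walk_Xz, walk_cons, walk_nil, step_y,
    step_Y]
  ext <;> (push_cast; ring)

theorem rz_A {m k j : ℕ} (hm : 2 ≤ m) (hj : 1 ≤ j) {L : Multiset (Fin 3 × (ℤ × ℤ))}
    (h : Rz ((m : ℤ), (k * m : ℤ)) (SS m j) L) :
    Rz ((m : ℤ), (k * m : ℤ)) (WW m j) (L + LA m k j) := by
  have h1 : SS m j = pw [ly] j ++ (pw [lX] m ++ pw [lY] (2 * j) ++ pw [lX, lz] m) ++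
      (pw [ly] (2 * j) ++ pw [lx] m ++ pw [lY] (2 * j) ++ pw [lZ, lx] m ++ pw [ly] j) := by
    simp only [SS, List.append_assoc]
  rw [h1] at h
  have h2 := Rz.of_R (side1 (m := m) (j := j) (by omega) hj (k * m + j * m)) (AsmB_pos1 m k j)
    (AsmB_ne hj _) h
  have h3 : pw [ly] j ++ ([ly] ++ pw [lX] m ++ pw [lY] (2 * j + 1) ++ pw [lX] m) ++
      (pw [ly] (2 * j) ++ pw [lx] m ++ pw [lY] (2 * j) ++ pw [lZ, lx] m ++ pw [ly] j) =
      (pw [ly] j ++ ([ly] ++ pw [lX] m ++ pw [lY] (2 * j + 1) ++ pw [lX] m) ++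
        pw [ly] (2 * j)) ++ (pw [lx] m ++ pw [lY] (2 * j) ++ pw [lZ, lx] m) ++ pw [ly] j := by
    simp only [List.append_assoc]
  rw [h3] at h2
  have h4 := Rz.of_R (side0 (m := m) (j := j) (by omega) hj (k * m - j * m + m))
    (AsmB_pos2 m k j) (by
      rw [List.append_assoc, List.append_assoc]
      exact AsmB_ne hj _) h2
  have h5 : (pw [ly] j ++ ([ly] ++ pw [lX] m ++ pw [lY] (2 * j + 1) ++ pw [lX] m) ++
        pw [ly] (2 * j)) ++ ([ly] ++ pw [lx] m ++ pw [lY] (2 * j + 1) ++ pw [lx] m) ++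
          pw [ly] j = WW m j := by
    rw [WW, pw_succ' [ly] j, pw_succ' [ly] (2 * j)]
    simp only [List.append_assoc]
  rw [h5, add_assoc] at h4
  exact h4

theorem rz_B {m k j : ℕ} (hm : 2 ≤ m) (hj : 1 ≤ j) {L : Multiset (Fin 3 × (ℤ × ℤ))}
    (h : Rz ((m : ℤ), (k * m : ℤ)) (WW m j) L) :
    Rz ((m : ℤ), (k * m : ℤ)) (SS m (j + 1)) (L + LB m k j) := by
  obtain ⟨m', rfl⟩ : ∃ m', m = m' + 1 := ⟨m - 1, by omega⟩
  have hX := cor_X 0 (k * (m' + 1 : ℕ) + (j + 1) * (m' + 1 : ℕ)) m'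
  have hx := cor_x 0 (k * (m' + 1 : ℕ) - j * (m' + 1 : ℕ)) m'
  generalize m' + 1 = m at *
  have h1 : WW m j = (pw [ly] (j + 1) ++ pw [lX] m ++ pw [lY] (2 * j + 1)) ++ pw [lX] m ++
      (pw [ly] (2 * j + 1) ++ pw [lx] m ++ pw [lY] (2 * j + 1) ++ pw [lx] m ++ pw [ly] j) := by
    simp only [WW, List.append_assoc]
  rw [h1] at h
  have h2 := Rz.of_R hX (AsmB_pos3 m k j) (by
    rw [List.append_assoc, List.append_assoc]
    exact AsmB_ne (by omega) _) h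
  have h3 : (pw [ly] (j + 1) ++ pw [lX] m ++ pw [lY] (2 * j + 1)) ++
        ([lY] ++ pw [lX, lz] m ++ [ly]) ++
      (pw [ly] (2 * j + 1) ++ pw [lx] m ++ pw [lY] (2 * j + 1) ++ pw [lx] m ++ pw [ly] j) =
      (pw [ly] (j + 1) ++ pw [lX] m ++ pw [lY] (2 * j + 1) ++
      ([lY] ++ pw [lX, lz] m ++ [ly]) ++ (pw [ly] (2 * j + 1) ++ pw [lx] m ++
        pw [lY] (2 * j + 1))) ++ pw [lx] m ++ pw [ly] j := by
    simp only [List.append_assoc]
  rw [h3] at h2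
  have h4 := Rz.of_R hx (AsmB_pos4 m k j) (by
    simp only [List.append_assoc]
    exact AsmB_ne (by omega) _) h2
  have h5 : (pw [ly] (j + 1) ++ pw [lX] m ++ pw [lY] (2 * j + 1) ++
      ([lY] ++ pw [lX, lz] m ++ [ly]) ++ (pw [ly] (2 * j + 1) ++ pw [lx] m ++
        pw [lY] (2 * j + 1))) ++ ([lY] ++ pw [lZ, lx] m ++ [ly]) ++ pw [ly] j =
      SS m (j + 1) := by
    have e1 : 2 * (j + 1) = (2 * j + 1) + 1 := by ring
    rw [SS, e1, pw_succ' [lY] (2 * j + 1), pw_succ [ly] (2 * j + 1)]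
    conv_rhs => rw [show pw [ly] (j + 1) ++ pw [lX] m ++ (pw [lY] (2 * j + 1) ++ [lY]) ++
      pw [lX, lz] m ++ ([ly] ++ pw [ly] (2 * j + 1)) ++ pw [lx] m ++
      (pw [lY] (2 * j + 1) ++ [lY]) ++ pw [lZ, lx] m ++ pw [ly] (j + 1) =
      pw [ly] (j + 1) ++ pw [lX] m ++ (pw [lY] (2 * j + 1) ++ [lY]) ++
      pw [lX, lz] m ++ ([ly] ++ pw [ly] (2 * j + 1)) ++ pw [lx] m ++
      (pw [lY] (2 * j + 1) ++ [lY]) ++ pw [lZ, lx] m ++ ([ly] ++ pw [ly] j) from by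
        rw [← pw_succ [ly] j]]
    simp only [List.append_assoc]
  rw [h5, add_assoc] at h4
  have h6 : (∑ i ∈ range m, sg 0 (0 - i - 1) (k * m + (j + 1) * m - 0 + i) +
      ∑ i ∈ range m, sg 0 (0 + i) (k * m - j * m - 0 - i - 1)) = LB m k j := by
    simp only [LB, LC, zero_sub, sub_zero, zero_add]
  rw [← h6]
  exact h4

theorem rz_all {m k : ℕ} (hm : 2 ≤ m) (hk : 1 ≤ k) :
    Rz ((m : ℤ), (k * m : ℤ)) (WW m k) (LT m k) := by
  have key : ∀ j : ℕ, Rz ((m : ℤ), (k * m : ℤ)) (WW m (j + 1))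
      (LI m k + ∑ i ∈ range (j + 1), LA m k (i + 1) + ∑ i ∈ range j, LB m k (i + 1)) := by
    intro j
    induction j with
    | zero =>
      have h := rz_A hm le_rfl (rz_init (m := m) (k := k) hm)
      simpa using h
    | succ j ih =>
      have h1 := rz_B hm (Nat.succ_le_succ (Nat.zero_le j)) ih
      have h2 := rz_A hm (Nat.succ_le_succ (Nat.zero_le (j + 1))) h1
      have e : LI m k + ∑ i ∈ range (j + 1 + 1), LA m k (i + 1) +
          ∑ i ∈ range (j + 1), LB m k (i + 1) =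
          LI m k + ∑ i ∈ range (j + 1), LA m k (i + 1) + ∑ i ∈ range j, LB m k (i + 1) +
            LB m k (j + 1) + LA m k (j + 1 + 1) := by
        rw [Finset.sum_range_succ (fun i => LA m k (i + 1)) (j + 1),
          Finset.sum_range_succ (fun i => LB m k (i + 1)) j]
        abel
      rw [e]
      exact h2
  obtain ⟨j, rfl⟩ : ∃ j, k = j + 1 := ⟨k - 1, by omega⟩
  have h := key j
  rw [LT, Nat.add_sub_cancel]
  exact h

end Pool.Agent.H86.SD
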