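import Pool.Agent.H86.SD.Def

/-!
# SD-Bas: basic facts on `Pre`
-/

noncomputable section

namespace Pool.Agent.H86.SD

namespace Pre

variable (P : Pre)

theorem fc_φ (d : P.D) : P.fc (P.φ d) = P.fc d := by
  have h1 : d ∈ P.cyc (P.fc d) := (P.mem_cyc _ _).2 rfl
  have h2 : P.φ d ∈ (P.cyc (P.fc d)).rotate 1 := by
    rw [← P.map_cyc]
    exact List.mem_map_of_mem h1
  exact (P.mem_cyc _ _).1 (List.mem_rotate.1 h2)

theorem vtx_φα (d : P.D) : P.vtx (P.φ (P.α d)) = P.vtx d := by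
  apply Quotient.sound
  show Equiv.Perm.SameCycle (P.φ * P.α) (P.φ (P.α d)) d
  have : P.φ (P.α d) = (P.φ * P.α) d := rfl
  rw [this]
  exact (Equiv.Perm.SameCycle.refl _ _).apply_left

theorem vtx_α (d : P.D) : P.vtx (P.α d) = P.vtx (P.φ d) := by
  rw [← P.vtx_φα (P.α d), P.α_α]

theorem fc_surj (i : Option P.I) : ∃ d, P.fc d = i := by
  obtain ⟨d, hd⟩ := List.exists_mem_of_ne_nil _ (P.cyc_ne i)
  exact ⟨d, (P.mem_cyc _ _).1 hd⟩

theorem α_ne (d : P.D) : P.α d ≠ d := by
  intro h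
  have h1 := P.lab_α d
  rw [h] at h1
  exact linv_ne _ h1.symm

theorem sum_cyc (f : P.D → ℝ) (i : Option P.I) [DecidableEq (Option P.I)] :
    ((P.cyc i).map f).sum = ∑ d, if P.fc d = i then f d else 0 := by
  classical
  rw [← List.sum_toFinset f (P.cyc_nodup i), ← Finset.sum_filter]
  refine Finset.sum_congr ?_ fun _ _ => rfl
  ext d
  rw [List.mem_toFinset, P.mem_cyc, Finset.mem_filter]
  simp

/-- the sum over all oriented edges, face by face -/
theorem sum_all (f : P.D → ℝ) : ∑ d, f d = ∑ i : Option P.I, ((P.cyc i).map f).sum := by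
  classical
  simp only [P.sum_cyc f]
  rw [Finset.sum_comm]
  refine Finset.sum_congr rfl fun d _ => ?_
  simp

theorem sum_all' (f : P.D → ℝ) :
    ∑ d, f d = ((P.cyc none).map f).sum + ∑ i : P.I, ((P.cyc (some i)).map f).sum := by
  rw [P.sum_all f, Fintype.sum_option]

/-- induction over all oriented edges -/
theorem conn_induction {p : P.D → Prop} (d0 : P.D) (h0 : p d0) (hα : ∀ d, p d → p (P.α d))
    (hφ : ∀ d, p d → p (P.φ d)) (d : P.D) : p d := by
  have h := P.conn {d | p d} ⟨d0, h0⟩ fun d hd => ⟨hα d hd, hφ d hd⟩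
  have : d ∈ {d | p d} := by rw [h]; trivial
  exact this

instance : Finite P.Vert := by
  unfold Vert
  infer_instance

instance : Nonempty P.D := by
  obtain ⟨d, -⟩ := P.fc_surj none
  exact ⟨d⟩

end Pre

end Pool.Agent.H86.SD
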