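import Pool.Agent.H86.SD.Gam

/-!
# SD-Bdr: the test function vanishes on the boundary; the boundary word is cyclically reduced

* `GG_bdr`: `M = (2k+1) m`.  Split the path with `edges_append` and `walk_y` etc. into 9 blocks
  (`K = 2k+1`): `y^(k+1)` at `(m, km)`, `X^m` at `(m, Km)`, `Y^K` at `(0, Km)`, `X^m` at `(0, Km)`, `y^K` at
  `(-m, Km)`, `x^m` at `(-m, 0)`, `Y^K` at `(0, 0)`, `x^m` at `(0, 0)`, `y^k` at `(m, 0)`.  By induction on `r`:
  every edge of `y^r` from `(a, c)` has `src = (a, _)`; of `Y^r` from `(0, c)`: `src = (0, c)`; of `x^r`, `X^r` from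
  `(a, c)`: `src = (_, c)`.  And `hf m m = hf m (-m) = 0` (`hh 0 = 0`), `tau M 0 = tau M M = 0` (here
  `M = ((Km : ℕ) : ℝ)`).
* `red_WW`: `w.zip (w.rotate 1)` for `w = a :: t` is `(a :: t).zip (t ++ [a])`, the pairs of neighbours in
  `w ++ [a]`.  Prove by induction: if all neighbours in `w ++ [a]` (`List.IsChain`) satisfy
  `q ≠ linv p`, the claim holds.  In `WW m k ++ [y]` neighbours are equal or have different generators
  (`linv l ≠ l`; `(linv l).1 = l.1`); powers `pw [l] r` are constant (`List.replicate`).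
-/

noncomputable section

namespace Pool.Agent.H86.SD

theorem bdr_y (a : ℤ) (r : ℕ) : ∀ (c : ℤ), ∀ e ∈ edges (a, c) (pw [ly] r), (src e).1 = a := by
  induction r with
  | zero => intro c e he; simp at he
  | succ r ih =>
    intro c e he
    rw [pw_succ, List.singleton_append, edges_cons, List.mem_cons, step_y] at he
    rcases he with rfl | he
    · rfl
    · exact ih _ e he

theorem bdr_Y (c : ℤ) (r : ℕ) : ∀ e ∈ edges ((0 : ℤ), c) (pw [lY] r), (src e).2 = c := by
  induction r with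
  | zero => intro e he; simp at he
  | succ r ih =>
    intro e he
    rw [pw_succ, List.singleton_append, edges_cons, List.mem_cons, step_Y, sub_zero] at he
    rcases he with rfl | he
    · show (src (((0 : ℤ), c), lY)).2 = c
      have h : src (((0 : ℤ), c), lY) = step ((0 : ℤ), c) lY := rfl
      rw [h, step_Y, sub_zero]
    · exact ih e he

theorem bdr_x (c : ℤ) (r : ℕ) : ∀ (a : ℤ), ∀ e ∈ edges (a, c) (pw [lx] r), (src e).2 = c := by
  induction r with
  | zero => intro a e he; simp at he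
  | succ r ih =>
    intro a e he
    rw [pw_succ, List.singleton_append, edges_cons, List.mem_cons, step_x] at he
    rcases he with rfl | he
    · rfl
    · exact ih _ e he

theorem bdr_X (c : ℤ) (r : ℕ) : ∀ (a : ℤ), ∀ e ∈ edges (a, c) (pw [lX] r), (src e).2 = c := by
  induction r with
  | zero => intro a e he; simp at he
  | succ r ih =>
    intro a e he
    rw [pw_succ, List.singleton_append, edges_cons, List.mem_cons, step_X] at he
    rcases he with rfl | he
    · show (src ((a, c), lX)).2 = c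
      have h : src ((a, c), lX) = step (a, c) lX := rfl
      rw [h, step_X]
    · exact ih _ e he

theorem bdr_hf {m : ℕ} {a : ℤ} (h : a.natAbs = m) : hf m a = 0 := by
  simp [hf, h, hh]

theorem bdr_tau0 (M : ℝ) : tau M 0 = 0 := by
  have h : max 0 (min ((0 : ℤ) : ℝ) (M - ((0 : ℤ) : ℝ))) = 0 := by
    apply max_eq_left
    exact (min_le_left _ _).trans (by simp)
  rw [tau, h, zero_div]

theorem bdr_tauM {M : ℝ} {c : ℤ} (h : (c : ℝ) = M) : tau M c = 0 := by
  have h : max 0 (min (c : ℝ) (M - (c : ℝ))) = 0 := by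
    apply max_eq_left
    exact (min_le_right _ _).trans (by rw [h, sub_self])
  rw [tau, h, zero_div]

theorem GG_bdr {m k : ℕ} (hm : 1 ≤ m) :
    ∀ e ∈ edges ((m : ℤ), (k * m : ℤ)) (WW m k), GG ((2 * k + 1) * m) m (src e) = 0 := by
  intro e he
  set M : ℝ := (2 * k + 1) * m with hMdef
  have w1 : walk ((m : ℤ), (k * m : ℤ)) (pw [ly] (k + 1)) = ((m : ℤ), ((2 * k + 1) * m : ℤ)) := by
    rw [walk_y]
    ext
    · rfl
    · push_cast; ring
  have w2 : walk ((m : ℤ), ((2 * k + 1) * m : ℤ)) (pw [lX] m) = ((0 : ℤ), ((2 * k + 1) * m : ℤ)) := by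
    rw [walk_X, sub_self]
  have w3 : walk ((0 : ℤ), ((2 * k + 1) * m : ℤ)) (pw [lY] (2 * k + 1)) =
      ((0 : ℤ), ((2 * k + 1) * m : ℤ)) := by
    rw [walk_Y, mul_zero, sub_zero]
  have w4 : walk ((0 : ℤ), ((2 * k + 1) * m : ℤ)) (pw [lX] m) =
      (-(m : ℤ), ((2 * k + 1) * m : ℤ)) := by
    rw [walk_X, zero_sub]
  have w5 : walk (-(m : ℤ), ((2 * k + 1) * m : ℤ)) (pw [ly] (2 * k + 1)) = (-(m : ℤ), (0 : ℤ)) := by
    rw [walk_y]
    ext
    · rfl
    · push_cast; ring
  have w6 : walk (-(m : ℤ), (0 : ℤ)) (pw [lx] m) = ((0 : ℤ), (0 : ℤ)) := by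
    rw [walk_x, neg_add_cancel]
  have w7 : walk ((0 : ℤ), (0 : ℤ)) (pw [lY] (2 * k + 1)) = ((0 : ℤ), (0 : ℤ)) := by
    rw [walk_Y, mul_zero, sub_zero]
  have w8 : walk ((0 : ℤ), (0 : ℤ)) (pw [lx] m) = ((m : ℤ), (0 : ℤ)) := by
    rw [walk_x, zero_add]
  have hc : ((((2 * k + 1) * m : ℤ)) : ℝ) = M := by rw [hMdef]; push_cast; ring
  have key1 : ∀ p : ℤ × ℤ, p.1.natAbs = m → GG M m p = 0 := by
    intro p hp
    rw [GG, bdr_hf hp, mul_zero]
  have key2 : ∀ p : ℤ × ℤ, p.2 = 0 → GG M m p = 0 := by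
    intro p hp
    rw [GG, hp, bdr_tau0 M, zero_mul]
  have key3 : ∀ p : ℤ × ℤ, p.2 = ((2 * k + 1) * m : ℤ) → GG M m p = 0 := by
    intro p hp
    rw [GG, hp, bdr_tauM hc, zero_mul]
  simp only [WW, edges_append, walk_append, w1, w2, w3, w4, w5, w6, w7, w8, List.mem_append] at he
  rcases he with (((((((h | h) | h) | h) | h) | h) | h) | h) | h
  · exact key1 _ (by rw [bdr_y _ _ _ _ h]; simp)
  · exact key3 _ (bdr_X _ _ _ _ h)
  · exact key3 _ (bdr_Y _ _ _ h)
  · exact key3 _ (bdr_X _ _ _ _ h)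
  · exact key1 _ (by rw [bdr_y _ _ _ _ h]; simp)
  · exact key2 _ (bdr_x _ _ _ _ h)
  · exact key2 _ (bdr_Y _ _ _ h)
  · exact key2 _ (bdr_x _ _ _ _ h)
  · exact key1 _ (by rw [bdr_y _ _ _ _ h]; simp)

/-- neighbours which do not cancel -/
def bdrR (p q : Letter) : Prop := q ≠ linv p

theorem bdr_zip (t : List Letter) : ∀ (a b : Letter), List.IsChain bdrR (a :: (t ++ [b])) →
    ∀ p ∈ (a :: t).zip (t ++ [b]), p.2 ≠ linv p.1 := by
  induction t with
  | nil =>
    intro a b h p hp
    simp only [List.nil_append, List.zip_cons_cons, List.zip_nil_left, List.mem_singleton] at hp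
    subst hp
    exact (List.isChain_cons_cons.1 h).1
  | cons c t ih =>
    intro a b h p hp
    rw [List.cons_append, List.zip_cons_cons, List.mem_cons] at hp
    rw [List.cons_append, List.isChain_cons_cons] at h
    rcases hp with rfl | hp
    · exact h.1
    · exact ih c b h.2 p hp

theorem bdr_pw (l : Letter) (n : ℕ) : pw [l] n = List.replicate n l := by
  induction n with
  | zero => simp
  | succ n ih => rw [pw_succ, ih, List.replicate_succ, List.singleton_append]

/-- reduced words ending in `l` -/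
def bdrQ (w : List Letter) (l : Letter) : Prop := List.IsChain bdrR w ∧ w.getLast? = some l

theorem bdr_step {w : List Letter} {l l' : Letter} (h : bdrQ w l) (hl : bdrR l l') (n : ℕ) :
    bdrQ (w ++ pw [l'] (n + 1)) l' := by
  induction n with
  | zero =>
    rw [zero_add, pw_one]
    refine ⟨?_, by simp⟩
    rw [List.isChain_append]
    refine ⟨h.1, by simp, ?_⟩
    intro x hx y hy
    rw [h.2] at hx
    simp only [Option.mem_def, Option.some.injEq, List.head?_cons] at hx hy
    subst hx; subst hy; exact hl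
  | succ n ih =>
    rw [pw_succ', ← List.append_assoc]
    refine ⟨?_, by simp⟩
    rw [List.isChain_append]
    refine ⟨ih.1, by simp, ?_⟩
    intro x hx y hy
    rw [ih.2] at hx
    simp only [Option.mem_def, Option.some.injEq, List.head?_cons] at hx hy
    subst hx; subst hy
    exact fun h => linv_ne _ h.symm

theorem bdr_start (l : Letter) : bdrQ [l] l := ⟨by simp, by simp⟩

theorem red_WW {m k : ℕ} (hm : 1 ≤ m) (hk : 1 ≤ k) : CycReduced (WW m k) := by
  obtain ⟨m, rfl⟩ : ∃ j, m = j + 1 := ⟨m - 1, by omega⟩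
  obtain ⟨k, rfl⟩ : ∃ j, k = j + 1 := ⟨k - 1, by omega⟩
  have hyX : bdrR ly lX := by unfold bdrR; decide
  have hXY : bdrR lX lY := by unfold bdrR; decide
  have hYX : bdrR lY lX := by unfold bdrR; decide
  have hXy : bdrR lX ly := by unfold bdrR; decide
  have hyx : bdrR ly lx := by unfold bdrR; decide
  have hxY : bdrR lx lY := by unfold bdrR; decide
  have hYx : bdrR lY lx := by unfold bdrR; decide
  have hxy : bdrR lx ly := by unfold bdrR; decide
  have hyy : bdrR ly ly := by unfold bdrR; decide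
  obtain ⟨t, ht, hc⟩ : ∃ t, WW (m + 1) (k + 1) = ly :: t ∧ List.IsChain bdrR (ly :: (t ++ [ly])) := by
    have h1 := bdr_step (bdr_start ly) hyy k
    have h2 := bdr_step h1 hyX m
    have h3 := bdr_step h2 hXY (2 * (k + 1))
    have h4 := bdr_step h3 hYX m
    have h5 := bdr_step h4 hXy (2 * (k + 1))
    have h6 := bdr_step h5 hyx m
    have h7 := bdr_step h6 hxY (2 * (k + 1))
    have h8 := bdr_step h7 hYx m
    have h9 := bdr_step h8 hxy k
    have h10 := bdr_step h9 hyy 0
    refine ⟨pw [ly] (k + 1) ++ pw [lX] (m + 1) ++ pw [lY] (2 * (k + 1) + 1) ++ pw [lX] (m + 1) ++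
      pw [ly] (2 * (k + 1) + 1) ++ pw [lx] (m + 1) ++ pw [lY] (2 * (k + 1) + 1) ++
      pw [lx] (m + 1) ++ pw [ly] (k + 1), ?_, ?_⟩
    · rw [WW, pw_succ [ly] (k + 1)]
      simp only [List.nil_append, List.cons_append]
    · have := h10.1
      simpa [pw_one, List.append_assoc] using this
  rw [ht]
  intro p hp
  rw [List.rotate_cons_succ, List.rotate_zero] at hp
  exact bdr_zip t ly ly hc p hp

end Pool.Agent.H86.SD
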