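import Pool.Agent.H86.SD.Pot

/-!
# SD-CalA: the calibration

`bpos M p g` is the value of the calibration on the positive edge with label `g` which starts at `p`,
`bet M p l` the value on the edge with the letter `l` which starts at `p`.
* `bet_linv`: antisymmetry (`step_linv`; the sign of `linv l` is opposite, `(linv l).1 = l.1`).
* `th_lip`: `th M` is 1-Lipschitz: cases of `min`.
* `face_le`: in each of the six cases of `face_cases` the positions of `d1, d2, ..` are `step`s of
  `P d0 = (a, c)` (`hP` and `φ d0 = d1` ...), the sum is `± (|a+1| - |a|)` for `[x,y]z⁻¹` (kind 0),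
  `± 1` for `[x,z]`, `± (th (c+a) - th (c+a+1))` for `[y,z]`.  Details for kind 0, start `(a, c)`:
  `y` at `(a+1, c)`: `(a+1) a / 2 + |a+1| + th c`; the negative letter `y⁻¹` starts at
  `(a, c+a+1)` and ends at `(a, c+1)`: `-(a (a-1)/2 + |a| + th (c+1))`; `z⁻¹` ends at `(a, c)`:
  `-(a + th c - th (c+1))`; `x`, `x⁻¹`: 0.  The inverse relators give the same with the opposite sign.
-/

noncomputable section

namespace Pool.Agent.H86.SD

def th (M c : ℝ) : ℝ := min c (M - c)

def bpos (M : ℝ) (p : ℝ × ℝ) (g : Fin 3) : ℝ :=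
  if g = 0 then 0 else if g = 1 then p.1 * (p.1 - 1) / 2 + |p.1| + th M p.2
  else p.1 + th M p.2 - th M (p.2 + 1)

def bet (M : ℝ) (p : ℝ × ℝ) (l : Letter) : ℝ :=
  if l.2 then bpos M p l.1 else - bpos M (step p l) l.1

theorem bet_linv (M : ℝ) (p : ℝ × ℝ) (l : Letter) : bet M (step p l) (linv l) = - bet M p l := by
  obtain ⟨g, b⟩ := l
  cases b
  · show (if (!false) = true then bpos M (step p (g, false)) g else _) =
      - (if false = true then _ else - bpos M (step p (g, false)) g)
    simp
  · show (if (!true) = true then _ else - bpos M (step (step p (g, true)) (linv (g, true))) g) =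
      - (if true = true then bpos M p g else _)
    rw [step_linv]
    simp

theorem th_lip (M c : ℝ) : |th M c - th M (c + 1)| ≤ 1 := by
  unfold th
  rw [abs_le]
  rcases le_total c (M - c) with h1 | h1 <;> rcases le_total (c + 1) (M - (c + 1)) with h2 | h2 <;>
    simp only [min_eq_left h1, min_eq_right h1, min_eq_left h2, min_eq_right h2] <;>
    constructor <;> linarith

theorem CalA_abs (a : ℝ) : |(|a + 1| - |a|)| ≤ 1 := by
  have h := abs_abs_sub_abs_le (a + 1) a
  rwa [add_sub_cancel_left, abs_one] at h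

theorem face_le (P : Pre) (M : ℝ) (pos : P.D → ℝ × ℝ)
    (hP : ∀ d, pos (P.φ d) = step (pos d) (P.lab d)) (i : P.I) :
    |((P.cyc (some i)).map fun d => bet M (pos d) (P.lab d)).sum| ≤ 1 := by
  rcases P.face_cases i with h | h | h | h | h | h
  · obtain ⟨d0, d1, d2, d3, d4, p0, p1, p2, p3, p4, l0, l1, l2, l3, l4, hs⟩ := h
    obtain ⟨⟨a, c⟩, hpd⟩ : ∃ q, pos d0 = q := ⟨_, rfl⟩
    have q1 : pos d1 = (a + 1, c) := by rw [← p0, hP, l0, hpd, step_x]
    have q2 : pos d2 = (a + 1, c + (a + 1)) := by rw [← p1, hP, l1, q1, step_y]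
    have q3 : pos d3 = (a, c + (a + 1)) := by
      rw [← p2, hP, l2, q2, step_X, add_sub_cancel_right]
    have q4 : pos d4 = (a, c + 1) := by
      rw [← p3, hP, l3, q3, step_Y]
      congr 1
      ring
    rw [hs]
    simp only [l0, l1, l2, l3, l4, hpd, q1, q2, q3, q4]
    have e0 : bet M (a, c) lx = 0 := by simp [bet, bpos, lx]
    have e1 : bet M (a + 1, c) ly = (a + 1) * a / 2 + |a + 1| + th M c := by
      simp [bet, bpos, ly]
    have e2 : bet M (a + 1, c + (a + 1)) lX = 0 := by simp [bet, bpos, lX]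
    have e3 : bet M (a, c + (a + 1)) lY = - (a * (a - 1) / 2 + |a| + th M (c + 1)) := by
      have : step (a, c + (a + 1)) lY = (a, c + 1) := by
        rw [step_Y]
        congr 1
        ring
      unfold bet
      rw [this]
      simp [bpos, lY]
    have e4 : bet M (a, c + 1) lZ = - (a + th M c - th M (c + 1)) := by
      have : step (a, c + 1) lZ = (a, c) := by
        rw [step_Z]
        congr 1
        ring
      unfold bet
      rw [this]
      simp [bpos, lZ]
    rw [e0, e1, e2, e3, e4]
    have e5 : 0 + ((a + 1) * a / 2 + |a + 1| + th M c) + 0 +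
        -(a * (a - 1) / 2 + |a| + th M (c + 1)) + -(a + th M c - th M (c + 1)) =
        |a + 1| - |a| := by ring
    rw [e5]
    exact CalA_abs a
  · obtain ⟨d0, d1, d2, d3, d4, p0, p1, p2, p3, p4, l0, l1, l2, l3, l4, hs⟩ := h
    obtain ⟨⟨a, c⟩, hpd⟩ : ∃ q, pos d0 = q := ⟨_, rfl⟩
    have q1 : pos d1 = (a, c + 1) := by rw [← p0, hP, l0, hpd, step_z]
    have q2 : pos d2 = (a, c + 1 + a) := by rw [← p1, hP, l1, q1, step_y]
    have q3 : pos d3 = (a + 1, c + 1 + a) := by rw [← p2, hP, l2, q2, step_x]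
    have q4 : pos d4 = (a + 1, c) := by
      rw [← p3, hP, l3, q3, step_Y]
      congr 1
      ring
    rw [hs]
    simp only [l0, l1, l2, l3, l4, hpd, q1, q2, q3, q4]
    have e0 : bet M (a, c) lz = a + th M c - th M (c + 1) := by simp [bet, bpos, lz]
    have e1 : bet M (a, c + 1) ly = a * (a - 1) / 2 + |a| + th M (c + 1) := by
      simp [bet, bpos, ly]
    have e2 : bet M (a, c + 1 + a) lx = 0 := by simp [bet, bpos, lx]
    have e3 : bet M (a + 1, c + 1 + a) lY = - ((a + 1) * a / 2 + |a + 1| + th M c) := by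
      have : step (a + 1, c + 1 + a) lY = (a + 1, c) := by
        rw [step_Y]
        congr 1
        ring
      unfold bet
      rw [this]
      simp [bpos, lY]
    have e4 : bet M (a + 1, c) lX = 0 := by simp [bet, bpos, lX]
    rw [e0, e1, e2, e3, e4]
    have e5 : a + th M c - th M (c + 1) + (a * (a - 1) / 2 + |a| + th M (c + 1)) + 0 +
        -((a + 1) * a / 2 + |a + 1| + th M c) + 0 = - (|a + 1| - |a|) := by ring
    rw [e5, abs_neg]
    exact CalA_abs a
  · obtain ⟨d0, d1, d2, d3, p0, p1, p2, p3, l0, l1, l2, l3, hs⟩ := h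
    obtain ⟨⟨a, c⟩, hpd⟩ : ∃ q, pos d0 = q := ⟨_, rfl⟩
    have q1 : pos d1 = (a + 1, c) := by rw [← p0, hP, l0, hpd, step_x]
    have q2 : pos d2 = (a + 1, c + 1) := by rw [← p1, hP, l1, q1, step_z]
    have q3 : pos d3 = (a, c + 1) := by
      rw [← p2, hP, l2, q2, step_X, add_sub_cancel_right]
    rw [hs]
    simp only [l0, l1, l2, l3, hpd, q1, q2, q3]
    have e0 : bet M (a, c) lx = 0 := by simp [bet, bpos, lx]
    have e1 : bet M (a + 1, c) lz = (a + 1) + th M c - th M (c + 1) := by simp [bet, bpos, lz]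
    have e2 : bet M (a + 1, c + 1) lX = 0 := by simp [bet, bpos, lX]
    have e3 : bet M (a, c + 1) lZ = - (a + th M c - th M (c + 1)) := by
      have : step (a, c + 1) lZ = (a, c) := by
        rw [step_Z]
        congr 1
        ring
      unfold bet
      rw [this]
      simp [bpos, lZ]
    rw [e0, e1, e2, e3]
    have e5 : 0 + (a + 1 + th M c - th M (c + 1)) + 0 + -(a + th M c - th M (c + 1)) = 1 := by ring
    rw [e5, abs_one]
  · obtain ⟨d0, d1, d2, d3, p0, p1, p2, p3, l0, l1, l2, l3, hs⟩ := h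
    obtain ⟨⟨a, c⟩, hpd⟩ : ∃ q, pos d0 = q := ⟨_, rfl⟩
    have q1 : pos d1 = (a, c + 1) := by rw [← p0, hP, l0, hpd, step_z]
    have q2 : pos d2 = (a + 1, c + 1) := by rw [← p1, hP, l1, q1, step_x]
    have q3 : pos d3 = (a + 1, c) := by
      rw [← p2, hP, l2, q2, step_Z, add_sub_cancel_right]
    rw [hs]
    simp only [l0, l1, l2, l3, hpd, q1, q2, q3]
    have e0 : bet M (a, c) lz = a + th M c - th M (c + 1) := by simp [bet, bpos, lz]
    have e1 : bet M (a, c + 1) lx = 0 := by simp [bet, bpos, lx]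
    have e2 : bet M (a + 1, c + 1) lZ = - ((a + 1) + th M c - th M (c + 1)) := by
      have : step (a + 1, c + 1) lZ = (a + 1, c) := by
        rw [step_Z]
        congr 1
        ring
      unfold bet
      rw [this]
      simp [bpos, lZ]
    have e3 : bet M (a + 1, c) lX = 0 := by simp [bet, bpos, lX]
    rw [e0, e1, e2, e3]
    have e5 : a + th M c - th M (c + 1) + 0 + -(a + 1 + th M c - th M (c + 1)) + 0 = -1 := by ring
    rw [e5, abs_neg, abs_one]
  · obtain ⟨d0, d1, d2, d3, p0, p1, p2, p3, l0, l1, l2, l3, hs⟩ := h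
    obtain ⟨⟨a, c⟩, hpd⟩ : ∃ q, pos d0 = q := ⟨_, rfl⟩
    have q1 : pos d1 = (a, c + a) := by rw [← p0, hP, l0, hpd, step_y]
    have q2 : pos d2 = (a, c + a + 1) := by rw [← p1, hP, l1, q1, step_z]
    have q3 : pos d3 = (a, c + 1) := by
      rw [← p2, hP, l2, q2, step_Y]
      congr 1
      ring
    rw [hs]
    simp only [l0, l1, l2, l3, hpd, q1, q2, q3]
    have e0 : bet M (a, c) ly = a * (a - 1) / 2 + |a| + th M c := by simp [bet, bpos, ly]
    have e1 : bet M (a, c + a) lz = a + th M (c + a) - th M (c + a + 1) := by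
      simp [bet, bpos, lz]
    have e2 : bet M (a, c + a + 1) lY = - (a * (a - 1) / 2 + |a| + th M (c + 1)) := by
      have : step (a, c + a + 1) lY = (a, c + 1) := by
        rw [step_Y]
        congr 1
        ring
      unfold bet
      rw [this]
      simp [bpos, lY]
    have e3 : bet M (a, c + 1) lZ = - (a + th M c - th M (c + 1)) := by
      have : step (a, c + 1) lZ = (a, c) := by
        rw [step_Z]
        congr 1
        ring
      unfold bet
      rw [this]
      simp [bpos, lZ]
    rw [e0, e1, e2, e3]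
    have e5 : a * (a - 1) / 2 + |a| + th M c + (a + th M (c + a) - th M (c + a + 1)) +
        -(a * (a - 1) / 2 + |a| + th M (c + 1)) + -(a + th M c - th M (c + 1)) =
        th M (c + a) - th M (c + a + 1) := by ring
    rw [e5]
    exact th_lip M (c + a)
  · obtain ⟨d0, d1, d2, d3, p0, p1, p2, p3, l0, l1, l2, l3, hs⟩ := h
    obtain ⟨⟨a, c⟩, hpd⟩ : ∃ q, pos d0 = q := ⟨_, rfl⟩
    have q1 : pos d1 = (a, c + 1) := by rw [← p0, hP, l0, hpd, step_z]
    have q2 : pos d2 = (a, c + 1 + a) := by rw [← p1, hP, l1, q1, step_y]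
    have q3 : pos d3 = (a, c + a) := by
      rw [← p2, hP, l2, q2, step_Z]
      congr 1
      ring
    rw [hs]
    simp only [l0, l1, l2, l3, hpd, q1, q2, q3]
    have e0 : bet M (a, c) lz = a + th M c - th M (c + 1) := by simp [bet, bpos, lz]
    have e1 : bet M (a, c + 1) ly = a * (a - 1) / 2 + |a| + th M (c + 1) := by
      simp [bet, bpos, ly]
    have e2 : bet M (a, c + 1 + a) lZ = - (a + th M (c + a) - th M (c + a + 1)) := by
      have : step (a, c + 1 + a) lZ = (a, c + a) := by
        rw [step_Z]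
        congr 1
        ring
      unfold bet
      rw [this]
      simp [bpos, lZ]
    have e3 : bet M (a, c + a) lY = - (a * (a - 1) / 2 + |a| + th M c) := by
      have : step (a, c + a) lY = (a, c) := by
        rw [step_Y]
        congr 1
        ring
      unfold bet
      rw [this]
      simp [bpos, lY]
    rw [e0, e1, e2, e3]
    have e5 : a + th M c - th M (c + 1) + (a * (a - 1) / 2 + |a| + th M (c + 1)) +
        -(a + th M (c + a) - th M (c + a + 1)) + -(a * (a - 1) / 2 + |a| + th M c) =
        - (th M (c + a) - th M (c + a + 1)) := by ring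
    rw [e5, abs_neg]
    exact th_lip M (c + a)

end Pool.Agent.H86.SD
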