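import Pool.Agent.H86.SD.CalA

/-!
# SD-CalB: the calibration inequality

* `card_ge`: let `P` be from `exists_pos Δ p0`, `β d = bet M (P d) (lab d)`.  `β (α d) = - β d`
  (`P (α d) = P (φ d) = step (P d) (lab d)`, `lab_α`, `bet_linv`), so `∑ d, β d = 0`
  (`Equiv.sum_comp Δ.α` or `Pre.sum_anti`) and by `sum_all'`
  `((cyc none).map β).sum = - ∑ i : I, ((cyc (some i)).map β).sum`, whose absolute value is at most
  `card I` (`face_le`, `Finset.abs_sum_le_sum_abs`).  `(cyc none).map β` is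
  `(edges p0 word).map (fun e => bet M e.1 e.2)` (`List.map_map` and the last statement of
  `exists_pos`).
-/

noncomputable section

namespace Pool.Agent.H86.SD

/-- the sum of the calibration over a path -/
def bsum (M : ℝ) (p : ℝ × ℝ) (w : List Letter) : ℝ :=
  ((edges p w).map fun e => bet M e.1 e.2).sum

theorem Diagram.card_ge (Δ : Diagram) (M : ℝ) (p0 : ℝ × ℝ) :
    |bsum M p0 Δ.toPre.word| ≤ Fintype.card Δ.I := by
  obtain ⟨P, h1, h2, h3⟩ := Δ.exists_pos p0
  have hanti : ∀ d, bet M (P (Δ.α d)) (Δ.lab (Δ.α d)) = - bet M (P d) (Δ.lab d) := by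
    intro d
    rw [h2, h1, Δ.lab_α]
    exact bet_linv M (P d) (Δ.lab d)
  have hsum : ∑ d, bet M (P d) (Δ.lab d) = 0 := by
    have h4 : ∑ d, bet M (P (Δ.α d)) (Δ.lab (Δ.α d)) = ∑ d, bet M (P d) (Δ.lab d) :=
      Equiv.sum_comp Δ.α (fun d => bet M (P d) (Δ.lab d))
    simp only [hanti, Finset.sum_neg_distrib] at h4
    linarith
  have hall := Δ.toPre.sum_all' (fun d => bet M (P d) (Δ.lab d))
  rw [hsum] at hall
  have hb : bsum M p0 Δ.toPre.word = ((Δ.cyc none).map fun d => bet M (P d) (Δ.lab d)).sum := by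
    unfold bsum
    rw [← h3, List.map_map]
    rfl
  rw [hb]
  have h5 : ((Δ.cyc none).map fun d => bet M (P d) (Δ.lab d)).sum =
      - ∑ i : Δ.I, ((Δ.cyc (some i)).map fun d => bet M (P d) (Δ.lab d)).sum := by
    linarith
  rw [h5, abs_neg]
  refine (Finset.abs_sum_le_sum_abs _ _).trans ?_
  refine (Finset.sum_le_sum fun i _ => face_le Δ.toPre M P h1 i).trans ?_
  rw [Finset.sum_const, Finset.card_univ, nsmul_eq_mul, mul_one]

end Pool.Agent.H86.SD
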