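import Pool.Agent.H86.SD.CalB

/-!
# SD-CalC: the value of the calibration on the word `WW`

* `bsum_WW`: split with `edges_append` (`WW` is a product of 9 powers), `walk_X` etc. give the
  starting points of the blocks: with `K = 2k+1`: `y^(k+1)` at `(m, km)`, `x^-m` at `(m, Km)`, `y^-K` at
  `(0, Km)`, `x^-m` at `(0, Km)`, `y^K` at `(-m, Km)`, `x^m` at `(-m, 0)`, `y^-K` at `(0, 0)`, `x^m` at
  `(0, 0)`, `y^k` at `(m, 0)`.  By induction on `r`:
  the sum of `bet M` over `y^r` from `(a, c)` is `r (a (a-1)/2 + |a|) + ∑_{j<r} th M (c + j a)`,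
  over `y^-r` from `(0, c)` it is `- r th M c`, over `x^r`, `x^-r` it is 0.  With `M = K m`:
  `th M 0 = th M (K m) = 0`.  Total: `K (m (m-1)/2 + m) + K (m (m+1)/2 + m)
  + ∑_{j<k+1} th M (k m + j m) + ∑_{j<k} th M (j m) + ∑_{j<K} th M (K m - j m)`
  `= K (m^2 + 2m) + 2 m ∑_{j<K} min j (K - j)`, as `th M (j m) = m min j (K-j)` (`th M (M - c) = th M c`,
  the first two sums are `∑_{j<K} th M (j m)`), and `∑_{j<K} min j (K-j) = k (k+1)` (split at `k`:
  `j ≤ k`: `min = j`, sum `k (k+1)/2`; `j = K - i`, `1 ≤ i ≤ k`: `min = i`).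
-/

noncomputable section

namespace Pool.Agent.H86.SD

theorem CalC_append (M : ℝ) (p : ℝ × ℝ) (u w : List Letter) :
    bsum M p (u ++ w) = bsum M p u + bsum M (walk p u) w := by
  simp [bsum, edges_append]

theorem CalC_cons (M : ℝ) (p : ℝ × ℝ) (l : Letter) (w : List Letter) :
    bsum M p (l :: w) = bet M p l + bsum M (step p l) w := by
  simp [bsum]

theorem CalC_nil (M : ℝ) (p : ℝ × ℝ) : bsum M p [] = 0 := by
  simp [bsum]

theorem CalC_x (M a c : ℝ) (r : ℕ) : bsum M (a, c) (pw [lx] r) = 0 := by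
  induction r generalizing a with
  | zero => simp [pw, CalC_nil]
  | succ n ih =>
    rw [pw_succ, List.singleton_append, CalC_cons, step_x, ih]
    simp [bet, bpos, lx]

theorem CalC_X (M a c : ℝ) (r : ℕ) : bsum M (a, c) (pw [lX] r) = 0 := by
  induction r generalizing a with
  | zero => simp [pw, CalC_nil]
  | succ n ih =>
    rw [pw_succ, List.singleton_append, CalC_cons, step_X, ih]
    simp [bet, bpos, lX]

theorem CalC_y (M a c : ℝ) (r : ℕ) : bsum M (a, c) (pw [ly] r) =
    r * (a * (a - 1) / 2 + |a|) + ∑ j ∈ Finset.range r, th M (c + j * a) := by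
  induction r generalizing c with
  | zero => simp [pw, CalC_nil]
  | succ n ih =>
    rw [pw_succ, List.singleton_append, CalC_cons, step_y, ih, Finset.sum_range_succ']
    have h1 : bet M (a, c) ly = a * (a - 1) / 2 + |a| + th M c := by
      simp [bet, bpos, ly]
    have h2 : ∀ j : ℕ, c + a + (j : ℝ) * a = c + ((j + 1 : ℕ) : ℝ) * a := by
      intro j
      push_cast
      ring
    rw [h1, Finset.sum_congr rfl fun j _ => by rw [h2 j]]
    push_cast
    simp only [zero_mul, add_zero]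
    ring

theorem CalC_Y (M c : ℝ) (r : ℕ) : bsum M (0, c) (pw [lY] r) = - (r * th M c) := by
  induction r with
  | zero => simp [pw, CalC_nil]
  | succ n ih =>
    rw [pw_succ, List.singleton_append, CalC_cons, step_Y, sub_zero, ih]
    have h1 : bet M (0, c) lY = - th M c := by
      simp [bet, bpos, lY, step, sgn]
    rw [h1]
    push_cast
    ring

theorem CalC_sum_id (n : ℕ) : ∑ j ∈ Finset.range n, (j : ℝ) = n * (n - 1) / 2 := by
  induction n with
  | zero => simp
  | succ n ih => rw [Finset.sum_range_succ, ih]; push_cast; ring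

theorem CalC_first (m k : ℕ) :
    ∑ j ∈ Finset.range k, th ((2 * k + 1) * m) (0 + j * (m : ℝ)) = m * (k * (k - 1) / 2) := by
  rw [← CalC_sum_id, Finset.mul_sum]
  refine Finset.sum_congr rfl fun j hj => ?_
  have hj' : (j : ℝ) ≤ k := by exact_mod_cast (Finset.mem_range.1 hj).le
  have hm : (0 : ℝ) ≤ m := Nat.cast_nonneg m
  have hk : (0 : ℝ) ≤ k := Nat.cast_nonneg k
  unfold th
  rw [min_eq_left]
  · ring
  · nlinarith

theorem CalC_second (m k : ℕ) :
    ∑ j ∈ Finset.range (k + 1), th ((2 * k + 1) * m) (k * m + j * (m : ℝ)) =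
      m * (k + k * (k + 1) / 2) := by
  rw [Finset.sum_range_succ']
  have hm : (0 : ℝ) ≤ m := Nat.cast_nonneg m
  have h0 : th ((2 * k + 1) * m) (k * m + ((0 : ℕ) : ℝ) * (m : ℝ)) = m * k := by
    unfold th
    rw [min_eq_left]
    · push_cast; ring
    · push_cast; nlinarith
  have h1 : ∀ j ∈ Finset.range k, th ((2 * k + 1) * m) (k * m + ((j + 1 : ℕ) : ℝ) * (m : ℝ)) =
      m * (k - (j : ℝ)) := by
    intro j hj
    unfold th
    rw [min_eq_right]
    · push_cast; ring
    · push_cast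
      have : (0 : ℝ) ≤ j := Nat.cast_nonneg j
      nlinarith
  rw [h0, Finset.sum_congr rfl h1, ← Finset.mul_sum, Finset.sum_sub_distrib, CalC_sum_id]
  simp only [Finset.sum_const, Finset.card_range, nsmul_eq_mul]
  ring

theorem CalC_third (m k : ℕ) :
    ∑ j ∈ Finset.range (2 * k + 1), th ((2 * k + 1) * m) ((2 * k + 1) * m + j * (-(m : ℝ))) =
      m * (k * (k + 1)) := by
  have h : ∀ j : ℕ, th ((2 * k + 1) * m) ((2 * k + 1) * m + j * (-(m : ℝ))) =
      th ((2 * k + 1) * m) (0 + j * (m : ℝ)) := by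
    intro j
    unfold th
    rw [min_comm]
    congr 1 <;> ring
  rw [Finset.sum_congr rfl fun j _ => h j, show 2 * k + 1 = k + (k + 1) by ring,
    Finset.sum_range_add]
  have h2 : ∀ j : ℕ, th ((2 * k + 1) * m) (0 + ((k + j : ℕ) : ℝ) * (m : ℝ)) =
      th ((2 * k + 1) * m) (k * m + j * (m : ℝ)) := by
    intro j
    congr 1
    push_cast
    ring
  rw [Finset.sum_congr rfl fun j _ => h2 j, CalC_first, CalC_second]
  ring

theorem bsum_WW (m k : ℕ) :
    bsum ((2 * k + 1) * m) (m, k * m) (WW m k) = NN m k := by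
  have hm : (0 : ℝ) ≤ m := Nat.cast_nonneg m
  have hk : (0 : ℝ) ≤ k := Nat.cast_nonneg k
  have hM : (0 : ℝ) ≤ (2 * k + 1) * m := by positivity
  have e1 : ((k : ℝ) * m + ((k + 1 : ℕ) : ℝ) * m) = (2 * k + 1) * m := by push_cast; ring
  have t0 : th ((2 * k + 1) * m) 0 = 0 := by
    unfold th
    rw [sub_zero, min_eq_left hM]
  have tM : th ((2 * k + 1) * m) ((2 * k + 1) * m) = 0 := by
    unfold th
    rw [sub_self, min_eq_right hM]
  have e2 : ((m : ℝ) - (m : ℕ)) = 0 := by simp
  have e3 : ((2 * (k : ℝ) + 1) * m - ((2 * k + 1 : ℕ) : ℝ) * 0) = (2 * k + 1) * m := by ring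
  have e4 : ((2 * (k : ℝ) + 1) * m + ((2 * k + 1 : ℕ) : ℝ) * (-(m : ℝ))) = 0 := by
    push_cast; ring
  unfold WW
  simp only [CalC_append, walk_append, CalC_x, CalC_X, CalC_y, walk_x, walk_X, walk_y, walk_Y, e1,
    e2, e3, zero_sub, e4, neg_add_cancel, zero_add, mul_zero, sub_zero, CalC_Y, t0, tM, neg_zero,
    add_zero]
  have f2 := CalC_first m k
  simp only [zero_add] at f2
  rw [CalC_second, CalC_third, f2]
  unfold NN
  rw [abs_neg, abs_of_nonneg hm]
  push_cast
  ring

end Pool.Agent.H86.SD
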