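import Pool.Agent.H86.SD.St

/-!
# SD-Chord: adding a face at the base point by one new edge

Let `S` be a state with boundary path `edges p (u ++ w)`, `cyc none = U ++ R` with
`U.length = u.length` (`List.take`, `List.drop`), `U = u0 :: U1 = U2 ++ [q1]`,
`R = r0 :: R1 = R2 ++ [q2]`.  From `map_cyc none`: `U.map φ = U1 ++ [r0]`, `R.map φ = R1 ++ [u0]`, so
`φ q1 = r0`, `φ q2 = u0`; `q1 ≠ q2`, `U` and `R` are disjoint (`cyc_nodup`); `pos u0 = p`,
`pos r0 = walk p u` (`edges_append`).
New state: `D' = D ⊕ Bool`, `I' = Option I`, `e = inr true`, `ē = inr false`,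
`α' = Equiv.sumCongr α Equiv.boolNot`,
`φ' (inl d) = if d = q2 then e else if d = q1 then ē else inl (φ d)`, `φ' e = inl (φ q1)`,
`φ' ē = inl (φ q2)`: injective by cases, so a permutation (`Equiv.ofBijective`,
`Finite.injective_iff_bijective`),
`lab' = Sum.elim lab (fun b => if b then l else linv l)`,
`fc' (inl d) = if d ∈ U then some none else (fc d).map some`, `fc' e = none`, `fc' ē = some none`,
`cyc' none = e :: R.map inl`, `cyc' (some none) = U.map inl ++ [ē]`,
`cyc' (some (some i)) = (cyc (some i)).map inl`,
`pos' = Sum.elim pos (fun b => if b then p else step p l)`,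
`N' = N`, `nm' (inl d) = nm d`, `nm' e = nm (φ q2)`, `nm' ē = nm (φ q1)`,
`fd' none = (k, b)`, `fd' (some i) = fd i`.
* `map_cyc`: `(U.map inl ++ [ē]).map φ' = U1.map inl ++ [ē] ++ [inl u0]`,
  `(e :: R.map inl).map φ' = inl r0 :: R1.map inl ++ [e]`; for an old inner face `q1, q2` are not in it.
* `conn`: as for a pendant edge: `T = {d | inl d ∈ S'}` is closed under `φ`: for `q2`: `e ∈ S'`, so
  `ē ∈ S'` (`α'`), so `φ' ē = inl (φ q2) ∈ S'`; for `q1`: `ē`, `e`, `inl (φ q1)`.
* `pos_φ`: `pos' e = p = pos u0 = pos (φ q2)`; `pos' ē = step p l = walk p u = pos r0 = pos (φ q1)`;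
  `step_linv`.
* `face none`: the list is `edges p u ++ [(step p l, linv l)] = edges p (u ++ [linv l])`.
* `nm_inv`: by cases `α d = q2`, `α d = q1`.
* `count`: `2 (card N + (card I + 1) + 1) = card D + 2 + 4`; `fc'`: `d ∈ U` implies `fc d = none`; an
  element of `cyc none` is in exactly one of `U`, `R`.
* the multiset: `Finset.univ : Finset (Option I)` is `insertNone univ`.
-/

noncomputable section

namespace Pool.Agent.H86.SD

section
variable {D I : Type}

open Classical in
/-- the new permutation of the oriented edges -/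
def Chord_phi (φ : D → D) (q1 q2 : D) : D ⊕ Bool → D ⊕ Bool :=
  Sum.elim (fun d => if d = q2 then Sum.inr true else if d = q1 then Sum.inr false
    else Sum.inl (φ d)) (fun b => if b then Sum.inl (φ q1) else Sum.inl (φ q2))

theorem Chord_phi_q2 (φ : D → D) (q1 q2 : D) :
    Chord_phi φ q1 q2 (Sum.inl q2) = Sum.inr true := by
  simp [Chord_phi]

theorem Chord_phi_q1 (φ : D → D) {q1 q2 : D} (h : q1 ≠ q2) :
    Chord_phi φ q1 q2 (Sum.inl q1) = Sum.inr false := by
  simp [Chord_phi, h]

theorem Chord_phi_inl (φ : D → D) {q1 q2 d : D} (h1 : d ≠ q1) (h2 : d ≠ q2) :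
    Chord_phi φ q1 q2 (Sum.inl d) = Sum.inl (φ d) := by
  simp [Chord_phi, h1, h2]

theorem Chord_phi_t (φ : D → D) (q1 q2 : D) :
    Chord_phi φ q1 q2 (Sum.inr true) = Sum.inl (φ q1) := rfl

theorem Chord_phi_f (φ : D → D) (q1 q2 : D) :
    Chord_phi φ q1 q2 (Sum.inr false) = Sum.inl (φ q2) := rfl

theorem Chord_phi_cases (φ : D → D) {q1 q2 : D} (h : q1 ≠ q2) (d : D) :
    (d = q2 ∧ Chord_phi φ q1 q2 (Sum.inl d) = Sum.inr true) ∨
    (d = q1 ∧ Chord_phi φ q1 q2 (Sum.inl d) = Sum.inr false) ∨
    (d ≠ q1 ∧ d ≠ q2 ∧ Chord_phi φ q1 q2 (Sum.inl d) = Sum.inl (φ d)) := by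
  by_cases h2 : d = q2
  · left
    exact ⟨h2, by rw [h2]; exact Chord_phi_q2 φ q1 q2⟩
  · by_cases h1 : d = q1
    · right; left
      exact ⟨h1, by rw [h1]; exact Chord_phi_q1 φ h⟩
    · right; right
      exact ⟨h1, h2, Chord_phi_inl φ h1 h2⟩

theorem Chord_inj {φ : D → D} (hφ : Function.Injective φ) {q1 q2 : D} (h : q1 ≠ q2) :
    Function.Injective (Chord_phi φ q1 q2) := by
  have h12 : φ q1 ≠ φ q2 := fun e => h (hφ e)
  intro x y hxy
  rcases x with x | x
  · rcases y with y | y
    · rcases Chord_phi_cases φ h x with ⟨ex, hx⟩ | ⟨ex, hx⟩ | ⟨x1, x2, hx⟩ <;>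
      rcases Chord_phi_cases φ h y with ⟨ey, hy⟩ | ⟨ey, hy⟩ | ⟨y1, y2, hy⟩ <;>
      rw [hx, hy] at hxy
      · rw [ex, ey]
      · simp at hxy
      · simp at hxy
      · simp at hxy
      · rw [ex, ey]
      · simp at hxy
      · simp at hxy
      · simp at hxy
      · rw [hφ (Sum.inl_injective hxy)]
    · rcases Chord_phi_cases φ h x with ⟨ex, hx⟩ | ⟨ex, hx⟩ | ⟨x1, x2, hx⟩ <;> cases y <;>
      rw [hx] at hxy
      · rw [Chord_phi_f] at hxy; simp at hxy
      · rw [Chord_phi_t] at hxy; simp at hxy
      · rw [Chord_phi_f] at hxy; simp at hxy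
      · rw [Chord_phi_t] at hxy; simp at hxy
      · rw [Chord_phi_f] at hxy
        exact absurd (hφ (Sum.inl_injective hxy)) x2
      · rw [Chord_phi_t] at hxy
        exact absurd (hφ (Sum.inl_injective hxy)) x1
  · rcases y with y | y
    · rcases Chord_phi_cases φ h y with ⟨ey, hy⟩ | ⟨ey, hy⟩ | ⟨y1, y2, hy⟩ <;> cases x <;>
      rw [hy] at hxy
      · rw [Chord_phi_f] at hxy; simp at hxy
      · rw [Chord_phi_t] at hxy; simp at hxy
      · rw [Chord_phi_f] at hxy; simp at hxy
      · rw [Chord_phi_t] at hxy; simp at hxy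
      · rw [Chord_phi_f] at hxy
        exact absurd (hφ (Sum.inl_injective hxy)).symm y2
      · rw [Chord_phi_t] at hxy
        exact absurd (hφ (Sum.inl_injective hxy)).symm y1
    · cases x <;> cases y
      · rfl
      · rw [Chord_phi_f, Chord_phi_t] at hxy
        exact absurd (Sum.inl_injective hxy).symm h12
      · rw [Chord_phi_f, Chord_phi_t] at hxy
        exact absurd (Sum.inl_injective hxy) h12
      · rfl

open Classical in
/-- the new faces -/
def Chord_fc (U : List D) (fc : D → Option I) : D ⊕ Bool → Option (Option I) :=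
  Sum.elim (fun d => if d ∈ U then some none else (fc d).map some)
    (fun b => if b then none else some none)

/-- the new boundary cycles -/
def Chord_cyc (U R : List D) (cyc : Option I → List D) : Option (Option I) → List (D ⊕ Bool)
  | none => Sum.inr true :: R.map Sum.inl
  | some none => U.map Sum.inl ++ [Sum.inr false]
  | some (some i) => (cyc (some i)).map Sum.inl

/-- mapping a list not containing the two special elements -/
theorem Chord_map (φ : D → D) {q1 q2 : D} {l : List D} (h1 : q1 ∉ l) (h2 : q2 ∉ l) :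
    (l.map Sum.inl).map (Chord_phi φ q1 q2) = (l.map φ).map Sum.inl := by
  rw [List.map_map, List.map_map]
  apply List.map_congr_left
  intro d hd
  exact Chord_phi_inl φ (fun e => h1 (e ▸ hd)) (fun e => h2 (e ▸ hd))

end

theorem Rz.chord {p : ℤ × ℤ} {u w : List Letter} {l : Letter} {k : Fin 3} {b : ℤ × ℤ}
    {L : Multiset (Fin 3 × (ℤ × ℤ))} (hu : u ≠ []) (hw : w ≠ []) (hs : walk p u = step p l)
    (hf : IsFaceAt k b (edges p (u ++ [linv l]))) (h : Rz p (u ++ w) L) :
    Rz p (l :: w) ((k, b) ::ₘ L) := by
  classical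
  obtain ⟨S, hb, hL⟩ := h
  -- the two parts of the boundary
  obtain ⟨U, R, hO, hU, hR⟩ : ∃ U R : List S.P.D, S.P.cyc none = U ++ R ∧
      U.map (fun d => (S.pos d, S.P.lab d)) = edges p u ∧
      R.map (fun d => (S.pos d, S.P.lab d)) = edges (walk p u) w := by
    rw [edges_append] at hb
    obtain ⟨U, R, h1, h2, h3⟩ := List.map_eq_append_iff.1 hb
    exact ⟨U, R, h1, h2, h3⟩
  have hUne : U ≠ [] := by
    rintro rfl
    apply hu
    have := congrArg List.length hU
    rw [length_edges] at this
    exact List.eq_nil_of_length_eq_zero this.symm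
  have hRne : R ≠ [] := by
    rintro rfl
    apply hw
    have := congrArg List.length hR
    rw [length_edges] at this
    exact List.eq_nil_of_length_eq_zero this.symm
  obtain ⟨u0, U1, hU1⟩ := List.exists_cons_of_ne_nil hUne
  obtain ⟨r0, R1, hR1⟩ := List.exists_cons_of_ne_nil hRne
  obtain ⟨U2, q1, hU2⟩ : ∃ U2 q1, U = U2 ++ [q1] :=
    ⟨U.dropLast, U.getLast hUne, (List.dropLast_append_getLast hUne).symm⟩
  obtain ⟨R2, q2, hR2⟩ : ∃ R2 q2, R = R2 ++ [q2] :=
    ⟨R.dropLast, R.getLast hRne, (List.dropLast_append_getLast hRne).symm⟩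
  have hnd := S.P.cyc_nodup none
  rw [hO] at hnd
  have hdis := List.disjoint_of_nodup_append hnd
  have hndU : U.Nodup := (List.nodup_append.1 hnd).1
  have hndR : R.Nodup := (List.nodup_append.1 hnd).2.1
  have hq1U : q1 ∈ U := by rw [hU2]; simp
  have hq2R : q2 ∈ R := by rw [hR2]; simp
  have hq : q1 ≠ q2 := fun e => hdis hq1U (e ▸ hq2R)
  have hmc := S.P.map_cyc none
  have hlen : (U.map S.P.φ).length = (U1 ++ [r0]).length := by
    rw [List.length_map, hU1]
    simp
  have hmc2 : U.map S.P.φ ++ R.map S.P.φ = (U1 ++ [r0]) ++ (R1 ++ [u0]) := by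
    rw [← List.map_append, ← hO, hmc, hO, hU1, hR1, List.cons_append, List.rotate_cons_succ,
      List.rotate_zero]
    simp
  obtain ⟨hmU, hmR⟩ := List.append_inj hmc2 hlen
  have hmU' := hmU
  rw [hU2, List.map_append, List.map_singleton] at hmU'
  have hU3 := List.append_inj' hmU' (by simp)
  have hφ1 : S.P.φ q1 = r0 := by simpa using hU3.2
  have hmR' := hmR
  rw [hR2, List.map_append, List.map_singleton] at hmR'
  have hR3 := List.append_inj' hmR' (by simp)
  have hφ2 : S.P.φ q2 = u0 := by simpa using hR3.2
  have hpu : S.pos u0 = p := by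
    have h1 := hU
    rw [hU1] at h1
    cases u with
    | nil => exact absurd rfl hu
    | cons a u =>
      rw [List.map_cons, edges_cons, List.cons.injEq] at h1
      exact congrArg Prod.fst h1.1
  have hpr : S.pos r0 = walk p u := by
    have h1 := hR
    rw [hR1] at h1
    cases w with
    | nil => exact absurd rfl hw
    | cons a w =>
      rw [List.map_cons, edges_cons, List.cons.injEq] at h1
      exact congrArg Prod.fst h1.1
  have hmemO : ∀ d, S.P.fc d = none ↔ d ∈ U ∨ d ∈ R := by
    intro d
    rw [← S.P.mem_cyc, hO, List.mem_append]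
  have hnotin : ∀ (i : S.P.I) d, S.P.fc d = none → d ∉ S.P.cyc (some i) := by
    intro i d hd hd'
    rw [S.P.mem_cyc, hd] at hd'
    cases hd'
  have hinj : Function.Injective (Chord_phi S.P.φ q1 q2) := Chord_inj S.P.φ.injective hq
  have hbij : Function.Bijective (Chord_phi S.P.φ q1 q2) :=
    Finite.injective_iff_bijective.1 hinj
  have hq1U2 : q1 ∉ U2 := by
    rw [hU2] at hndU
    intro hm
    exact (List.disjoint_of_nodup_append hndU) hm (by simp)
  have hq2R2 : q2 ∉ R2 := by
    rw [hR2] at hndR
    intro hm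
    exact (List.disjoint_of_nodup_append hndR) hm (by simp)
  have hq2U2 : q2 ∉ U2 := by
    intro hm
    exact hdis (by rw [hU2]; simp [hm]) hq2R
  have hq1R2 : q1 ∉ R2 := by
    intro hm
    exact hdis hq1U (by rw [hR2]; simp [hm])
  -- positions and labels
  have hpφ : ∀ d, Sum.elim S.pos (fun b => if b then p else step p l)
      (Chord_phi S.P.φ q1 q2 d) =
      step (Sum.elim S.pos (fun b => if b then p else step p l) d)
        (Sum.elim S.P.lab (fun b => if b then l else linv l) d) := by
    rintro (d | d)
    · rcases Chord_phi_cases S.P.φ hq d with ⟨e, h1⟩ | ⟨e, h1⟩ | ⟨e1, e2, h1⟩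
      · rw [h1, e]
        show p = step (S.pos q2) (S.P.lab q2)
        rw [← S.pos_φ, hφ2, hpu]
      · rw [h1, e]
        show step p l = step (S.pos q1) (S.P.lab q1)
        rw [← S.pos_φ, hφ1, hpr, hs]
      · rw [h1]
        exact S.pos_φ d
    · cases d
      · rw [Chord_phi_f]
        show S.pos (S.P.φ q2) = step (step p l) (linv l)
        rw [step_linv, hφ2, hpu]
      · rw [Chord_phi_t]
        show S.pos (S.P.φ q1) = step p l
        rw [hφ1, hpr, hs]
  have hface : ∀ i : Option S.P.I,
      IsFaceAt (Option.elim i (k, b) S.fd).1 (Option.elim i (k, b) S.fd).2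
        ((Chord_cyc U R S.P.cyc (some i)).map fun d =>
          (Sum.elim S.pos (fun b => if b then p else step p l) d,
            Sum.elim S.P.lab (fun b => if b then l else linv l) d)) := by
    rintro (_ | i)
    · have e1 : (Chord_cyc U R S.P.cyc (some none)).map (fun d =>
          (Sum.elim S.pos (fun b => if b then p else step p l) d,
            Sum.elim S.P.lab (fun b => if b then l else linv l) d)) =
          edges p (u ++ [linv l]) := by
        show (U.map Sum.inl ++ [Sum.inr false]).map _ = _
        rw [List.map_append, List.map_map, edges_append, ← hU, hs]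
        rfl
      rw [e1]
      exact hf
    · have e1 : (Chord_cyc U R S.P.cyc (some (some i))).map (fun d =>
          (Sum.elim S.pos (fun b => if b then p else step p l) d,
            Sum.elim S.P.lab (fun b => if b then l else linv l) d)) =
          (S.P.cyc (some i)).map fun d => (S.pos d, S.P.lab d) := by
        show ((S.P.cyc (some i)).map Sum.inl).map _ = _
        rw [List.map_map]
        rfl
      rw [e1]
      exact S.face i
  refine ⟨{
    P := {
      D := S.P.D ⊕ Bool
      I := Option S.P.I
      finD := inferInstance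
      finI := inferInstance
      α := Equiv.sumCongr S.P.α Equiv.boolNot
      φ := Equiv.ofBijective _ hbij
      lab := Sum.elim S.P.lab (fun b => if b then l else linv l)
      fc := Chord_fc U S.P.fc
      cyc := Chord_cyc U R S.P.cyc
      α_α := ?_
      lab_α := ?_
      cyc_ne := ?_
      cyc_nodup := ?_
      mem_cyc := ?_
      map_cyc := ?_
      rel_cyc := ?_
      conn := ?_ }
    pos := Sum.elim S.pos (fun b => if b then p else step p l)
    N := S.N
    nm := Sum.elim S.nm (fun b => if b then S.nm (S.P.φ q2) else S.nm (S.P.φ q1))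
    fd := fun i => Option.elim i (k, b) S.fd
    pos_φ := hpφ
    pos_α := ?_
    nm_surj := ?_
    nm_inv := ?_
    face := hface
    count := ?_ }, ?_, ?_⟩
  · -- α_α
    rintro (d | d)
    · show Sum.inl (S.P.α (S.P.α d)) = _
      rw [S.P.α_α]
    · cases d <;> rfl
  · -- lab_α
    rintro (d | d)
    · exact S.P.lab_α d
    · cases d
      · show l = linv (linv l)
        rw [linv_linv]
      · rfl
  · -- cyc_ne
    rintro (_ | _ | i)
    · exact List.cons_ne_nil _ _
    · show U.map Sum.inl ++ [Sum.inr false] ≠ []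
      simp
    · show (S.P.cyc (some i)).map Sum.inl ≠ []
      intro e
      exact S.P.cyc_ne (some i) (List.map_eq_nil_iff.1 e)
  · -- cyc_nodup
    rintro (_ | _ | i)
    · show (Sum.inr true :: R.map Sum.inl).Nodup
      rw [List.nodup_cons]
      exact ⟨by simp, hndR.map Sum.inl_injective⟩
    · show (U.map Sum.inl ++ [Sum.inr false]).Nodup
      rw [List.nodup_append]
      refine ⟨hndU.map Sum.inl_injective, List.nodup_singleton _, ?_⟩
      intro x hx y hy
      rw [List.mem_singleton] at hy
      obtain ⟨z, -, rfl⟩ := List.mem_map.1 hx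
      rw [hy]
      simp
    · exact (S.P.cyc_nodup (some i)).map Sum.inl_injective
  · -- mem_cyc
    rintro (_ | _ | i) (d | d)
    · show Sum.inl d ∈ (Sum.inr true :: R.map Sum.inl) ↔ (if d ∈ U then some none
        else (S.P.fc d).map some) = none
      have e1 : Sum.inl d ∈ (Sum.inr true :: R.map Sum.inl : List (S.P.D ⊕ Bool)) ↔ d ∈ R := by
        simp
      rw [e1]
      constructor
      · intro hd
        have h2 : d ∉ U := fun h3 => hdis h3 hd
        rw [if_neg h2, (hmemO d).2 (Or.inr hd)]
        rfl
      · intro hd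
        split_ifs at hd with h2
        rw [Option.map_eq_none_iff, hmemO] at hd
        exact hd.resolve_left h2
    · show Sum.inr d ∈ (Sum.inr true :: R.map Sum.inl) ↔ (if d then none else some none) = none
      cases d <;> simp
    · show Sum.inl d ∈ (U.map Sum.inl ++ [Sum.inr false]) ↔ (if d ∈ U then some none
        else (S.P.fc d).map some) = some none
      have e1 : Sum.inl d ∈ (U.map Sum.inl ++ [Sum.inr false] : List (S.P.D ⊕ Bool)) ↔
          d ∈ U := by
        simp
      rw [e1]
      constructor
      · intro hd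
        rw [if_pos hd]
      · intro hd
        by_contra h2
        rw [if_neg h2] at hd
        cases hfc : S.P.fc d with
        | none => rw [hfc] at hd; simp at hd
        | some j => rw [hfc] at hd; simp at hd
    · show Sum.inr d ∈ (U.map Sum.inl ++ [Sum.inr false]) ↔ (if d then none else some none) =
        some none
      cases d <;> simp
    · show Sum.inl d ∈ ((S.P.cyc (some i)).map Sum.inl) ↔ (if d ∈ U then some none
        else (S.P.fc d).map some) = some (some i)
      have e1 : Sum.inl d ∈ ((S.P.cyc (some i)).map Sum.inl : List (S.P.D ⊕ Bool)) ↔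
          S.P.fc d = some i := by
        rw [← S.P.mem_cyc]
        simp
      rw [e1]
      constructor
      · intro hd
        have h2 : d ∉ U := by
          intro h3
          have := (hmemO d).2 (Or.inl h3)
          rw [hd] at this
          cases this
        rw [if_neg h2, hd]
        rfl
      · intro hd
        split_ifs at hd with h2
        · simp at hd
        · rw [Option.map_eq_some_iff] at hd
          obtain ⟨j, hj, hj'⟩ := hd
          rw [hj, hj']
    · show Sum.inr d ∈ ((S.P.cyc (some i)).map Sum.inl) ↔ (if d then none else some none) =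
        some (some i)
      cases d <;> simp
  · -- map_cyc
    rintro (_ | _ | i)
    · show (Sum.inr true :: R.map Sum.inl).map (Chord_phi S.P.φ q1 q2) =
        (Sum.inr true :: R.map Sum.inl).rotate 1
      rw [List.rotate_cons_succ, List.rotate_zero, List.map_cons, Chord_phi_t, hφ1]
      nth_rewrite 1 [hR2]
      rw [List.map_append, List.map_append, Chord_map S.P.φ hq1R2 hq2R2, hR3.1, hR1,
        List.map_singleton, List.map_singleton, Chord_phi_q2]
      rfl
    · show (U.map Sum.inl ++ [Sum.inr false]).map (Chord_phi S.P.φ q1 q2) =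
        (U.map Sum.inl ++ [Sum.inr false]).rotate 1
      rw [List.map_append, List.map_singleton, Chord_phi_f, hφ2]
      nth_rewrite 1 [hU2]
      rw [List.map_append, List.map_append, Chord_map S.P.φ hq1U2 hq2U2, hU3.1, hU1,
        List.map_singleton, List.map_singleton, Chord_phi_q1 _ hq, List.map_cons,
        List.cons_append, List.rotate_cons_succ, List.rotate_zero]
    · show ((S.P.cyc (some i)).map Sum.inl).map (Chord_phi S.P.φ q1 q2) =
        ((S.P.cyc (some i)).map Sum.inl).rotate 1
      rw [Chord_map S.P.φ (hnotin i q1 ((hmemO q1).2 (Or.inl hq1U)))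
        (hnotin i q2 ((hmemO q2).2 (Or.inr hq2R))), S.P.map_cyc, List.map_rotate]
  · -- rel_cyc
    intro i
    exact rel_of_face (hface i)
  · -- conn
    intro T hT hcl
    have hcl1 : ∀ d, d ∈ T → (Equiv.sumCongr S.P.α Equiv.boolNot) d ∈ T := fun d hd => (hcl d hd).1
    have hcl2 : ∀ d, d ∈ T → Chord_phi S.P.φ q1 q2 d ∈ T := fun d hd => (hcl d hd).2
    have htf : Sum.inr true ∈ T → Sum.inr false ∈ T := fun h1 => hcl1 _ h1
    have hft : Sum.inr false ∈ T → Sum.inr true ∈ T := fun h1 => hcl1 _ h1
    have key : {d : S.P.D | Sum.inl d ∈ T} = Set.univ := by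
      apply S.P.conn
      · obtain ⟨x, hx⟩ := hT
        rcases x with d | d
        · exact ⟨d, hx⟩
        · cases d
          · exact ⟨_, hcl2 _ hx⟩
          · exact ⟨_, hcl2 _ hx⟩
      · intro d hd
        refine ⟨hcl1 _ hd, ?_⟩
        have h1 := hcl2 _ hd
        rcases Chord_phi_cases S.P.φ hq d with ⟨e, h2⟩ | ⟨e, h2⟩ | ⟨e1, e2, h2⟩
        · rw [h2] at h1
          have h3 := hcl2 _ (htf h1)
          rw [Chord_phi_f] at h3
          rw [e]
          exact h3
        · rw [h2] at h1
          have h3 := hcl2 _ (hft h1)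
          rw [Chord_phi_t] at h3
          rw [e]
          exact h3
        · rw [h2] at h1
          exact h1
    have hin : ∀ d : S.P.D, Sum.inl d ∈ T := by
      intro d
      have : d ∈ {d : S.P.D | Sum.inl d ∈ T} := by rw [key]; trivial
      exact this
    have ht : Sum.inr true ∈ T := by
      have h1 := hcl2 _ (hin q2)
      rw [Chord_phi_q2] at h1
      exact h1
    rw [Set.eq_univ_iff_forall]
    rintro (d | d)
    · exact hin d
    · cases d
      · exact htf ht
      · exact ht
  · -- pos_α
    rintro (d | d)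
    · exact S.pos_α d
    · cases d
      · show p = step (step p l) (linv l)
        rw [step_linv]
      · rfl
  · -- nm_surj
    intro x
    obtain ⟨d, hd⟩ := S.nm_surj x
    exact ⟨Sum.inl d, hd⟩
  · -- nm_inv
    rintro (d | d)
    · show Sum.elim S.nm (fun b => if b then S.nm (S.P.φ q2) else S.nm (S.P.φ q1))
        (Chord_phi S.P.φ q1 q2 (Sum.inl (S.P.α d))) = S.nm d
      rw [← S.nm_inv d]
      rcases Chord_phi_cases S.P.φ hq (S.P.α d) with ⟨e, h2⟩ | ⟨e, h2⟩ | ⟨e1, e2, h2⟩
      · rw [h2, e]
        rfl
      · rw [h2, e]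
        rfl
      · rw [h2]
        rfl
    · cases d <;> rfl
  · -- count
    show 2 * (Fintype.card S.N + Fintype.card (Option S.P.I) + 1) =
      Fintype.card (S.P.D ⊕ Bool) + 4
    have := S.count
    rw [Fintype.card_option, Fintype.card_sum, Fintype.card_bool]
    omega
  · -- the boundary
    show (Sum.inr true :: R.map Sum.inl).map (fun d =>
      (Sum.elim S.pos (fun b => if b then p else step p l) d,
        Sum.elim S.P.lab (fun b => if b then l else linv l) d)) = edges p (l :: w)
    rw [List.map_cons, List.map_map, edges_cons, ← hs, ← hR]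
    rfl
  · -- the face data
    show (Finset.univ : Finset (Option S.P.I)).val.map (fun i => Option.elim i (k, b) S.fd) = _
    rw [← hL]
    rw [show (Finset.univ : Finset (Option S.P.I)).val =
      none ::ₘ (Finset.univ : Finset S.P.I).val.map some from rfl, Multiset.map_cons,
      Multiset.map_map]
    rfl

end Pool.Agent.H86.SD
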