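import Pool.Agent.H86.SD.En2

/-!
# SD-Gam: the test function

`hh n` is the harmonic number, `tau M c = max 0 (min c (M - c)) / M`,
`hf m a = hh (m - |a|) / hh m` (truncated subtraction), `GG M m (a, c) = tau M c * hf m a`.
* `hh_pos`, `hh_mono`, `hh_le`: clear.
* `tau_lip`: `min` and `max` are 1-Lipschitz.
* `hf_diff`: for `i < m`: `m - i = (m - (i+1)) + 1`, `hh (n+1) - hh n = 1/(n+1)`; `|-1-i| = i+1`,
  `|-1-i+1| = i`.
* `Cf0`, `Cf1`, `Cf2`: the list `edges (a,c) (rel k)` is explicit; the `src` are, for `k = 0`: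
  `(a,c), (a+1,c), (a,c+a+1), (a,c+1), (a,c)`; for `k = 1`: `(a,c), (a+1,c), (a,c+1), (a,c)`;
  for `k = 2`: `(a,c), (a,c+a), (a,c+1), (a,c)`.  `|GG (a,c) - GG (a+1,c)| ≤ |hf a - hf (a+1)|` (`tau ≤ 1`),
  `|GG (a,c) - GG (a,c')| ≤ |c - c'| / M` (`hf ≤ 1`, `tau_lip`).
-/

noncomputable section

namespace Pool.Agent.H86.SD

open Finset

/-- harmonic numbers -/
def hh (n : ℕ) : ℝ := ∑ i ∈ range n, 1 / ((i : ℝ) + 1)

def tau (M : ℝ) (c : ℤ) : ℝ := max 0 (min (c : ℝ) (M - c)) / M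

def hf (m : ℕ) (a : ℤ) : ℝ := hh (m - a.natAbs) / hh m

/-- the test function -/
def GG (M : ℝ) (m : ℕ) (p : ℤ × ℤ) : ℝ := tau M p.2 * hf m p.1

theorem hh_pos {n : ℕ} (hn : 1 ≤ n) : 0 < hh n := by
  unfold hh
  apply Finset.sum_pos
  · intro i _
    positivity
  · exact ⟨0, Finset.mem_range.2 (by omega)⟩

theorem hh_nonneg (n : ℕ) : 0 ≤ hh n := by
  unfold hh
  exact Finset.sum_nonneg fun i _ => by positivity

theorem hh_mono {n n' : ℕ} (h : n ≤ n') : hh n ≤ hh n' := by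
  unfold hh
  apply Finset.sum_le_sum_of_subset_of_nonneg
  · intro i hi
    rw [Finset.mem_range] at hi ⊢
    omega
  · intro i _ _
    positivity

theorem hh_le (n : ℕ) : hh n ≤ n := by
  unfold hh
  calc ∑ i ∈ range n, 1 / ((i : ℝ) + 1) ≤ ∑ _i ∈ range n, (1 : ℝ) := by
        refine Finset.sum_le_sum fun i _ => ?_
        rw [div_le_one (by positivity)]
        have : (0 : ℝ) ≤ i := Nat.cast_nonneg i
        linarith
    _ = n := by simp

theorem tau_nonneg {M : ℝ} (hM : 0 < M) (c : ℤ) : 0 ≤ tau M c := by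
  unfold tau
  exact div_nonneg (le_max_left _ _) hM.le

theorem tau_le_one {M : ℝ} (hM : 0 < M) (c : ℤ) : tau M c ≤ 1 := by
  unfold tau
  rw [div_le_one hM]
  apply max_le hM.le
  rcases le_total (c : ℝ) 0 with h | h
  · exact (min_le_left _ _).trans (h.trans hM.le)
  · exact (min_le_right _ _).trans (by linarith)

theorem tau_lip {M : ℝ} (hM : 0 < M) (c c' : ℤ) : |tau M c - tau M c'| ≤ |((c' - c : ℤ) : ℝ)| / M := by
  unfold tau
  rw [← sub_div, abs_div, abs_of_pos hM]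
  apply div_le_div_of_nonneg_right _ hM.le
  have h1 : |max 0 (min (c : ℝ) (M - c)) - max 0 (min (c' : ℝ) (M - c'))| ≤
      |min (c : ℝ) (M - c) - min (c' : ℝ) (M - c')| := by
    have := abs_max_sub_max_le_max (0 : ℝ) (min (c : ℝ) (M - c)) 0 (min (c' : ℝ) (M - c'))
    simpa using this
  have h2 : |min (c : ℝ) (M - c) - min (c' : ℝ) (M - c')| ≤
      max |(c : ℝ) - c'| |(M - c) - (M - c')| := abs_min_sub_min_le_max _ _ _ _
  have h3 : |(M - (c : ℝ)) - (M - c')| = |((c' - c : ℤ) : ℝ)| := by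
    push_cast
    congr 1
    ring
  have h4 : |(c : ℝ) - c'| = |((c' - c : ℤ) : ℝ)| := by
    push_cast
    rw [abs_sub_comm]
  rw [h3, h4, max_self] at h2
  exact h1.trans h2

theorem hf_nonneg (m : ℕ) (a : ℤ) : 0 ≤ hf m a := by
  unfold hf
  exact div_nonneg (hh_nonneg _) (hh_nonneg _)

theorem hf_le_one (m : ℕ) (a : ℤ) : hf m a ≤ 1 := by
  unfold hf
  exact div_le_one_of_le₀ (hh_mono (Nat.sub_le _ _)) (hh_nonneg _)

theorem hh_sub_gam {m i : ℕ} (hi : i < m) :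
    hh (m - i) / hh m - hh (m - (i + 1)) / hh m = 1 / (((m : ℝ) - i) * hh m) := by
  have h1 : m - i = (m - (i + 1)) + 1 := by omega
  have h2 : ((m - (i + 1) : ℕ) : ℝ) + 1 = (m : ℝ) - i := by
    rw [Nat.cast_sub (by omega)]
    push_cast
    ring
  have h3 : hh (m - i) = hh (m - (i + 1)) + 1 / ((m : ℝ) - i) := by
    rw [h1]
    unfold hh
    rw [Finset.sum_range_succ, h2]
  have h4 : hh m ≠ 0 := (hh_pos (by omega)).ne'
  have h5 : (m : ℝ) - i ≠ 0 := by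
    have : (i : ℝ) < m := by exact_mod_cast hi
    linarith
  rw [h3]
  field_simp
  ring

theorem hf_diff {m i : ℕ} (hi : i < m) :
    hf m i - hf m (i + 1) = 1 / (((m : ℝ) - i) * hh m) := by
  unfold hf
  have h1 : ((i : ℤ)).natAbs = i := Int.natAbs_natCast i
  have h2 : ((i : ℤ) + 1).natAbs = i + 1 := by omega
  rw [h1, h2]
  exact hh_sub_gam hi

theorem hf_diff' {m i : ℕ} (hi : i < m) :
    hf m (-1 - i + 1) - hf m (-1 - i) = 1 / (((m : ℝ) - i) * hh m) := by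
  unfold hf
  have h1 : (-1 - (i : ℤ) + 1).natAbs = i := by omega
  have h2 : (-1 - (i : ℤ)).natAbs = i + 1 := by omega
  rw [h1, h2]
  exact hh_sub_gam hi

theorem GG_diff_a_gam {M : ℝ} (hM : 0 < M) (m : ℕ) (a a' c : ℤ) :
    (GG M m (a, c) - GG M m (a', c)) ^ 2 ≤ (hf m a - hf m a') ^ 2 := by
  unfold GG
  have h1 : tau M c * hf m a - tau M c * hf m a' = tau M c * (hf m a - hf m a') := by ring
  show (tau M c * hf m a - tau M c * hf m a') ^ 2 ≤ _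
  rw [h1, mul_pow]
  have h2 : tau M c ^ 2 ≤ 1 := pow_le_one₀ (tau_nonneg hM c) (tau_le_one hM c)
  nlinarith [sq_nonneg (hf m a - hf m a')]

theorem GG_diff_c_gam {M : ℝ} (hM : 0 < M) (m : ℕ) (a c c' : ℤ) :
    (GG M m (a, c) - GG M m (a, c')) ^ 2 ≤ ((c' - c : ℤ) : ℝ) ^ 2 / M ^ 2 := by
  unfold GG
  have h1 : tau M c * hf m a - tau M c' * hf m a = hf m a * (tau M c - tau M c') := by ring
  show (tau M c * hf m a - tau M c' * hf m a) ^ 2 ≤ _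
  rw [h1, mul_pow]
  have h2 : hf m a ^ 2 ≤ 1 := pow_le_one₀ (hf_nonneg m a) (hf_le_one m a)
  have h3 : (tau M c - tau M c') ^ 2 ≤ ((c' - c : ℤ) : ℝ) ^ 2 / M ^ 2 := by
    rw [← div_pow]
    rw [← sq_abs (tau M c - tau M c'), ← sq_abs (((c' - c : ℤ) : ℝ) / M), abs_div, abs_of_pos hM]
    exact pow_le_pow_left₀ (abs_nonneg _) (tau_lip hM c c') 2
  have h4 : hf m a ^ 2 * (tau M c - tau M c') ^ 2 ≤ 1 * (tau M c - tau M c') ^ 2 :=
    mul_le_mul_of_nonneg_right h2 (sq_nonneg _)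
  linarith

theorem Cf_zero_gam (G : ℤ × ℤ → ℝ) (a c : ℤ) :
    Cf G (0, (a, c)) = (G (a, c) - G (a + 1, c)) ^ 2 + (G (a, c) - G (a, c + (a + 1))) ^ 2 +
      (G (a, c) - G (a, c + 1)) ^ 2 := by
  have h : ∀ c' : ℤ, c' + (a + 1) - a = c' + 1 := fun c' => by ring
  simp [Cf, rel, src, lx, ly, lX, lY, lZ, step, sgn]
  ring_nf

theorem Cf_one_gam (G : ℤ × ℤ → ℝ) (a c : ℤ) :
    Cf G (1, (a, c)) = (G (a, c) - G (a + 1, c)) ^ 2 + (G (a, c) - G (a, c + 1)) ^ 2 := by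
  simp [Cf, rel, src, lx, lz, lX, lZ, step, sgn]

theorem Cf_two_gam (G : ℤ × ℤ → ℝ) (c : ℤ) :
    Cf G (2, (0, c)) = (G (0, c) - G (0, c + 1)) ^ 2 := by
  simp [Cf, rel, src, ly, lz, lY, lZ, step, sgn]

theorem Cf0 {M : ℝ} (hM : 0 < M) (m : ℕ) (a c : ℤ) :
    Cf (GG M m) (0, (a, c)) ≤ (hf m a - hf m (a + 1)) ^ 2 + (((a + 1 : ℤ) : ℝ) ^ 2 + 1) / M ^ 2 := by
  rw [Cf_zero_gam]
  have h1 := GG_diff_a_gam hM m a (a + 1) c
  have h2 := GG_diff_c_gam hM m a c (c + (a + 1))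
  have h3 := GG_diff_c_gam hM m a c (c + 1)
  have e2 : c + (a + 1) - c = a + 1 := by ring
  have e3 : c + 1 - c = 1 := by ring
  rw [e2] at h2
  rw [e3] at h3
  have e4 : (((a + 1 : ℤ) : ℝ) ^ 2 + 1) / M ^ 2 =
      ((a + 1 : ℤ) : ℝ) ^ 2 / M ^ 2 + ((1 : ℤ) : ℝ) ^ 2 / M ^ 2 := by
    rw [add_div]
    norm_num
  rw [e4]
  linarith

theorem Cf1 {M : ℝ} (hM : 0 < M) (m : ℕ) (a c : ℤ) :
    Cf (GG M m) (1, (a, c)) ≤ (hf m a - hf m (a + 1)) ^ 2 + 1 / M ^ 2 := by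
  rw [Cf_one_gam]
  have h1 := GG_diff_a_gam hM m a (a + 1) c
  have h3 := GG_diff_c_gam hM m a c (c + 1)
  have e3 : c + 1 - c = 1 := by ring
  rw [e3] at h3
  norm_num at h3 ⊢
  linarith

theorem Cf2 {M : ℝ} (hM : 0 < M) (m : ℕ) (c : ℤ) :
    Cf (GG M m) (2, (0, c)) ≤ 1 / M ^ 2 := by
  rw [Cf_two_gam]
  have h3 := GG_diff_c_gam hM m 0 c (c + 1)
  have e3 : c + 1 - c = 1 := by ring
  rw [e3] at h3
  norm_num at h3 ⊢
  linarith

end Pool.Agent.H86.SD
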