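import Pool.Agent.H86.SD.AsmA
import Pool.Agent.H86.SD.Gam

/-!
# SD-Cnt: sums over the multisets of face data

`msum f S = (S.map f).sum`; it is additive, `msum f (sg k a c) = f (k, (a, c))`, and monotone in `f` and
(for `f ≥ 0`) in `S`.
* `card_T1` etc.: `card (∑ ..) = ∑ card ..` (`map_sum` for `Multiset.card` as an additive map, or
  `card = msum 1`): `∑_{i<m} (m - i) = m(m+1)/2`, `∑_{i<m} i = m(m-1)/2`, `∑_{i<m} (i+1) = m(m+1)/2`.
  The statements are multiplied by 2; `Finset.sum_range_id_mul_two`, induction.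
-/

noncomputable section

namespace Pool.Agent.H86.SD

open Finset

/-- the sum of a function over a multiset -/
def msum (f : Fin 3 × (ℤ × ℤ) → ℝ) (S : Multiset (Fin 3 × (ℤ × ℤ))) : ℝ := (S.map f).sum

theorem msum_add (f : Fin 3 × (ℤ × ℤ) → ℝ) (S T : Multiset (Fin 3 × (ℤ × ℤ))) :
    msum f (S + T) = msum f S + msum f T := by
  simp [msum]

theorem msum_zero (f : Fin 3 × (ℤ × ℤ) → ℝ) : msum f 0 = 0 := by
  simp [msum]

theorem msum_sg (f : Fin 3 × (ℤ × ℤ) → ℝ) (k : Fin 3) (a c : ℤ) :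
    msum f (sg k a c) = f (k, (a, c)) := by
  simp [msum, sg]

theorem msum_sum {ι : Type*} (f : Fin 3 × (ℤ × ℤ) → ℝ) (s : Finset ι)
    (S : ι → Multiset (Fin 3 × (ℤ × ℤ))) : msum f (∑ i ∈ s, S i) = ∑ i ∈ s, msum f (S i) := by
  classical
  induction s using Finset.induction_on with
  | empty => simp [msum]
  | insert i s hi ih => rw [Finset.sum_insert hi, Finset.sum_insert hi, msum_add, ih]

theorem msum_nsmul (f : Fin 3 × (ℤ × ℤ) → ℝ) (n : ℕ) (S : Multiset (Fin 3 × (ℤ × ℤ))) :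
    msum f (n • S) = n * msum f S := by
  simp [msum, Multiset.map_nsmul, Multiset.sum_nsmul]

theorem msum_nonneg {f : Fin 3 × (ℤ × ℤ) → ℝ} (hf : ∀ x, 0 ≤ f x)
    (S : Multiset (Fin 3 × (ℤ × ℤ))) : 0 ≤ msum f S := by
  unfold msum
  apply Multiset.sum_nonneg
  intro y hy
  rw [Multiset.mem_map] at hy
  obtain ⟨x, -, rfl⟩ := hy
  exact hf x

theorem msum_one (S : Multiset (Fin 3 × (ℤ × ℤ))) : msum (fun _ => 1) S = Multiset.card S := by
  simp [msum]

theorem Cnt_sg (k : Fin 3) (a c : ℤ) : Multiset.card (sg k a c) = 1 := by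
  simp [sg]

theorem Cnt_sum1 (m : ℕ) : 2 * ∑ i ∈ range m, (m - i) = m * (m + 1) := by
  induction m with
  | zero => simp
  | succ m ih =>
    rw [Finset.sum_range_succ']
    have : ∑ k ∈ range m, (m + 1 - (k + 1)) = ∑ k ∈ range m, (m - k) :=
      Finset.sum_congr rfl fun k _ => by omega
    rw [this, Nat.mul_add, ih]
    have h0 : m + 1 - 0 = m + 1 := rfl
    rw [h0]
    ring

theorem Cnt_sum2 (m : ℕ) : 2 * ∑ i ∈ range m, i + m = m * m := by
  induction m with
  | zero => simp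
  | succ m ih =>
    rw [Finset.sum_range_succ]
    nlinarith

theorem Cnt_sum3 (m : ℕ) : 2 * ∑ i ∈ range m, (i + 1) = m * (m + 1) := by
  induction m with
  | zero => simp
  | succ m ih =>
    rw [Finset.sum_range_succ, Nat.mul_add, ih]
    ring

theorem card_T1 (a c : ℤ) (m : ℕ) : 2 * Multiset.card (T1 a c m) = m * (m + 1) := by
  unfold T1
  simp only [Multiset.card_sum, Cnt_sg, Finset.sum_const, card_range, smul_eq_mul, mul_one]
  exact Cnt_sum1 m

theorem card_T2 (a c : ℤ) (m : ℕ) : 2 * Multiset.card (T2 a c m) + m = m * m := by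
  unfold T2
  simp only [Multiset.card_sum, Cnt_sg, Finset.sum_const, card_range, smul_eq_mul, mul_one]
  exact Cnt_sum2 m

theorem card_T3 (a c : ℤ) (m : ℕ) : 2 * Multiset.card (T3 a c m) = m * (m + 1) := by
  unfold T3
  simp only [Multiset.card_sum, Cnt_sg, Finset.sum_const, card_range, smul_eq_mul, mul_one]
  exact Cnt_sum1 m

theorem card_T4 (a c : ℤ) (m : ℕ) : 2 * Multiset.card (T4 a c m) = m * (m + 1) := by
  unfold T4
  simp only [Multiset.card_sum, Cnt_sg, Finset.sum_const, card_range, smul_eq_mul, mul_one]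
  exact Cnt_sum3 m

theorem card_L1 (m j : ℕ) (c : ℤ) :
    Multiset.card (L1 m j c) = 2 * j * m + m * m + m := by
  have h1 := card_T1 0 (c + m) m
  have h2 := card_T2 m c m
  unfold L1
  simp only [Multiset.card_add, Multiset.card_sum, Multiset.card_nsmul, Cnt_sg, Finset.sum_const,
    card_range, smul_eq_mul, mul_one]
  nlinarith

theorem card_L0 {m : ℕ} (hm : 1 ≤ m) (j : ℕ) (c : ℤ) :
    Multiset.card (L0 m j c) = 2 * j * m + m * m + m := by
  obtain ⟨n, rfl⟩ : ∃ n, m = n + 1 := ⟨m - 1, by omega⟩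
  have h1 := card_T3 0 (c - (n + 1 : ℕ)) n
  have h2 := card_T4 (-((n + 1 : ℕ) : ℤ)) c (n + 1)
  unfold L0
  simp only [Multiset.card_add, Multiset.card_sum, Multiset.card_nsmul, Cnt_sg, Finset.sum_const,
    card_range, smul_eq_mul, mul_one, Nat.add_sub_cancel]
  nlinarith

theorem card_LC (m : ℕ) (c c' : ℤ) : Multiset.card (LC m c c') = 2 * m := by
  unfold LC
  simp only [Multiset.card_add, Multiset.card_sum, Cnt_sg, Finset.sum_const, card_range,
    smul_eq_mul, mul_one]
  omega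

theorem card_LI (m k : ℕ) : Multiset.card (LI m k) = m * m + 4 * m := by
  have h1 := card_T1 0 (k * m + m) m
  have h2 := card_T2 m (k * m) m
  unfold LI
  simp only [Multiset.card_add, Multiset.card_sum, Cnt_sg, Finset.sum_const, card_range,
    smul_eq_mul, mul_one, card_LC]
  nlinarith

end Pool.Agent.H86.SD
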