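import Pool.Agent.H86.SD.Bas

/-!
# SD-Cyc: cyclic lists, powers of words, the word `W`
-/

noncomputable section

namespace Pool.Agent.H86.SD

theorem chain_edges {A : Type*} [CommRing A] {D : Type*} {φ : D → D} {lab : D → Letter}
    {P : D → A × A} (hP : ∀ d, P (φ d) = step (P d) (lab d)) (l : List D) :
    ∀ (d0 e : D), (d0 :: l).map φ = l ++ [e] →
      (d0 :: l).map (fun d => (P d, lab d)) = edges (P d0) ((d0 :: l).map lab) ∧
        walk (P d0) ((d0 :: l).map lab) = P e := by
  induction l with
  | nil =>
    intro d0 e h
    have h1 : φ d0 = e := by simpa using h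
    refine ⟨by simp, ?_⟩
    simp only [List.map_cons, List.map_nil, walk_cons, walk_nil]
    rw [← hP, h1]
  | cons d1 l ih =>
    intro d0 e h
    have h1 : φ d0 = d1 ∧ (d1 :: l).map φ = l ++ [e] := by
      rw [List.map_cons, List.cons_append, List.cons.injEq] at h
      exact h
    obtain ⟨h2, h3⟩ := ih d1 e h1.2
    constructor
    · rw [List.map_cons, h2, List.map_cons (l := d1 :: l) (a := d0), edges_cons, ← hP, h1.1]
    · rw [List.map_cons (l := d1 :: l) (a := d0), walk_cons, ← hP, h1.1, h3]

/-- a cyclic list reads a closed path -/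
theorem cyc_edges {A : Type*} [CommRing A] {D : Type*} {φ : D → D} {lab : D → Letter}
    {P : D → A × A} (hP : ∀ d, P (φ d) = step (P d) (lab d)) {d0 : D} {l : List D}
    (h : (d0 :: l).map φ = (d0 :: l).rotate 1) :
    (d0 :: l).map (fun d => (P d, lab d)) = edges (P d0) ((d0 :: l).map lab) ∧
      walk (P d0) ((d0 :: l).map lab) = P d0 := by
  apply chain_edges hP
  rw [h, List.rotate_cons_succ, List.rotate_zero]

theorem edges_isRotated {A : Type*} [CommRing A] (p : A × A) (u v : List Letter)
    (h : walk p (u ++ v) = p) :
    List.IsRotated (edges p (u ++ v)) (edges (walk p u) (v ++ u)) := by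
  rw [edges_append, edges_append, ← walk_append, h]
  exact List.isRotated_append

/-- the power of a word -/
def pw (u : List Letter) (n : ℕ) : List Letter := (List.replicate n u).flatten

@[simp] theorem pw_zero (u : List Letter) : pw u 0 = [] := by simp [pw]

theorem pw_succ (u : List Letter) (n : ℕ) : pw u (n + 1) = u ++ pw u n := by
  simp [pw, List.replicate_succ]

theorem pw_succ' (u : List Letter) (n : ℕ) : pw u (n + 1) = pw u n ++ u := by
  simp [pw, List.replicate_succ']

theorem pw_add (u : List Letter) (i j : ℕ) : pw u (i + j) = pw u i ++ pw u j := by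
  induction i with
  | zero => simp
  | succ i ih => rw [Nat.succ_add, pw_succ, pw_succ, ih, List.append_assoc]

theorem pw_one (u : List Letter) : pw u 1 = u := by simp [pw]

theorem length_pw (u : List Letter) (n : ℕ) : (pw u n).length = n * u.length := by
  simp [pw]

section
variable {A : Type*} [CommRing A]

theorem walk_x (a c : A) (n : ℕ) : walk (a, c) (pw [lx] n) = (a + n, c) := by
  induction n generalizing a with
  | zero => simp
  | succ n ih =>
    rw [pw_succ, List.singleton_append, walk_cons, step_x, ih]
    simp [add_comm, add_left_comm]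

theorem walk_X (a c : A) (n : ℕ) : walk (a, c) (pw [lX] n) = (a - n, c) := by
  induction n generalizing a with
  | zero => simp
  | succ n ih =>
    rw [pw_succ, List.singleton_append, walk_cons, step_X, ih]
    ext
    · push_cast; ring
    · rfl

theorem walk_y (a c : A) (n : ℕ) : walk (a, c) (pw [ly] n) = (a, c + n * a) := by
  induction n generalizing c with
  | zero => simp
  | succ n ih =>
    rw [pw_succ, List.singleton_append, walk_cons, step_y, ih]
    ext
    · rfl
    · push_cast; ring

theorem walk_Y (a c : A) (n : ℕ) : walk (a, c) (pw [lY] n) = (a, c - n * a) := by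
  induction n generalizing c with
  | zero => simp
  | succ n ih =>
    rw [pw_succ, List.singleton_append, walk_cons, step_Y, ih]
    ext
    · rfl
    · push_cast; ring

theorem walk_z (a c : A) (n : ℕ) : walk (a, c) (pw [lz] n) = (a, c + n) := by
  induction n generalizing c with
  | zero => simp
  | succ n ih =>
    rw [pw_succ, List.singleton_append, walk_cons, step_z, ih]
    ext
    · rfl
    · push_cast; ring

theorem walk_Z (a c : A) (n : ℕ) : walk (a, c) (pw [lZ] n) = (a, c - n) := by
  induction n generalizing c with
  | zero => simp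
  | succ n ih =>
    rw [pw_succ, List.singleton_append, walk_cons, step_Z, ih]
    ext
    · rfl
    · push_cast; ring

theorem walk_Xz (a c : A) (n : ℕ) : walk (a, c) (pw [lX, lz] n) = (a - n, c + n) := by
  induction n generalizing a c with
  | zero => simp
  | succ n ih =>
    rw [pw_succ, walk_append, walk_cons, walk_cons, walk_nil, step_X, step_z, ih]
    ext <;> (push_cast; ring)

theorem walk_Zx (a c : A) (n : ℕ) : walk (a, c) (pw [lZ, lx] n) = (a + n, c - n) := by
  induction n generalizing a c with
  | zero => simp
  | succ n ih =>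
    rw [pw_succ, walk_append, walk_cons, walk_cons, walk_nil, step_Z, step_x, ih]
    ext <;> (push_cast; ring)

end

/-- the boundary word -/
def WW (m k : ℕ) : List Letter :=
  pw [ly] (k + 1) ++ pw [lX] m ++ pw [lY] (2 * k + 1) ++ pw [lX] m ++ pw [ly] (2 * k + 1) ++
    pw [lx] m ++ pw [lY] (2 * k + 1) ++ pw [lx] m ++ pw [ly] k

/-- its area -/
def NN (m k : ℕ) : ℕ := (2 * k + 1) * (m ^ 2 + 2 * m) + 2 * m * k * (k + 1)

theorem length_WW (m k : ℕ) : (WW m k).length = 4 * (2 * k + 1) + 4 * m := by
  simp [WW, length_pw]
  ring

end Pool.Agent.H86.SD
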