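import Mathlib

/-!
# MP_442c46_al, question Q1: definitions

Letters are pairs (generator, sign); the generators `x, y, z` are `0, 1, 2 : Fin 3`, the sign is
`true` for the generator and `false` for its inverse.

A van Kampen diagram is given by its oriented edges (`D`), the reversal `α` of oriented edges, the
permutation `φ` which maps an oriented edge to the next one on the boundary of the face on its left,
the face `fc d` on the left of `d` (`none` is the outer face), and the boundary cycles `cyc i` of all
faces.  The boundary cycle of the outer face starts at the base point; the word read on it is the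
boundary word.  An oriented edge `d` starts at the vertex `vtx d`, an orbit of `φ * α`.  The closed
surface obtained by gluing the polygons `cyc i` along `α` is connected and is a sphere: `V - E + F = 2`.
-/

open scoped ENNReal

noncomputable section

namespace Pool.Agent.H86.SD

/-- letters -/
abbrev Letter := Fin 3 × Bool

/-- the inverse letter -/
def linv (l : Letter) : Letter := (l.1, !l.2)

/-- the letters `x, x⁻¹, y, y⁻¹, z, z⁻¹` -/
def lx : Letter := (0, true)
def lX : Letter := (0, false)
def ly : Letter := (1, true)
def lY : Letter := (1, false)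
def lz : Letter := (2, true)
def lZ : Letter := (2, false)

/-- the inverse word -/
def winv (w : List Letter) : List Letter := (w.map linv).reverse

/-- the relators `[x,y]z⁻¹`, `[x,z]`, `[y,z]` -/
def rel (k : Fin 3) : List Letter :=
  if k = 0 then [lx, ly, lX, lY, lZ] else if k = 1 then [lx, lz, lX, lZ] else [ly, lz, lY, lZ]

/-- polygons whose sides are labelled by letters and glued in pairs to a connected closed surface;
the polygons `cyc (some i)` read relators or inverses of relators -/
structure Pre where
  /-- oriented edges -/
  D : Type
  /-- inner faces -/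
  I : Type
  [finD : Fintype D]
  [finI : Fintype I]
  /-- the reversed edge -/
  α : Equiv.Perm D
  /-- the next edge on the boundary of the face on the left -/
  φ : Equiv.Perm D
  /-- the label -/
  lab : D → Letter
  /-- the face on the left, `none` is the outer face -/
  fc : D → Option I
  /-- the boundary cycle of a face -/
  cyc : Option I → List D
  α_α : ∀ d, α (α d) = d
  lab_α : ∀ d, lab (α d) = linv (lab d)
  cyc_ne : ∀ i, cyc i ≠ []
  cyc_nodup : ∀ i, (cyc i).Nodup
  mem_cyc : ∀ i d, d ∈ cyc i ↔ fc d = i
  map_cyc : ∀ i, (cyc i).map φ = (cyc i).rotate 1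
  rel_cyc : ∀ i : I, ∃ k, List.IsRotated ((cyc (some i)).map lab) (rel k) ∨
    List.IsRotated ((cyc (some i)).map lab) (winv (rel k))
  conn : ∀ S : Set D, S.Nonempty → (∀ d ∈ S, α d ∈ S ∧ φ d ∈ S) → S = Set.univ

attribute [instance] Pre.finD Pre.finI

/-- vertices: orbits of `φ * α` -/
def Pre.Vert (P : Pre) : Type := Quotient (Equiv.Perm.SameCycle.setoid (P.φ * P.α))

/-- the vertex at which an oriented edge starts -/
def Pre.vtx (P : Pre) (d : P.D) : P.Vert := Quotient.mk _ d

/-- the boundary word -/
def Pre.word (P : Pre) : List Letter := (P.cyc none).map P.lab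

/-- van Kampen diagrams: `V - E + F = 2` -/
structure Diagram extends Pre where
  euler : 2 * (Nat.card toPre.Vert + Fintype.card I + 1) = Fintype.card D + 4

/-- the length of the boundary of an inner face -/
def Pre.flen (P : Pre) (f : P.I) : ℕ := (P.cyc (some f)).length

/-- the number of edge occurrences on the boundary of `f` which lie on the boundary of the diagram -/
def Pre.bnd (P : Pre) (f : P.I) : ℕ := Nat.card {d : P.D // P.fc d = some f ∧ P.fc (P.α d) = none}

/-- the number of edges shared by `f` and `f'`, with multiplicity -/
def Pre.shr (P : Pre) (f f' : P.I) : ℕ :=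
  Nat.card {d : P.D // P.fc d = some f ∧ P.fc (P.α d) = some f'}

open Classical in
/-- the energy; the sum over unordered pairs of distinct faces is half of the sum over ordered
pairs of distinct faces -/
def Pre.energy (P : Pre) (g : P.I → ℝ) : ℝ :=
  (∑ f, ∑ f', if f = f' then 0 else (P.shr f f' : ℝ) * (g f - g f') ^ 2) / 2 +
    ∑ f, (P.bnd f : ℝ) * g f ^ 2

/-- the first eigenvalue `μ₁` -/
def Pre.mu (P : Pre) : ℝ≥0∞ :=
  ⨅ (g : P.I → ℝ) (_ : g ≠ 0), ENNReal.ofReal (P.energy g / ∑ f, (P.flen f : ℝ) * g f ^ 2)

/-- cyclically reduced words -/
def CycReduced (w : List Letter) : Prop := ∀ p ∈ w.zip (w.rotate 1), p.2 ≠ linv p.1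

/-- minimal diagrams -/
def Diagram.Minimal (Δ : Diagram) : Prop :=
  CycReduced Δ.word ∧ ∀ Δ' : Diagram, Δ'.word = Δ.word → Fintype.card Δ.I ≤ Fintype.card Δ'.I

/-- the face-dual spectral Dehn function -/
def LamStar (n : ℕ) : ℝ≥0∞ := ⨅ (Δ : Diagram) (_ : Δ.Minimal ∧ Δ.word.length ≤ n), Δ.mu

/-! ### positions

`step p l` is the position `(a, c)` after reading the letter `l` at the position `p`; here `(a, b, c)`
is the element `x^a y^b z^(c - a b)`-like normal form of the Heisenberg group in which right
multiplication by `x, y, z` is `(a+1, b, c)`, `(a, b+1, c+a)`, `(a, b, c+1)`; the coordinate `b` is not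
needed. -/

section
variable {A : Type*} [CommRing A]

def sgn (b : Bool) : A := if b then 1 else -1

def step (p : A × A) (l : Letter) : A × A :=
  (p.1 + if l.1 = 0 then sgn l.2 else 0,
    p.2 + (if l.1 = 1 then sgn l.2 * p.1 else 0) + if l.1 = 2 then sgn l.2 else 0)

def walk (p : A × A) (w : List Letter) : A × A := w.foldl step p

/-- the edges of the path which starts at `p` and reads `w` -/
def edges (p : A × A) : List Letter → List ((A × A) × Letter)
  | [] => []
  | l :: w => (p, l) :: edges (step p l) w

@[simp] theorem step_x (a c : A) : step (a, c) lx = (a + 1, c) := by simp [step, lx, sgn]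
@[simp] theorem step_X (a c : A) : step (a, c) lX = (a - 1, c) := by
  simp [step, lX, sgn, sub_eq_add_neg]
@[simp] theorem step_y (a c : A) : step (a, c) ly = (a, c + a) := by simp [step, ly, sgn]
@[simp] theorem step_Y (a c : A) : step (a, c) lY = (a, c - a) := by
  simp [step, lY, sgn, sub_eq_add_neg]
@[simp] theorem step_z (a c : A) : step (a, c) lz = (a, c + 1) := by simp [step, lz, sgn]
@[simp] theorem step_Z (a c : A) : step (a, c) lZ = (a, c - 1) := by
  simp [step, lZ, sgn, sub_eq_add_neg]

@[simp] theorem walk_nil (p : A × A) : walk p [] = p := rfl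
@[simp] theorem walk_cons (p : A × A) (l : Letter) (w : List Letter) :
    walk p (l :: w) = walk (step p l) w := rfl
theorem walk_append (p : A × A) (u w : List Letter) : walk p (u ++ w) = walk (walk p u) w := by
  simp [walk, List.foldl_append]

@[simp] theorem edges_nil (p : A × A) : edges p [] = [] := rfl
@[simp] theorem edges_cons (p : A × A) (l : Letter) (w : List Letter) :
    edges p (l :: w) = (p, l) :: edges (step p l) w := rfl
theorem edges_append (p : A × A) (u w : List Letter) :
    edges p (u ++ w) = edges p u ++ edges (walk p u) w := by
  induction u generalizing p with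
  | nil => rfl
  | cons l u ih => simp [ih]

theorem length_edges (p : A × A) (w : List Letter) : (edges p w).length = w.length := by
  induction w generalizing p with
  | nil => rfl
  | cons l w ih => simp [ih]

theorem map_snd_edges (p : A × A) (w : List Letter) : (edges p w).map Prod.snd = w := by
  induction w generalizing p with
  | nil => rfl
  | cons l w ih => simp [ih]

theorem linv_linv (l : Letter) : linv (linv l) = l := by
  simp [linv]

theorem linv_ne (l : Letter) : linv l ≠ l := by
  intro h
  have h2 : (!l.2) = l.2 := congrArg Prod.snd h
  cases h3 : l.2 <;> rw [h3] at h2 <;> simp at h2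

theorem step_linv (p : A × A) (l : Letter) : step (step p l) (linv l) = p := by
  obtain ⟨a, c⟩ := p
  obtain ⟨i, b⟩ := l
  fin_cases i <;> cases b <;> simp [step, linv, sgn]

theorem winv_append (u w : List Letter) : winv (u ++ w) = winv w ++ winv u := by
  simp [winv]

@[simp] theorem winv_nil : winv [] = [] := rfl

theorem winv_cons (l : Letter) (w : List Letter) : winv (l :: w) = winv w ++ [linv l] := by
  simp [winv]

theorem walk_winv (p : A × A) (w : List Letter) : walk (walk p w) (winv w) = p := by
  induction w generalizing p with
  | nil => rfl
  | cons l w ih => rw [winv_cons, walk_cons, walk_append, ih, walk_cons, walk_nil, step_linv]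

end

/-- the list of edges of the face of kind `k` with base `b` (or of its inverse), up to rotation -/
def IsFaceAt (k : Fin 3) (b : ℤ × ℤ) (es : List ((ℤ × ℤ) × Letter)) : Prop :=
  List.IsRotated es (edges b (rel k)) ∨ List.IsRotated es (edges b (winv (rel k)))

end Pool.Agent.H86.SD
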