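import Pool.Agent.H86.SD.Bas

/-!
# SD-En1: the energy is bounded by a sum over the sides of the faces

Let `h : Option I → ℝ`, `h none = 0`, `h (some i) = g i`.
* `energy_eq`: `energy g = (∑ d, (h (fc d) - h (fc (α d)))^2) / 2`.  Write `Nat.card {d // ..}` as a sum over
  `d` of indicators (`Nat.card_eq_fintype_card`, `Fintype.card_subtype`, `Finset.card_filter`, ..), the
  diagonal terms are 0 anyway.  So
  `energy g = (∑_{d : fc d = some f, fc (α d) = some f'} (g f - g f')^2) / 2
    + ∑_{d : fc d = some f, fc (α d) = none} (g f)^2`,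
  and by the substitution `d ↦ α d` (`Equiv.sum_comp P.α`, `α_α`) the last sum is also the sum over the `d`
  with `fc d = none`, `fc (α d) = some f`.
* `energy_le`: `(x - y)^2 ≤ 2 (x - v)^2 + 2 (y - v)^2` with `x = h (fc d)`, `y = h (fc (α d))`,
  `v = v d = v (α d)`; sum over `d` and substitute `α` in the second part:
  `energy g ≤ 2 ∑ d, (h (fc d) - v d)^2`; then `sum_all'`: on `cyc none` the terms are
  `(0 - v d)^2 = 0`, on `cyc (some i)` they are `(g i - v d)^2` (`mem_cyc`).
-/

noncomputable section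

namespace Pool.Agent.H86.SD

/-- extension by zero to the outer face -/
def ex0 {I : Type} (g : I → ℝ) : Option I → ℝ
  | none => 0
  | some i => g i

theorem en1_card {D : Type} [Fintype D] (p : D → Prop) [DecidablePred p] :
    (Nat.card {d // p d} : ℝ) = ∑ d, if p d then (1 : ℝ) else 0 := by
  rw [Nat.card_eq_fintype_card, Fintype.card_subtype, Finset.card_filter]
  push_cast
  rfl

/-- the terms of the inner edges -/
def en1T {I : Type} (g : I → ℝ) : Option I → Option I → ℝ
  | some f, some f' => (g f - g f') ^ 2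
  | _, _ => 0

/-- the terms of the boundary edges -/
def en1B {I : Type} (g : I → ℝ) : Option I → Option I → ℝ
  | some f, none => g f ^ 2
  | _, _ => 0

theorem en1_sq {I : Type} (g : I → ℝ) (x y : Option I) :
    (ex0 g x - ex0 g y) ^ 2 = en1T g x y + en1B g x y + en1B g y x := by
  cases x <;> cases y <;> simp [ex0, en1T, en1B]

open Classical in
theorem en1_T {I : Type} [Fintype I] (g : I → ℝ) (x y : Option I) :
    ∑ f, ∑ f', (if x = some f ∧ y = some f' then (1 : ℝ) else 0) * (g f - g f') ^ 2 =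
      en1T g x y := by
  cases x with
  | none => simp [en1T]
  | some a =>
    cases y with
    | none => simp [en1T]
    | some b =>
      rw [Finset.sum_eq_single a, Finset.sum_eq_single b]
      · rw [if_pos ⟨rfl, rfl⟩, one_mul]
        rfl
      · intro f' _ hf'
        rw [if_neg (fun h => hf' (Option.some_injective _ h.2).symm), zero_mul]
      · intro h
        exact absurd (Finset.mem_univ _) h
      · intro f _ hf
        refine Finset.sum_eq_zero fun f' _ => ?_
        rw [if_neg (fun h => hf (Option.some_injective _ h.1).symm), zero_mul]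
      · intro h
        exact absurd (Finset.mem_univ _) h

open Classical in
theorem en1_B {I : Type} [Fintype I] (g : I → ℝ) (x y : Option I) :
    ∑ f, (if x = some f ∧ y = none then (1 : ℝ) else 0) * g f ^ 2 = en1B g x y := by
  cases x with
  | none => simp [en1B]
  | some a =>
    cases y with
    | some b => simp [en1B]
    | none =>
      rw [Finset.sum_eq_single a]
      · rw [if_pos ⟨rfl, rfl⟩, one_mul]
        rfl
      · intro f _ hf
        rw [if_neg (fun h => hf (Option.some_injective _ h.1).symm), zero_mul]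
      · intro h
        exact absurd (Finset.mem_univ _) h

theorem Pre.energy_eq (P : Pre) (g : P.I → ℝ) :
    P.energy g = (∑ d, (ex0 g (P.fc d) - ex0 g (P.fc (P.α d))) ^ 2) / 2 := by
  classical
  have h1 : (∑ f, ∑ f', if f = f' then (0 : ℝ) else (P.shr f f' : ℝ) * (g f - g f') ^ 2) =
      ∑ d, en1T g (P.fc d) (P.fc (P.α d)) := by
    have e1 : ∀ f f' : P.I, (if f = f' then (0 : ℝ) else (P.shr f f' : ℝ) * (g f - g f') ^ 2) =
        ∑ d, (if P.fc d = some f ∧ P.fc (P.α d) = some f' then (1 : ℝ) else 0) *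
          (g f - g f') ^ 2 := by
      intro f f'
      rw [← Finset.sum_mul, ← en1_card]
      by_cases h : f = f'
      · rw [if_pos h, h, sub_self]
        ring
      · rw [if_neg h]
        rfl
    rw [Finset.sum_congr rfl fun f _ => Finset.sum_congr rfl fun f' _ => e1 f f']
    rw [Finset.sum_congr rfl fun f _ => Finset.sum_comm, Finset.sum_comm]
    exact Finset.sum_congr rfl fun d _ => en1_T g (P.fc d) (P.fc (P.α d))
  have h2 : (∑ f, (P.bnd f : ℝ) * g f ^ 2) = ∑ d, en1B g (P.fc d) (P.fc (P.α d)) := by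
    have e1 : ∀ f : P.I, (P.bnd f : ℝ) * g f ^ 2 =
        ∑ d, (if P.fc d = some f ∧ P.fc (P.α d) = none then (1 : ℝ) else 0) * g f ^ 2 := by
      intro f
      rw [← Finset.sum_mul, ← en1_card]
      rfl
    rw [Finset.sum_congr rfl fun f _ => e1 f, Finset.sum_comm]
    exact Finset.sum_congr rfl fun d _ => en1_B g (P.fc d) (P.fc (P.α d))
  have h3 : ∑ d, en1B g (P.fc (P.α d)) (P.fc d) = ∑ d, en1B g (P.fc d) (P.fc (P.α d)) := by
    rw [← Equiv.sum_comp P.α fun d => en1B g (P.fc d) (P.fc (P.α d))]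
    refine Finset.sum_congr rfl fun d _ => ?_
    rw [P.α_α]
  have h4 : ∑ d, (ex0 g (P.fc d) - ex0 g (P.fc (P.α d))) ^ 2 =
      ∑ d, en1T g (P.fc d) (P.fc (P.α d)) + ∑ d, en1B g (P.fc d) (P.fc (P.α d)) +
        ∑ d, en1B g (P.fc (P.α d)) (P.fc d) := by
    rw [← Finset.sum_add_distrib, ← Finset.sum_add_distrib]
    exact Finset.sum_congr rfl fun d _ => en1_sq g _ _
  have h5 : P.energy g = (∑ f, ∑ f', if f = f' then (0 : ℝ) else
      (P.shr f f' : ℝ) * (g f - g f') ^ 2) / 2 + ∑ f, (P.bnd f : ℝ) * g f ^ 2 := by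
    unfold Pre.energy
    refine congrArg₂ (· + ·) (congrArg (· / 2) ?_) rfl
    exact Finset.sum_congr rfl fun f _ => Finset.sum_congr rfl fun f' _ =>
      ite_congr rfl (fun _ => rfl) fun _ => rfl
  rw [h5, h1, h2, h4, h3]
  ring

theorem Pre.energy_le (P : Pre) (g : P.I → ℝ) (v : P.D → ℝ) (hv : ∀ d, v (P.α d) = v d)
    (h0 : ∀ d ∈ P.cyc none, v d = 0) :
    P.energy g ≤ 2 * ∑ i : P.I, ((P.cyc (some i)).map fun d => (g i - v d) ^ 2).sum := by
  have h1 : ∑ d, (ex0 g (P.fc d) - ex0 g (P.fc (P.α d))) ^ 2 ≤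
      ∑ d, (2 * (ex0 g (P.fc d) - v d) ^ 2 + 2 * (ex0 g (P.fc (P.α d)) - v (P.α d)) ^ 2) := by
    refine Finset.sum_le_sum fun d _ => ?_
    rw [hv d]
    nlinarith [sq_nonneg (ex0 g (P.fc d) + ex0 g (P.fc (P.α d)) - 2 * v d)]
  have h2 : ∑ d, (2 * (ex0 g (P.fc d) - v d) ^ 2 +
      2 * (ex0 g (P.fc (P.α d)) - v (P.α d)) ^ 2) = 4 * ∑ d, (ex0 g (P.fc d) - v d) ^ 2 := by
    rw [Finset.sum_add_distrib, ← Finset.mul_sum, ← Finset.mul_sum,
      Equiv.sum_comp P.α fun d => (ex0 g (P.fc d) - v d) ^ 2]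
    ring
  have h3 : ∑ d, (ex0 g (P.fc d) - v d) ^ 2 =
      ∑ i : P.I, ((P.cyc (some i)).map fun d => (g i - v d) ^ 2).sum := by
    rw [P.sum_all' fun d => (ex0 g (P.fc d) - v d) ^ 2]
    have e1 : ((P.cyc none).map fun d => (ex0 g (P.fc d) - v d) ^ 2).sum = 0 := by
      have e2 : (P.cyc none).map (fun d => (ex0 g (P.fc d) - v d) ^ 2) =
          (P.cyc none).map (fun _ => (0 : ℝ)) := by
        apply List.map_congr_left
        intro d hd
        rw [(P.mem_cyc none d).1 hd, h0 d hd]
        simp [ex0]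
      rw [e2]
      simp
    have e3 : ∀ i : P.I, ((P.cyc (some i)).map fun d => (ex0 g (P.fc d) - v d) ^ 2).sum =
        ((P.cyc (some i)).map fun d => (g i - v d) ^ 2).sum := by
      intro i
      have e2 : (P.cyc (some i)).map (fun d => (ex0 g (P.fc d) - v d) ^ 2) =
          (P.cyc (some i)).map (fun d => (g i - v d) ^ 2) := by
        apply List.map_congr_left
        intro d hd
        rw [(P.mem_cyc (some i) d).1 hd]
        rfl
      rw [e2]
    rw [e1, zero_add]
    exact Finset.sum_congr rfl fun i _ => e3 i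
  rw [P.energy_eq g, ← h3]
  linarith

end Pool.Agent.H86.SD
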