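import Pool.Agent.H86.SD.LinB

/-!
# SD-LinC: Euler's inequality and existence of potentials

Let `A = range del`, `B = range eps`, both are contained in `anti` (`del_mem`, `eps_mem`).
`A ⊓ B = ⊥`: if `ω = del f = eps g` then `∑ d, ω d * ω d = 0` by `orth`, so `ω = 0`.
So `finrank (A ⊔ B) = finrank A + finrank B` (`Submodule.finrank_sup_add_finrank_inf_eq`), and
`A ⊔ B ≤ anti`.
* `euler_le`: `(card Vert - 1) + card I ≤ finrank anti = card D / 2` (`finrank_del`, `finrank_eps`,
  `finrank_anti`, `Submodule.finrank_mono`).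
* `exists_pot`: for a diagram the dimensions are equal (field `euler`), so `A ⊔ B = anti`
  (`Submodule.eq_of_le_of_finrank_eq`).  Let `ω = del f + eps g` (`Submodule.mem_sup`).
  `∑ d, ω d * eps g d = 2 ∑ d, ω d * g (fc d)` (`sum_mul_eps`)
  `= 2 ∑ i, g i * ((cyc i).map ω).sum` (`sum_all`; on `cyc i` the face is `i`, `mem_cyc`), and all the
  sums `((cyc i).map ω).sum` are 0: for `i = some _` by hypothesis, for `i = none` because
  `∑ d, ω d = 0` (`ω` is antisymmetric, `Equiv.sum_comp P.α`) and `sum_all'`.  So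
  `0 = ∑ d, ω d * eps g d = ∑ d, del f d * eps g d + ∑ d, eps g d * eps g d`, the first sum is 0
  (`orth`), so `eps g = 0` and `ω = del f`.
-/

noncomputable section

namespace Pool.Agent.H86.SD

theorem Pre.linC_inf (P : Pre) : LinearMap.range P.del ⊓ LinearMap.range P.eps = ⊥ := by
  rw [eq_bot_iff]
  rintro ω ⟨⟨f, hf⟩, ⟨g, hg⟩⟩
  have h1 := P.orth f g
  rw [hf, hg] at h1
  have h2 := (Finset.sum_eq_zero_iff_of_nonneg (fun d _ => mul_self_nonneg (ω d))).1 h1
  rw [Submodule.mem_bot]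
  funext d
  exact mul_self_eq_zero.1 (h2 d (Finset.mem_univ d))

theorem Pre.linC_le (P : Pre) : LinearMap.range P.del ⊔ LinearMap.range P.eps ≤ P.anti := by
  refine sup_le ?_ ?_
  · rintro _ ⟨f, rfl⟩
    exact P.del_mem f
  · rintro _ ⟨g, rfl⟩
    exact P.eps_mem g

theorem Pre.linC_rank (P : Pre) :
    Module.finrank ℝ (LinearMap.range P.del ⊔ LinearMap.range P.eps :
      Submodule ℝ (P.D → ℝ)) + 1 = Nat.card P.Vert + Fintype.card P.I := by
  have h1 := Submodule.finrank_sup_add_finrank_inf_eq (LinearMap.range P.del)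
    (LinearMap.range P.eps)
  rw [P.linC_inf, finrank_bot, P.finrank_eps] at h1
  have h2 := P.finrank_del
  omega

theorem Pre.euler_le (P : Pre) :
    2 * (Nat.card P.Vert + Fintype.card P.I + 1) ≤ Fintype.card P.D + 4 := by
  have h1 := P.linC_rank
  have h2 := Submodule.finrank_mono P.linC_le
  have h3 := P.finrank_anti
  omega

theorem Pre.sum_anti (P : Pre) (ω : P.D → ℝ) (h1 : ω ∈ P.anti) : ∑ d, ω d = 0 := by
  have h2 : ∑ d, ω (P.α d) = ∑ d, ω d := Equiv.sum_comp P.α ω
  have h3 : ∑ d, ω (P.α d) = -∑ d, ω d := by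
    rw [← Finset.sum_neg_distrib]
    exact Finset.sum_congr rfl fun d _ => (P.mem_anti ω).1 h1 d
  linarith

theorem Diagram.exists_pot (Δ : Diagram) (ω : Δ.D → ℝ) (h1 : ω ∈ Δ.toPre.anti)
    (h2 : ∀ i : Δ.I, ((Δ.cyc (some i)).map ω).sum = 0) :
    ∃ f : Δ.toPre.Vert → ℝ, Δ.toPre.del f = ω := by
  have hrank : Module.finrank ℝ (LinearMap.range Δ.toPre.del ⊔ LinearMap.range Δ.toPre.eps :
      Submodule ℝ (Δ.D → ℝ)) = Module.finrank ℝ Δ.toPre.anti := by
    have e1 := Δ.toPre.linC_rank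
    have e2 := Δ.euler
    have e3 := Δ.toPre.finrank_anti
    omega
  have heq := Submodule.eq_of_le_of_finrank_eq Δ.toPre.linC_le hrank
  have h3 := h1
  rw [← heq, Submodule.mem_sup] at h3
  obtain ⟨_, ⟨f, rfl⟩, _, ⟨g, rfl⟩, hfg⟩ := h3
  -- all the face sums are zero
  have hall : ∀ i : Option Δ.I, ((Δ.cyc i).map ω).sum = 0 := by
    have e1 := Δ.toPre.sum_all' ω
    rw [Δ.toPre.sum_anti ω h1, Finset.sum_eq_zero fun i _ => h2 i, add_zero] at e1
    intro i
    cases i with
    | none => exact e1.symm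
    | some i => exact h2 i
  have hzero : ∑ d, ω d * Δ.toPre.eps g d = 0 := by
    rw [Δ.toPre.sum_mul_eps ω h1 g, Δ.toPre.sum_all fun d => ω d * g (Δ.fc d)]
    have e1 : ∀ i : Option Δ.I, ((Δ.cyc i).map fun d => ω d * g (Δ.fc d)).sum = 0 := by
      intro i
      have e2 : (Δ.cyc i).map (fun d => ω d * g (Δ.fc d)) =
          (Δ.cyc i).map (fun d => ω d * g i) := by
        apply List.map_congr_left
        intro d hd
        rw [(Δ.mem_cyc i d).1 hd]
      rw [e2, List.sum_map_mul_right, hall i, zero_mul]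
    rw [Finset.sum_eq_zero fun i _ => e1 i, mul_zero]
  have hsum : ∑ d, ω d * Δ.toPre.eps g d =
      ∑ d, Δ.toPre.del f d * Δ.toPre.eps g d + ∑ d, Δ.toPre.eps g d * Δ.toPre.eps g d := by
    rw [← Finset.sum_add_distrib]
    refine Finset.sum_congr rfl fun d _ => ?_
    rw [← hfg, Pi.add_apply]
    ring
  rw [hzero, Δ.toPre.orth f g, zero_add] at hsum
  have h4 := (Finset.sum_eq_zero_iff_of_nonneg
    (fun d _ => mul_self_nonneg (Δ.toPre.eps g d))).1 hsum.symm
  refine ⟨f, ?_⟩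
  have h5 : Δ.toPre.eps g = 0 := by
    funext d
    exact mul_self_eq_zero.1 (h4 d (Finset.mem_univ d))
  rw [← hfg, h5, add_zero]

end Pool.Agent.H86.SD
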