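import Pool.Agent.H86.SD.Cyc

/-!
# SD-St: diagrams with positions, names of the vertices and data of the faces

A state `S : St` consists of a `Pre` with a position in `ℤ × ℤ` for every oriented edge (the position of
its start), names `nm` of the vertices (every vertex has a name, different vertices may have the same
name), and the kind and base of every inner face; `count` says `V - E + F = 2` with `V` the number of
names.  `Rz p w L`: there is a state with boundary path `edges p w` whose multiset of face data is `L`.

`Rz.base` (job): `D = Bool`, `I = Empty`, `α = φ = Equiv.boolNot`, `lab true = l`, `lab false = linv l`,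
`fc = none`, `cyc none = [true, false]`, `pos true = p`, `pos false = step p l`, `N = Bool`, `nm = id`
(`φ (α d) = d`), `count: 2 * (2 + 0 + 1) = 2 + 4`.
-/

noncomputable section

namespace Pool.Agent.H86.SD

structure St where
  P : Pre
  /-- the position of the start of an oriented edge -/
  pos : P.D → ℤ × ℤ
  /-- names of vertices -/
  N : Type
  [finN : Fintype N]
  /-- the name of the start of an oriented edge -/
  nm : P.D → N
  /-- kind and base of an inner face -/
  fd : P.I → Fin 3 × (ℤ × ℤ)
  pos_φ : ∀ d, pos (P.φ d) = step (pos d) (P.lab d)
  pos_α : ∀ d, pos (P.α d) = step (pos d) (P.lab d)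
  nm_surj : Function.Surjective nm
  nm_inv : ∀ d, nm (P.φ (P.α d)) = nm d
  face : ∀ i, IsFaceAt (fd i).1 (fd i).2 ((P.cyc (some i)).map fun d => (pos d, P.lab d))
  count : 2 * (Fintype.card N + Fintype.card P.I + 1) = Fintype.card P.D + 4

attribute [instance] St.finN

/-- there is a state with boundary path `edges p w` and multiset of face data `L` -/
def Rz (p : ℤ × ℤ) (w : List Letter) (L : Multiset (Fin 3 × (ℤ × ℤ))) : Prop :=
  ∃ S : St, (S.P.cyc none).map (fun d => (S.pos d, S.P.lab d)) = edges p w ∧
    (Finset.univ : Finset S.P.I).val.map S.fd = L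

theorem Rz.ne_nil {p : ℤ × ℤ} {w : List Letter} {L : Multiset (Fin 3 × (ℤ × ℤ))}
    (h : Rz p w L) : w ≠ [] := by
  obtain ⟨S, h1, -⟩ := h
  rintro rfl
  exact S.P.cyc_ne none (by simpa using h1)

/-- the boundary path is closed -/
theorem Rz.closed {p : ℤ × ℤ} {w : List Letter} {L : Multiset (Fin 3 × (ℤ × ℤ))}
    (h : Rz p w L) : walk p w = p := by
  obtain ⟨S, h1, -⟩ := h
  have h2 := S.P.map_cyc none
  have h3 := S.P.cyc_ne none
  have h5 := congrArg (List.map Prod.snd) h1
  rw [map_snd_edges, List.map_map] at h5
  generalize S.P.cyc none = l at h1 h2 h3 h5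
  cases l with
  | nil => exact absurd rfl h3
  | cons d0 l =>
    have h4 := (cyc_edges S.pos_φ h2).2
    have h6 : S.pos d0 = p := by
      cases w with
      | nil => simp at h1
      | cons a w =>
        rw [List.map_cons, edges_cons, List.cons.injEq] at h1
        exact congrArg Prod.fst h1.1
    rw [h6] at h4
    rw [← h5]
    exact h4

/-- the field `rel_cyc` from the face data -/
theorem rel_of_face {D : Type*} {k : Fin 3} {b : ℤ × ℤ} {l : List D} {pos : D → ℤ × ℤ}
    {lab : D → Letter} (h : IsFaceAt k b (l.map fun d => (pos d, lab d))) :
    ∃ k, List.IsRotated (l.map lab) (rel k) ∨ List.IsRotated (l.map lab) (winv (rel k)) := by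
  refine ⟨k, ?_⟩
  rcases h with h | h
  · left
    have := h.map Prod.snd
    rw [map_snd_edges, List.map_map] at this
    exact this
  · right
    have := h.map Prod.snd
    rw [map_snd_edges, List.map_map] at this
    exact this

/-- the `Pre` with one edge -/
def st_pre (l : Letter) : Pre where
  D := Bool
  I := Empty
  α := Equiv.boolNot
  φ := Equiv.boolNot
  lab b := if b = true then l else linv l
  fc _ := none
  cyc _ := [true, false]
  α_α := fun d => by cases d <;> rfl
  lab_α := fun d => by
    cases d
    · show l = linv (linv l)
      rw [linv_linv]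
    · rfl
  cyc_ne := fun _ => List.cons_ne_nil _ _
  cyc_nodup := fun _ => by decide
  mem_cyc := fun i d => by
    cases i with
    | none => cases d <;> simp
    | some e => exact e.elim
  map_cyc := fun _ => rfl
  rel_cyc := fun i => i.elim
  conn := fun S hS h => by
    obtain ⟨d, hd⟩ := hS
    have h1 := (h d hd).1
    ext e
    constructor
    · intro _
      trivial
    · intro _
      cases d
      · cases e
        · exact hd
        · exact h1
      · cases e
        · exact h1
        · exact hd

/-- the state with one edge -/
def st_one (p : ℤ × ℤ) (l : Letter) : St where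
  P := st_pre l
  pos := fun b : Bool => if b = true then p else step p l
  N := Bool
  nm := fun b : Bool => b
  fd := fun i : Empty => i.elim
  pos_φ := fun d : Bool => by
    cases d
    · show p = step (step p l) (linv l)
      rw [step_linv]
    · rfl
  pos_α := fun d : Bool => by
    cases d
    · show p = step (step p l) (linv l)
      rw [step_linv]
    · rfl
  nm_surj := fun b => ⟨b, rfl⟩
  nm_inv := fun d : Bool => by cases d <;> rfl
  face := fun i : Empty => i.elim
  count := by
    have h1 : Fintype.card (st_pre l).I = 0 := Fintype.card_empty
    have h2 : Fintype.card (st_pre l).D = 2 := Fintype.card_bool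
    rw [h1, h2, Fintype.card_bool]

theorem Rz.base (p : ℤ × ℤ) (l : Letter) : Rz p [l, linv l] 0 := by
  refine ⟨st_one p l, ?_, ?_⟩
  · rfl
  · rfl

end Pool.Agent.H86.SD
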