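import Pool.Agent.H86.SD.En1
import Pool.Agent.H86.SD.LinC
import Pool.Agent.H86.SD.St

/-!
# SD-En2: from a state to a diagram with a bound for `mu`

* `St.euler`: `nm` is constant on the orbits of `φ * α` (`nm_inv`; a function with `f (φ (α d)) = f d` is
  constant on `SameCycle` classes), so it induces a surjection `Vert → N`, `card N ≤ Nat.card Vert`;
  with `count` and `Pre.euler_le` equality follows.
* `src_rev`: cases of the sign, `step_linv`.
* `Cf_eq`: `IsFaceAt k b ((cyc (some i)).map (pos, lab))`: rotations are permutations, so the sum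
  `((cyc (some i)).map fun d => (G b - G (src (pos d, lab d)))^2).sum` is
  `((edges b (rel k)).map ..).sum` or `((edges b (winv (rel k))).map ..).sum`; the two agree
  (`fin_cases k`, explicit lists: the `src` of the edges of the inverse relator are the `src` of the
  edges of the relator in the reverse order).
* `Rz.diagram`: `Δ` = the state with `St.euler`, `g i = G (fd i).2`, `v d = G (src (pos d, lab d))`:
  `v (α d) = v d` (`src_rev`, `pos_α`, `lab_α`), `v = 0` on `cyc none` (`hG`, as
  `(cyc none).map (pos, lab) = edges p w`).  `energy_le` and `Cf_eq`: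
  `energy g ≤ 2 ∑ i, Cf G (fd i) = 2 (L.map (Cf G)).sum` (`L = univ.val.map fd`, `Multiset.map_map`);
  `∑ i, flen i * g i ^ 2 = (L.map (Mf G)).sum` (the lengths agree); `g ≠ 0` since this is positive;
  `mu ≤` the value at `g` (`iInf₂_le`), `ENNReal.ofReal_le_ofReal`, `div_le_div_of_nonneg_right`.
  `Δ.word = w` from `map_snd_edges`; `card I = card L` (`Multiset.card_map`).
-/

open scoped ENNReal

noncomputable section

namespace Pool.Agent.H86.SD

/-- the start of the positive edge under an edge -/
def src (e : (ℤ × ℤ) × Letter) : ℤ × ℤ := if e.2.2 then e.1 else step e.1 e.2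

/-- the energy of a face -/
def Cf (G : ℤ × ℤ → ℝ) (x : Fin 3 × (ℤ × ℤ)) : ℝ :=
  ((edges x.2 (rel x.1)).map fun e => (G x.2 - G (src e)) ^ 2).sum

/-- the mass of a face -/
def Mf (G : ℤ × ℤ → ℝ) (x : Fin 3 × (ℤ × ℤ)) : ℝ := (rel x.1).length * G x.2 ^ 2

theorem src_rev (p : ℤ × ℤ) (l : Letter) : src (step p l, linv l) = src (p, l) := by
  obtain ⟨i, b⟩ := l
  cases b
  · show (if (linv (i, false)).2 then step p (i, false) else
      step (step p (i, false)) (linv (i, false))) = _
    rfl
  · show (if (linv (i, true)).2 then step p (i, true) else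
      step (step p (i, true)) (linv (i, true))) = _
    rw [step_linv]
    rfl

theorem en2_zpow {D N : Type*} (g : Equiv.Perm D) (f : D → N) (h : ∀ x, f (g x) = f x)
    (i : ℤ) (x : D) : f ((g ^ i) x) = f x := by
  induction i using Int.induction_on generalizing x with
  | zero => simp
  | succ n ih => rw [zpow_add_one, Equiv.Perm.mul_apply, ih, h]
  | pred n ih =>
    rw [zpow_sub_one, Equiv.Perm.mul_apply, ih]
    have h1 := h (g⁻¹ x)
    rw [← Equiv.Perm.mul_apply, mul_inv_cancel, Equiv.Perm.one_apply] at h1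
    exact h1.symm

theorem St.euler (S : St) :
    2 * (Nat.card S.P.Vert + Fintype.card S.P.I + 1) = Fintype.card S.P.D + 4 := by
  have h1 : ∀ a b : S.P.D, Equiv.Perm.SameCycle (S.P.φ * S.P.α) a b → S.nm a = S.nm b := by
    rintro a b ⟨i, hi⟩
    have h2 := en2_zpow (S.P.φ * S.P.α) S.nm (fun x => S.nm_inv x) i a
    rw [hi] at h2
    exact h2.symm
  let f : S.P.Vert → S.N := fun q => Quotient.lift S.nm (fun a b hab => h1 a b hab) q
  have hf : Function.Surjective f := by
    intro n
    obtain ⟨d, hd⟩ := S.nm_surj n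
    exact ⟨S.P.vtx d, hd⟩
  have h3 : Nat.card S.N ≤ Nat.card S.P.Vert := Nat.card_le_card_of_surjective f hf
  rw [Nat.card_eq_fintype_card] at h3
  have h4 := S.P.euler_le
  have h5 := S.count
  omega

theorem en2_winv (F : ℤ × ℤ → ℝ) (p : ℤ × ℤ) (w : List Letter) :
    ((edges (walk p w) (winv w)).map fun e => F (src e)).sum =
      ((edges p w).map fun e => F (src e)).sum := by
  induction w generalizing p with
  | nil => rfl
  | cons l w ih =>
    rw [walk_cons, winv_cons, edges_append, walk_winv, List.map_append, List.sum_append, ih]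
    rw [edges_cons, List.map_cons, List.sum_cons, edges_cons, edges_nil, List.map_cons,
      List.map_nil, List.sum_cons, List.sum_nil, src_rev]
    ring

theorem en2_closed (k : Fin 3) (b : ℤ × ℤ) : walk b (rel k) = b := by
  obtain ⟨a, c⟩ := b
  fin_cases k
  · show walk (a, c) [lx, ly, lX, lY, lZ] = (a, c)
    simp only [walk_cons, walk_nil, step_x, step_X, step_y, step_Y, step_z, step_Z]
    ext <;> ring
  · show walk (a, c) [lx, lz, lX, lZ] = (a, c)
    simp only [walk_cons, walk_nil, step_x, step_X, step_y, step_Y, step_z, step_Z]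
    ext <;> ring
  · show walk (a, c) [ly, lz, lY, lZ] = (a, c)
    simp only [walk_cons, walk_nil, step_x, step_X, step_y, step_Y, step_z, step_Z]
    ext <;> ring

theorem en2_face {k : Fin 3} {b : ℤ × ℤ} {es : List ((ℤ × ℤ) × Letter)} (h : IsFaceAt k b es)
    (F : ℤ × ℤ → ℝ) :
    (es.map fun e => F (src e)).sum = ((edges b (rel k)).map fun e => F (src e)).sum := by
  rcases h with h | h
  · exact (h.perm.map _).sum_eq
  · rw [(h.perm.map fun e => F (src e)).sum_eq]
    have h1 := en2_winv F b (rel k)
    rw [en2_closed] at h1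
    exact h1

theorem en2_len {k : Fin 3} {b : ℤ × ℤ} {es : List ((ℤ × ℤ) × Letter)} (h : IsFaceAt k b es) :
    es.length = (rel k).length := by
  rcases h with h | h
  · rw [h.perm.length_eq, length_edges]
  · rw [h.perm.length_eq, length_edges, winv, List.length_reverse, List.length_map]

theorem Cf_eq (S : St) (G : ℤ × ℤ → ℝ) (i : S.P.I) :
    ((S.P.cyc (some i)).map fun d => (G (S.fd i).2 - G (src (S.pos d, S.P.lab d))) ^ 2).sum =
      Cf G (S.fd i) := by
  have h1 := en2_face (S.face i) fun q => (G (S.fd i).2 - G q) ^ 2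
  rw [List.map_map] at h1
  exact h1

theorem Rz.diagram {p : ℤ × ℤ} {w : List Letter} {L : Multiset (Fin 3 × (ℤ × ℤ))}
    (h : Rz p w L) (G : ℤ × ℤ → ℝ) (hG : ∀ e ∈ edges p w, G (src e) = 0)
    (hM : 0 < (L.map (Mf G)).sum) :
    ∃ Δ : Diagram, Δ.toPre.word = w ∧ Fintype.card Δ.I = Multiset.card L ∧
      Δ.toPre.mu ≤ ENNReal.ofReal (2 * (L.map (Cf G)).sum / (L.map (Mf G)).sum) := by
  obtain ⟨S, h1, h2⟩ := h
  refine ⟨{ toPre := S.P, euler := S.euler }, ?_, ?_, ?_⟩
  · have h3 := congrArg (List.map Prod.snd) h1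
    rw [map_snd_edges, List.map_map] at h3
    exact h3
  · rw [← h2, Multiset.card_map]
    exact Finset.card_univ.symm
  · show S.P.mu ≤ _
    have hC : (L.map (Cf G)).sum = ∑ i : S.P.I, Cf G (S.fd i) := by
      rw [← h2, Multiset.map_map]
      rfl
    have hMs : (L.map (Mf G)).sum = ∑ i : S.P.I, (S.P.flen i : ℝ) * G (S.fd i).2 ^ 2 := by
      rw [← h2, Multiset.map_map]
      show ∑ i : S.P.I, Mf G (S.fd i) = _
      refine Finset.sum_congr rfl fun i _ => ?_
      have h3 := en2_len (S.face i)
      rw [List.length_map] at h3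
      show ((rel (S.fd i).1).length : ℝ) * G (S.fd i).2 ^ 2 =
        ((S.P.cyc (some i)).length : ℝ) * G (S.fd i).2 ^ 2
      rw [h3]
    have hE := S.P.energy_le (fun i => G (S.fd i).2) (fun d => G (src (S.pos d, S.P.lab d)))
      (fun d => by
        show G (src (S.pos (S.P.α d), S.P.lab (S.P.α d))) = G (src (S.pos d, S.P.lab d))
        rw [S.pos_α, S.P.lab_α, src_rev])
      (fun d hd => by
        apply hG
        rw [← h1]
        exact List.mem_map.2 ⟨d, hd, rfl⟩)
    have hE2 : S.P.energy (fun i => G (S.fd i).2) ≤ 2 * (L.map (Cf G)).sum := by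
      refine hE.trans (le_of_eq ?_)
      rw [hC]
      congr 1
      exact Finset.sum_congr rfl fun i _ => Cf_eq S G i
    have hg : (fun i => G (S.fd i).2) ≠ (0 : S.P.I → ℝ) := by
      intro h0
      rw [hMs] at hM
      apply hM.ne'
      refine Finset.sum_eq_zero fun i _ => ?_
      have h3 : G (S.fd i).2 = 0 := congrFun h0 i
      rw [h3]
      ring
    refine (iInf₂_le (fun i => G (S.fd i).2) hg).trans ?_
    apply ENNReal.ofReal_le_ofReal
    rw [hMs] at hM
    rw [hMs]
    exact div_le_div_of_nonneg_right hE2 hM.le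

end Pool.Agent.H86.SD
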