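import Pool.Agent.H86.SD.EnT
import Pool.Agent.H86.SD.AsmB

/-!
# SD-EnL: the energy of all faces

* `cfL1`: `msum_add`, `msum_sum`, `msum_nsmul`, `msum_sg`: walls `∑_{t<m} 2j Cf (2, (0, ..)) ≤ 2jm/M^2`
  (`Cf2`), `cfT1` (with `c+m`), `cfT2`, `cfPa`: total `3/H + (2jm + 2m^2 + m(m^2+1))/M^2`, and
  `2m^2 + m^3 + m ≤ 4m^3`.  `cfL0`: the same with `cfT3` (`T3 0 (c-m) (m-1)`), `cfT4`, `cfPb`.
* `cfLC`: `cfPc`, `cfPd`: `2/H + 2m(m^2+1)/M^2`, `m^2 + 1 ≤ 2m^2`.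
* `cfLI`: `cfT1 + cfT2 + cfPa + cfPb + cfLC`: `6/H + (2m^2 + 2m(m^2+1) + 4m^3)/M^2`.
* `cfLT`: `k = m`, `M = (2m+1)m`: `LT m m = LI + ∑_{i<m} (L1 + L0)(j = i+1) + ∑_{i<m-1} LC`:
  `≤ 6/H + 10m^3/M^2 + ∑_{i<m} (6/H + (4(i+1)m + 8m^3)/M^2) + (m-1)(2/H + 4m^3/M^2)`
  `≤ (6+8m)/H + (10m^3 + 12m^4 + 4m^4)/M^2` (as `4(i+1)m ≤ 4m^2 ≤ 4m^3`), `M^2 ≥ 4m^4`, so the second part is
  at most `26/4 ≤ 7 ≤ 7m/H` (`hh_le`), the first at most `14m/H`.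
-/

noncomputable section

namespace Pool.Agent.H86.SD

open Finset

variable {m : ℕ} {M : ℝ}

theorem EnL_wall (hM : 0 < M) (j : ℕ) (cc : ℕ → ℤ) :
    msum (Cf (GG M m)) (∑ t ∈ range m, (2 * j) • sg 2 0 (cc t)) ≤ 2 * j * m / M ^ 2 := by
  rw [msum_sum]
  calc ∑ t ∈ range m, msum (Cf (GG M m)) ((2 * j) • sg 2 0 (cc t)) ≤
      ∑ _t ∈ range m, (2 * j : ℝ) * (1 / M ^ 2) := by
        refine Finset.sum_le_sum fun t _ => ?_
        rw [msum_nsmul, msum_sg]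
        push_cast
        exact mul_le_mul_of_nonneg_left (Cf2 hM m (cc t)) (by positivity)
    _ = 2 * j * m / M ^ 2 := by
        rw [Finset.sum_const, card_range, nsmul_eq_mul]
        ring

theorem EnL_row (f : Fin 3 × (ℤ × ℤ) → ℝ) (n : ℕ) (a c : ℕ → ℤ) :
    msum f (∑ i ∈ range n, sg 0 (a i) (c i)) = ∑ i ∈ range n, f (0, (a i, c i)) := by
  rw [msum_sum]
  exact Finset.sum_congr rfl fun i _ => msum_sg f 0 (a i) (c i)

theorem EnL_pow (hm : 1 ≤ m) : (m : ℝ) ≤ (m : ℝ) ^ 3 ∧ (m : ℝ) ^ 2 ≤ (m : ℝ) ^ 3 ∧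
    (1 : ℝ) ≤ m := by
  have h : (1 : ℝ) ≤ m := by exact_mod_cast hm
  refine ⟨?_, ?_, h⟩
  · calc (m : ℝ) = (m : ℝ) ^ 1 := (pow_one _).symm
      _ ≤ (m : ℝ) ^ 3 := pow_le_pow_right₀ h (by norm_num)
  · exact pow_le_pow_right₀ h (by norm_num)

theorem cfL1 (hm : 1 ≤ m) (hM : 0 < M) (j : ℕ) (c : ℤ) :
    msum (Cf (GG M m)) (L1 m j c) ≤ 3 / hh m + (2 * j * m + 4 * (m : ℝ) ^ 3) / M ^ 2 := by
  unfold L1
  rw [msum_add, msum_add, msum_add, EnL_row]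
  have h1 := EnL_wall (m := m) hM j (fun t => c + t)
  have h2 := cfT1 hm hM (c + m)
  have h3 := cfT2 hm hM c
  have h4 := cfPa hm hM (fun i => c + i)
  obtain ⟨e1, e2, e3⟩ := EnL_pow hm
  have hK : 0 ≤ (M ^ 2)⁻¹ := by positivity
  have e4 := mul_nonneg hK (sub_nonneg.2 e1)
  have e5 := mul_nonneg hK (sub_nonneg.2 e2)
  simp only [div_eq_mul_inv] at *
  linarith

theorem cfL0 (hm : 1 ≤ m) (hM : 0 < M) (j : ℕ) (c : ℤ) :
    msum (Cf (GG M m)) (L0 m j c) ≤ 3 / hh m + (2 * j * m + 4 * (m : ℝ) ^ 3) / M ^ 2 := by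
  unfold L0
  rw [msum_add, msum_add, msum_add, EnL_row]
  have h1 := EnL_wall (m := m) hM j (fun t => c - t - 1)
  have h2 := cfT3 hm hM (c - m)
  have h3 := cfT4 hm hM c
  have h4 := cfPb hm hM (fun i => c - i - 1)
  obtain ⟨e1, e2, e3⟩ := EnL_pow hm
  have hK : 0 ≤ (M ^ 2)⁻¹ := by positivity
  have e4 := mul_nonneg hK (sub_nonneg.2 e1)
  have e5 := mul_nonneg hK (sub_nonneg.2 e2)
  simp only [div_eq_mul_inv] at *
  linarith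

theorem cfLC (hm : 1 ≤ m) (hM : 0 < M) (c c' : ℤ) :
    msum (Cf (GG M m)) (LC m c c') ≤ 2 / hh m + 4 * (m : ℝ) ^ 3 / M ^ 2 := by
  unfold LC
  rw [msum_add, EnL_row, EnL_row]
  have h3 := cfPc hm hM (fun i => c + i)
  have h4 := cfPd hm hM (fun i => c' - i - 1)
  obtain ⟨e1, e2, e3⟩ := EnL_pow hm
  have hK : 0 ≤ (M ^ 2)⁻¹ := by positivity
  have e4 := mul_nonneg hK (sub_nonneg.2 e1)
  have e5 := mul_nonneg hK (sub_nonneg.2 e2)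
  simp only [div_eq_mul_inv] at *
  linarith

theorem cfLI (hm : 1 ≤ m) (hM : 0 < M) (k : ℕ) :
    msum (Cf (GG M m)) (LI m k) ≤ 6 / hh m + 10 * (m : ℝ) ^ 3 / M ^ 2 := by
  unfold LI
  rw [msum_add, msum_add, msum_add, msum_add, EnL_row, EnL_row]
  have h1 := cfT1 hm hM (k * m + m)
  have h2 := cfT2 hm hM (k * m)
  have h3 := cfPa hm hM (fun i => k * m + i)
  have h4 := cfPb hm hM (fun i => k * m + m - i - 1)
  have h5 := cfLC hm hM (k * m + m) (k * m)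
  obtain ⟨e1, e2, e3⟩ := EnL_pow hm
  have hK : 0 ≤ (M ^ 2)⁻¹ := by positivity
  have e4 := mul_nonneg hK (sub_nonneg.2 e1)
  have e5 := mul_nonneg hK (sub_nonneg.2 e2)
  simp only [div_eq_mul_inv] at *
  linarith

theorem EnL_LA (hm : 1 ≤ m) (hM : 0 < M) (k : ℕ) :
    msum (Cf (GG M m)) (∑ i ∈ range m, LA m k (i + 1)) ≤
      m * (6 / hh m + 12 * (m : ℝ) ^ 3 / M ^ 2) := by
  rw [msum_sum]
  calc ∑ i ∈ range m, msum (Cf (GG M m)) (LA m k (i + 1)) ≤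
      ∑ _i ∈ range m, (6 / hh m + 12 * (m : ℝ) ^ 3 / M ^ 2) := by
        refine Finset.sum_le_sum fun i hi => ?_
        rw [Finset.mem_range] at hi
        unfold LA
        rw [msum_add]
        have h1 := cfL1 (M := M) hm hM (i + 1) (k * m + ((i + 1 : ℕ) : ℤ) * m)
        have h2 := cfL0 (M := M) hm hM (i + 1) (k * m - ((i + 1 : ℕ) : ℤ) * m + m)
        obtain ⟨e1, e2, e3⟩ := EnL_pow hm
        have hi' : ((i + 1 : ℕ) : ℝ) ≤ m := by exact_mod_cast hi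
        have e6 : ((i + 1 : ℕ) : ℝ) * m ≤ (m : ℝ) ^ 3 := by
          calc ((i + 1 : ℕ) : ℝ) * m ≤ m * m := mul_le_mul_of_nonneg_right hi' (by linarith)
            _ = (m : ℝ) ^ 2 := by ring
            _ ≤ (m : ℝ) ^ 3 := e2
        have hK : 0 ≤ (M ^ 2)⁻¹ := by positivity
        have e4 := mul_nonneg hK (sub_nonneg.2 e6)
        simp only [div_eq_mul_inv] at *
        linarith
    _ = m * (6 / hh m + 12 * (m : ℝ) ^ 3 / M ^ 2) := by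
        rw [Finset.sum_const, card_range, nsmul_eq_mul]

theorem EnL_LB (hm : 1 ≤ m) (hM : 0 < M) (k : ℕ) :
    msum (Cf (GG M m)) (∑ i ∈ range (m - 1), LB m k (i + 1)) ≤
      m * (2 / hh m + 4 * (m : ℝ) ^ 3 / M ^ 2) := by
  rw [msum_sum]
  have hH := hh_pos hm
  calc ∑ i ∈ range (m - 1), msum (Cf (GG M m)) (LB m k (i + 1)) ≤
      ∑ _i ∈ range (m - 1), (2 / hh m + 4 * (m : ℝ) ^ 3 / M ^ 2) := by
        refine Finset.sum_le_sum fun i hi => ?_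
        exact cfLC hm hM _ _
    _ = ((m - 1 : ℕ) : ℝ) * (2 / hh m + 4 * (m : ℝ) ^ 3 / M ^ 2) := by
        rw [Finset.sum_const, card_range, nsmul_eq_mul]
    _ ≤ m * (2 / hh m + 4 * (m : ℝ) ^ 3 / M ^ 2) := by
        refine mul_le_mul_of_nonneg_right ?_ (by positivity)
        exact_mod_cast Nat.sub_le m 1

theorem cfLT (hm : 1 ≤ m) :
    msum (Cf (GG ((2 * m + 1) * m) m)) (LT m m) ≤ 21 * m / hh m := by
  obtain ⟨e1, e2, e3⟩ := EnL_pow hm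
  have hH := hh_pos hm
  have hM : (0 : ℝ) < (2 * m + 1) * m := by positivity
  unfold LT
  rw [msum_add, msum_add]
  have h1 := cfLI hm hM m
  have h2 := EnL_LA hm hM m
  have h3 := EnL_LB hm hM m
  have h4 : 26 * (m : ℝ) ^ 4 / ((2 * m + 1) * m : ℝ) ^ 2 ≤ 7 * (m / hh m) := by
    have f1 : 26 * (m : ℝ) ^ 4 / ((2 * m + 1) * m : ℝ) ^ 2 ≤ 7 := by
      rw [div_le_iff₀ (by positivity)]
      have : ((2 * m + 1) * m : ℝ) ^ 2 = 4 * (m : ℝ) ^ 4 + 4 * (m : ℝ) ^ 3 + (m : ℝ) ^ 2 := by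
        ring
      rw [this]
      have g1 : (0 : ℝ) ≤ (m : ℝ) ^ 4 := by positivity
      have g2 : (0 : ℝ) ≤ (m : ℝ) ^ 3 := by positivity
      have g3 : (0 : ℝ) ≤ (m : ℝ) ^ 2 := by positivity
      linarith
    have f2 : (1 : ℝ) ≤ m / hh m := by
      rw [le_div_iff₀ hH, one_mul]
      exact hh_le m
    linarith
  have h5 : 6 / hh m ≤ 6 * (m / hh m) := by
    have : 6 / hh m = 6 * (1 / hh m) := by ring
    rw [this]
    have f3 : 1 / hh m ≤ m / hh m := by gcongr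
    linarith
  have h6 : 10 * (m : ℝ) ^ 3 / ((2 * m + 1) * m : ℝ) ^ 2 ≤
      10 * (m : ℝ) ^ 4 / ((2 * m + 1) * m : ℝ) ^ 2 := by
    have : (m : ℝ) ^ 3 ≤ (m : ℝ) ^ 4 := pow_le_pow_right₀ e3 (by norm_num)
    gcongr
  have h7 : (m : ℝ) * (6 / hh m + 12 * (m : ℝ) ^ 3 / ((2 * m + 1) * m : ℝ) ^ 2) =
      6 * (m / hh m) + 12 * (m : ℝ) ^ 4 / ((2 * m + 1) * m : ℝ) ^ 2 := by ring
  have h8 : (m : ℝ) * (2 / hh m + 4 * (m : ℝ) ^ 3 / ((2 * m + 1) * m : ℝ) ^ 2) =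
      2 * (m / hh m) + 4 * (m : ℝ) ^ 4 / ((2 * m + 1) * m : ℝ) ^ 2 := by ring
  have h9 : 21 * (m : ℝ) / hh m = 21 * (m / hh m) := by ring
  rw [h7] at h2
  rw [h8] at h3
  rw [h9]
  have h10 : 26 * (m : ℝ) ^ 4 / ((2 * m + 1) * m : ℝ) ^ 2 =
      10 * (m : ℝ) ^ 4 / ((2 * m + 1) * m : ℝ) ^ 2 + 12 * (m : ℝ) ^ 4 / ((2 * m + 1) * m : ℝ) ^ 2 +
        4 * (m : ℝ) ^ 4 / ((2 * m + 1) * m : ℝ) ^ 2 := by ring
  rw [h10] at h4
  linarith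

end Pool.Agent.H86.SD
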