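import Pool.Agent.H86.SD.Cnt

/-!
# SD-EnT: the energy of triangles and rows

`H = hh m > 0`.  For `i < m`: `(hf m i - hf m (i+1))^2 = 1/((m-i)^2 H^2)` (`hf_diff`), and the same for the
columns `-1-i` (`hf_diff'`, the square does not depend on the order).  So for the column `m - i - 1`
(`= ((m-1-i : ℕ) : ℤ)`) and the column `-m + i = -1 - (m-1-i)` the square is `1/((i+1)^2 H^2)`, for the
columns `i` and `-1-i = -i-1` it is `1/((m-i)^2 H^2)`.  `∑_{i<m} 1/(i+1) = H`, and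
`∑_{i<m} 1/(m-i) = H` (`Finset.sum_range_reflect`).
* `cfT1`: `Cf1`; `∑_{i<m} (m-i) (1/((m-i)^2 H^2) + 1/M^2) = H/H^2 + (m(m+1)/2)/M^2`, `m(m+1)/2 ≤ m^2`.
* `cfT2`: `∑_{i<m} i (1/((i+1)^2 H^2) + 1/M^2) ≤ 1/H + (m(m-1)/2)/M^2` as `i/(i+1)^2 ≤ 1/(i+1)`.
* `cfT3`: `∑_{i<m-1} (m-1-i) (1/((m-i)^2 H^2) + 1/M^2)`, `(m-1-i)/(m-i)^2 ≤ 1/(m-i)`.
* `cfT4`: `∑_{i<m} (i+1) (1/((i+1)^2 H^2) + 1/M^2)`.
* `cfPa`, .., `cfPd`: `Cf0`, `1/((i+1)^2 H^2) ≤ 1/((i+1) H^2)`, and `|a+1| ≤ m`.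
The number of terms: `msum (T ..) = ∑ i, ∑ j, Cf ..` (`msum_sum`, `msum_sg`), and the bound of `Cf1` does not
depend on `c` (`Finset.sum_const`, `Finset.card_range`).
-/

noncomputable section

namespace Pool.Agent.H86.SD

open Finset

variable {m : ℕ} {M : ℝ}

theorem EnT_sum (m : ℕ) : ∑ i ∈ range m, 1 / ((m : ℝ) - i) = hh m := by
  unfold hh
  rw [← Finset.sum_range_reflect (fun i => 1 / ((i : ℝ) + 1)) m]
  refine Finset.sum_congr rfl fun i hi => ?_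
  have hi' := Finset.mem_range.1 hi
  have : ((m - 1 - i : ℕ) : ℝ) + 1 = (m : ℝ) - i := by
    rw [Nat.cast_sub (by omega), Nat.cast_sub (by omega)]
    push_cast
    ring
  rw [this]

/-- the square for the column `i` -/
theorem EnT_sq1 {m i : ℕ} (hi : i < m) :
    (hf m i - hf m ((i : ℤ) + 1)) ^ 2 = (1 / (((m : ℝ) - i) * hh m)) ^ 2 := by
  rw [hf_diff hi]

/-- the square for the column `-1-i` -/
theorem EnT_sq2 {m i : ℕ} (hi : i < m) :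
    (hf m (-1 - i) - hf m (-1 - (i : ℤ) + 1)) ^ 2 = (1 / (((m : ℝ) - i) * hh m)) ^ 2 := by
  rw [← hf_diff' hi]
  ring

/-- the square for the column `m-i-1` -/
theorem EnT_sq3 {m i : ℕ} (hi : i < m) :
    (hf m ((m : ℤ) - i - 1) - hf m ((m : ℤ) - i - 1 + 1)) ^ 2 =
      (1 / (((i : ℝ) + 1) * hh m)) ^ 2 := by
  have h1 : (m : ℤ) - i - 1 = ((m - 1 - i : ℕ) : ℤ) := by omega
  have h2 : (m : ℝ) - ((m - 1 - i : ℕ) : ℝ) = (i : ℝ) + 1 := by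
    rw [Nat.cast_sub (by omega), Nat.cast_sub (by omega)]
    push_cast
    ring
  rw [h1, EnT_sq1 (by omega), h2]

/-- the square for the column `-m+i` -/
theorem EnT_sq4 {m i : ℕ} (hi : i < m) :
    (hf m (-(m : ℤ) + i) - hf m (-(m : ℤ) + i + 1)) ^ 2 =
      (1 / (((i : ℝ) + 1) * hh m)) ^ 2 := by
  have h1 : -(m : ℤ) + i = -1 - ((m - 1 - i : ℕ) : ℤ) := by omega
  have h2 : (m : ℝ) - ((m - 1 - i : ℕ) : ℝ) = (i : ℝ) + 1 := by
    rw [Nat.cast_sub (by omega), Nat.cast_sub (by omega)]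
    push_cast
    ring
  rw [h1, EnT_sq2 (by omega), h2]

theorem EnT_blk (hm : 1 ≤ m) (hM : 0 < M) {s : ℕ} (hs : s ≤ m) (n : ℕ → ℕ) (b x : ℕ → ℝ)
    (hb : ∀ i < m, 1 ≤ b i) (hbm : ∀ i < m, b i ≤ m) (hn : ∀ i < s, (n i : ℝ) ≤ b i)
    (hsum : ∑ i ∈ range m, 1 / b i = hh m)
    (hx : ∀ i < s, x i ≤ n i * ((1 / (b i * hh m)) ^ 2 + 1 / M ^ 2)) :
    ∑ i ∈ range s, x i ≤ 1 / hh m + (m : ℝ) ^ 2 / M ^ 2 := by
  have hH := hh_pos hm
  have h1 : ∀ i < s, x i ≤ 1 / b i * (1 / hh m ^ 2) + m / M ^ 2 := by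
    intro i hi
    have hbi := hb i (by omega)
    have hb0 : 0 < b i := by linarith
    refine (hx i hi).trans ?_
    rw [mul_add]
    apply add_le_add
    · calc (n i : ℝ) * (1 / (b i * hh m)) ^ 2 ≤ b i * (1 / (b i * hh m)) ^ 2 :=
            mul_le_mul_of_nonneg_right (hn i hi) (by positivity)
        _ = 1 / b i * (1 / hh m ^ 2) := by
            field_simp
    · rw [mul_one_div]
      apply div_le_div_of_nonneg_right _ (by positivity)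
      exact (hn i hi).trans (hbm i (by omega))
  calc ∑ i ∈ range s, x i ≤ ∑ i ∈ range s, (1 / b i * (1 / hh m ^ 2) + m / M ^ 2) :=
        Finset.sum_le_sum fun i hi => h1 i (Finset.mem_range.1 hi)
    _ ≤ ∑ i ∈ range m, (1 / b i * (1 / hh m ^ 2) + m / M ^ 2) := by
        apply Finset.sum_le_sum_of_subset_of_nonneg
        · intro i hi
          rw [Finset.mem_range] at hi ⊢
          omega
        · intro i hi _
          have := hb i (Finset.mem_range.1 hi)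
          have hb0 : 0 < b i := by linarith
          positivity
    _ = 1 / hh m + (m : ℝ) ^ 2 / M ^ 2 := by
        rw [Finset.sum_add_distrib, ← Finset.sum_mul, hsum, Finset.sum_const, card_range,
          nsmul_eq_mul]
        field_simp

theorem EnT_row (hm : 1 ≤ m) (hM : 0 < M) (b x y : ℕ → ℝ)
    (hb : ∀ i < m, 1 ≤ b i) (hsum : ∑ i ∈ range m, 1 / b i = hh m)
    (hy : ∀ i < m, y i ≤ (m : ℝ) ^ 2)
    (hx : ∀ i < m, x i ≤ (1 / (b i * hh m)) ^ 2 + (y i + 1) / M ^ 2) :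
    ∑ i ∈ range m, x i ≤ 1 / hh m + m * ((m : ℝ) ^ 2 + 1) / M ^ 2 := by
  have hH := hh_pos hm
  have h1 : ∀ i < m, x i ≤ 1 / b i * (1 / hh m ^ 2) + ((m : ℝ) ^ 2 + 1) / M ^ 2 := by
    intro i hi
    have hbi := hb i hi
    have hb0 : 0 < b i := by linarith
    refine (hx i hi).trans ?_
    apply add_le_add
    · have e1 : (1 / (b i * hh m)) ^ 2 = 1 / b i * (1 / hh m ^ 2) * (1 / b i) := by
        field_simp
      rw [e1]
      apply mul_le_of_le_one_right (by positivity)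
      rw [div_le_one hb0]
      exact hbi
    · apply div_le_div_of_nonneg_right _ (by positivity)
      linarith [hy i hi]
  calc ∑ i ∈ range m, x i ≤ ∑ i ∈ range m, (1 / b i * (1 / hh m ^ 2) + ((m : ℝ) ^ 2 + 1) / M ^ 2) :=
        Finset.sum_le_sum fun i hi => h1 i (Finset.mem_range.1 hi)
    _ = 1 / hh m + m * ((m : ℝ) ^ 2 + 1) / M ^ 2 := by
        rw [Finset.sum_add_distrib, ← Finset.sum_mul, hsum, Finset.sum_const, card_range,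
          nsmul_eq_mul]
        field_simp

/-- a column of faces of the second kind -/
theorem EnT_col (hM : 0 < M) (n : ℕ) (a : ℤ) (cc : ℕ → ℤ) {q : ℝ}
    (hq : (hf m a - hf m (a + 1)) ^ 2 = q) :
    ∑ j ∈ range n, Cf (GG M m) (1, (a, cc j)) ≤ n * (q + 1 / M ^ 2) := by
  calc ∑ j ∈ range n, Cf (GG M m) (1, (a, cc j)) ≤ ∑ _j ∈ range n, (q + 1 / M ^ 2) := by
        refine Finset.sum_le_sum fun j _ => ?_
        rw [← hq]
        exact Cf1 hM m a (cc j)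
    _ = n * (q + 1 / M ^ 2) := by
        rw [Finset.sum_const, card_range, nsmul_eq_mul]

theorem EnT_b1 {m : ℕ} : ∀ i < m, 1 ≤ (m : ℝ) - i := by
  intro i hi
  have : ((i + 1 : ℕ) : ℝ) ≤ m := by exact_mod_cast hi
  push_cast at this
  linarith

theorem EnT_b1' {m : ℕ} : ∀ i < m, (m : ℝ) - i ≤ m := by
  intro i _
  have : (0 : ℝ) ≤ i := Nat.cast_nonneg i
  linarith

theorem EnT_b2 {m : ℕ} : ∀ i < m, 1 ≤ (i : ℝ) + 1 := by
  intro i _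
  have : (0 : ℝ) ≤ i := Nat.cast_nonneg i
  linarith

theorem EnT_b2' {m : ℕ} : ∀ i < m, (i : ℝ) + 1 ≤ m := by
  intro i hi
  exact_mod_cast hi

theorem cfT1 (hm : 1 ≤ m) (hM : 0 < M) (c : ℤ) :
    msum (Cf (GG M m)) (T1 0 c m) ≤ 1 / hh m + (m : ℝ) ^ 2 / M ^ 2 := by
  have e : msum (Cf (GG M m)) (T1 0 c m) = ∑ i ∈ range m, ∑ j ∈ range (m - i),
      Cf (GG M m) (1, ((0 : ℤ) - 1 - i, c - j - 1)) := by
    unfold T1
    rw [msum_sum]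
    refine Finset.sum_congr rfl fun i _ => ?_
    rw [msum_sum]
    exact Finset.sum_congr rfl fun j _ => msum_sg _ _ _ _
  rw [e]
  refine EnT_blk hm hM le_rfl (fun i => m - i) (fun i => (m : ℝ) - i) _ EnT_b1 EnT_b1' ?_
    (EnT_sum m) ?_
  · intro i hi
    exact (Nat.cast_sub hi.le).le
  · intro i hi
    have h0 : (0 : ℤ) - 1 - i = -1 - i := by ring
    rw [h0]
    exact EnT_col hM (m - i) (-1 - i) (fun j => c - j - 1) (EnT_sq2 hi)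

theorem cfT2 (hm : 1 ≤ m) (hM : 0 < M) (c : ℤ) :
    msum (Cf (GG M m)) (T2 m c m) ≤ 1 / hh m + (m : ℝ) ^ 2 / M ^ 2 := by
  have e : msum (Cf (GG M m)) (T2 m c m) = ∑ i ∈ range m, ∑ j ∈ range i,
      Cf (GG M m) (1, ((m : ℤ) - i - 1, c + j)) := by
    unfold T2
    rw [msum_sum]
    refine Finset.sum_congr rfl fun i _ => ?_
    rw [msum_sum]
    exact Finset.sum_congr rfl fun j _ => msum_sg _ _ _ _
  rw [e]
  refine EnT_blk hm hM le_rfl (fun i => i) (fun i => (i : ℝ) + 1) _ EnT_b2 EnT_b2' ?_ rfl ?_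
  · intro i _
    show (i : ℝ) ≤ (i : ℝ) + 1
    linarith
  · intro i hi
    exact EnT_col hM i ((m : ℤ) - i - 1) (fun j => c + j) (EnT_sq3 hi)

theorem cfT3 (hm : 1 ≤ m) (hM : 0 < M) (c : ℤ) :
    msum (Cf (GG M m)) (T3 0 c (m - 1)) ≤ 1 / hh m + (m : ℝ) ^ 2 / M ^ 2 := by
  have e : msum (Cf (GG M m)) (T3 0 c (m - 1)) = ∑ i ∈ range (m - 1), ∑ j ∈ range (m - 1 - i),
      Cf (GG M m) (1, ((0 : ℤ) + i, c + j)) := by
    unfold T3
    rw [msum_sum]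
    refine Finset.sum_congr rfl fun i _ => ?_
    rw [msum_sum]
    exact Finset.sum_congr rfl fun j _ => msum_sg _ _ _ _
  rw [e]
  refine EnT_blk hm hM (Nat.sub_le m 1) (fun i => m - 1 - i) (fun i => (m : ℝ) - i) _ EnT_b1
    EnT_b1' ?_ (EnT_sum m) ?_
  · intro i hi
    have h1 : ((m - 1 - i : ℕ) : ℝ) ≤ ((m - i : ℕ) : ℝ) := by
      exact_mod_cast (by omega : m - 1 - i ≤ m - i)
    have h2 : ((m - i : ℕ) : ℝ) = (m : ℝ) - i := Nat.cast_sub (by omega)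
    show ((m - 1 - i : ℕ) : ℝ) ≤ (m : ℝ) - i
    rw [← h2]
    exact h1
  · intro i hi
    rw [zero_add]
    exact EnT_col hM (m - 1 - i) (i : ℤ) (fun j => c + j) (EnT_sq1 (by omega))

theorem cfT4 (hm : 1 ≤ m) (hM : 0 < M) (c : ℤ) :
    msum (Cf (GG M m)) (T4 (-m) c m) ≤ 1 / hh m + (m : ℝ) ^ 2 / M ^ 2 := by
  have e : msum (Cf (GG M m)) (T4 (-m) c m) = ∑ i ∈ range m, ∑ j ∈ range (i + 1),
      Cf (GG M m) (1, (-(m : ℤ) + i, c - j - 1)) := by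
    unfold T4
    rw [msum_sum]
    refine Finset.sum_congr rfl fun i _ => ?_
    rw [msum_sum]
    exact Finset.sum_congr rfl fun j _ => msum_sg _ _ _ _
  rw [e]
  refine EnT_blk hm hM le_rfl (fun i => i + 1) (fun i => (i : ℝ) + 1) _ EnT_b2 EnT_b2' ?_ rfl ?_
  · intro i _
    show ((i + 1 : ℕ) : ℝ) ≤ (i : ℝ) + 1
    push_cast
    exact le_rfl
  · intro i hi
    exact EnT_col hM (i + 1) (-(m : ℤ) + i) (fun j => c - j - 1) (EnT_sq4 hi)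

theorem cfPa (hm : 1 ≤ m) (hM : 0 < M) (cc : ℕ → ℤ) :
    ∑ i ∈ range m, Cf (GG M m) (0, ((m : ℤ) - i - 1, cc i)) ≤
      1 / hh m + m * ((m : ℝ) ^ 2 + 1) / M ^ 2 := by
  refine EnT_row hm hM (fun i => (i : ℝ) + 1) _
    (fun i => (((m : ℤ) - i - 1 + 1 : ℤ) : ℝ) ^ 2) EnT_b2 rfl ?_ ?_
  · intro i hi
    have h1 := EnT_b1' (m := m) i hi
    have h2 := EnT_b1 (m := m) i hi
    show (((m : ℤ) - i - 1 + 1 : ℤ) : ℝ) ^ 2 ≤ (m : ℝ) ^ 2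
    push_cast
    nlinarith
  · intro i hi
    show Cf (GG M m) (0, ((m : ℤ) - i - 1, cc i)) ≤ (1 / (((i : ℝ) + 1) * hh m)) ^ 2 +
      ((((m : ℤ) - i - 1 + 1 : ℤ) : ℝ) ^ 2 + 1) / M ^ 2
    rw [← EnT_sq3 hi]
    exact Cf0 hM m _ _

theorem cfPb (hm : 1 ≤ m) (hM : 0 < M) (cc : ℕ → ℤ) :
    ∑ i ∈ range m, Cf (GG M m) (0, (-(m : ℤ) + i, cc i)) ≤
      1 / hh m + m * ((m : ℝ) ^ 2 + 1) / M ^ 2 := by
  refine EnT_row hm hM (fun i => (i : ℝ) + 1) _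
    (fun i => ((-(m : ℤ) + i + 1 : ℤ) : ℝ) ^ 2) EnT_b2 rfl ?_ ?_
  · intro i hi
    have h1 := EnT_b2' (m := m) i hi
    have h2 : (0 : ℝ) ≤ i := Nat.cast_nonneg i
    show ((-(m : ℤ) + i + 1 : ℤ) : ℝ) ^ 2 ≤ (m : ℝ) ^ 2
    push_cast
    nlinarith
  · intro i hi
    show Cf (GG M m) (0, (-(m : ℤ) + i, cc i)) ≤ (1 / (((i : ℝ) + 1) * hh m)) ^ 2 +
      (((-(m : ℤ) + i + 1 : ℤ) : ℝ) ^ 2 + 1) / M ^ 2
    rw [← EnT_sq4 hi]
    exact Cf0 hM m _ _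

theorem cfPc (hm : 1 ≤ m) (hM : 0 < M) (cc : ℕ → ℤ) :
    ∑ i ∈ range m, Cf (GG M m) (0, (-(i : ℤ) - 1, cc i)) ≤
      1 / hh m + m * ((m : ℝ) ^ 2 + 1) / M ^ 2 := by
  refine EnT_row hm hM (fun i => (m : ℝ) - i) _
    (fun i => ((-1 - (i : ℤ) + 1 : ℤ) : ℝ) ^ 2) EnT_b1 (EnT_sum m) ?_ ?_
  · intro i hi
    have h1 := EnT_b2' (m := m) i hi
    have h2 : (0 : ℝ) ≤ i := Nat.cast_nonneg i
    show ((-1 - (i : ℤ) + 1 : ℤ) : ℝ) ^ 2 ≤ (m : ℝ) ^ 2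
    push_cast
    nlinarith
  · intro i hi
    have h0 : -(i : ℤ) - 1 = -1 - i := by ring
    show Cf (GG M m) (0, (-(i : ℤ) - 1, cc i)) ≤ (1 / (((m : ℝ) - i) * hh m)) ^ 2 +
      (((-1 - (i : ℤ) + 1 : ℤ) : ℝ) ^ 2 + 1) / M ^ 2
    rw [← EnT_sq2 hi, h0]
    exact Cf0 hM m _ _

theorem cfPd (hm : 1 ≤ m) (hM : 0 < M) (cc : ℕ → ℤ) :
    ∑ i ∈ range m, Cf (GG M m) (0, ((i : ℤ), cc i)) ≤
      1 / hh m + m * ((m : ℝ) ^ 2 + 1) / M ^ 2 := by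
  refine EnT_row hm hM (fun i => (m : ℝ) - i) _
    (fun i => (((i : ℤ) + 1 : ℤ) : ℝ) ^ 2) EnT_b1 (EnT_sum m) ?_ ?_
  · intro i hi
    have h1 := EnT_b2' (m := m) i hi
    have h2 : (0 : ℝ) ≤ i := Nat.cast_nonneg i
    show (((i : ℤ) + 1 : ℤ) : ℝ) ^ 2 ≤ (m : ℝ) ^ 2
    push_cast
    nlinarith
  · intro i hi
    show Cf (GG M m) (0, ((i : ℤ), cc i)) ≤ (1 / (((m : ℝ) - i) * hh m)) ^ 2 +
      ((((i : ℤ) + 1 : ℤ) : ℝ) ^ 2 + 1) / M ^ 2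
    rw [← EnT_sq1 hi]
    exact Cf0 hM m _ _

end Pool.Agent.H86.SD
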