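import Pool.Agent.H86.SD.Cyc

/-!
# SD-Fac: the boundary cycle of an inner face, explicitly

`face_cases`: by `rel_cyc` there are `k, n` with `((cyc (some i)).map lab).rotate n = rel k` or
`= winv (rel k)`.  Let `l = (cyc (some i)).rotate n`: `l.map lab = rel k` (`List.map_rotate`),
`l.map φ = l.rotate 1` (`map_cyc`, `List.map_rotate`, `List.rotate_rotate`, `Nat.add_comm`), and
`(l.map f).sum = ((cyc (some i)).map f).sum` (`List.map_rotate`, a rotation is a permutation: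
`List.rotate_perm`, `List.Perm.sum_eq`).  `k = 0, 1, 2`: `rel 0 = [lx, ly, lX, lY, lZ]`,
`winv (rel 0) = [lz, ly, lx, lY, lX]`, `rel 1 = [lx, lz, lX, lZ]`, `winv (rel 1) = [lz, lx, lZ, lX]`,
`rel 2 = [ly, lz, lY, lZ]`, `winv (rel 2) = [lz, ly, lZ, lY]` (`decide`/`rfl`).  As `l` has length 5 or 4
it is an explicit list (`match l with`, lengths from `congrArg List.length`), and all the equations
are components of `l.map φ = l.rotate 1` and `l.map lab = ..` (`simp`).
-/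

noncomputable section

namespace Pool.Agent.H86.SD

/-- `d0, .., d4` is the boundary cycle of a face with the labels `w0, .., w4` -/
def Is5 (P : Pre) (i : P.I) (w0 w1 w2 w3 w4 : Letter) : Prop :=
  ∃ d0 d1 d2 d3 d4 : P.D, P.φ d0 = d1 ∧ P.φ d1 = d2 ∧ P.φ d2 = d3 ∧ P.φ d3 = d4 ∧ P.φ d4 = d0 ∧
    P.lab d0 = w0 ∧ P.lab d1 = w1 ∧ P.lab d2 = w2 ∧ P.lab d3 = w3 ∧ P.lab d4 = w4 ∧
    ∀ f : P.D → ℝ, ((P.cyc (some i)).map f).sum = f d0 + f d1 + f d2 + f d3 + f d4

/-- `d0, .., d3` is the boundary cycle of a face with the labels `w0, .., w3` -/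
def Is4 (P : Pre) (i : P.I) (w0 w1 w2 w3 : Letter) : Prop :=
  ∃ d0 d1 d2 d3 : P.D, P.φ d0 = d1 ∧ P.φ d1 = d2 ∧ P.φ d2 = d3 ∧ P.φ d3 = d0 ∧
    P.lab d0 = w0 ∧ P.lab d1 = w1 ∧ P.lab d2 = w2 ∧ P.lab d3 = w3 ∧
    ∀ f : P.D → ℝ, ((P.cyc (some i)).map f).sum = f d0 + f d1 + f d2 + f d3

theorem fac_rot (P : Pre) (i : P.I) {L : List Letter}
    (h : List.IsRotated ((P.cyc (some i)).map P.lab) L) :
    ∃ l : List P.D, l.map P.lab = L ∧ l.map P.φ = l.rotate 1 ∧
      ∀ f : P.D → ℝ, (l.map f).sum = ((P.cyc (some i)).map f).sum := by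
  obtain ⟨n, hn⟩ := h
  refine ⟨(P.cyc (some i)).rotate n, ?_, ?_, ?_⟩
  · rw [List.map_rotate]
    exact hn
  · rw [List.map_rotate, P.map_cyc, List.rotate_rotate, List.rotate_rotate, Nat.add_comm]
  · intro f
    rw [List.map_rotate]
    exact (List.rotate_perm _ _).sum_eq

theorem fac_five (P : Pre) (i : P.I) {w0 w1 w2 w3 w4 : Letter}
    (h : List.IsRotated ((P.cyc (some i)).map P.lab) [w0, w1, w2, w3, w4]) :
    Is5 P i w0 w1 w2 w3 w4 := by
  obtain ⟨l, h1, h2, h3⟩ := fac_rot P i h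
  match l, h1, h2, h3 with
  | [d0, d1, d2, d3, d4], h1, h2, h3 =>
    simp only [List.map_cons, List.map_nil, List.cons.injEq, and_true] at h1
    simp only [List.map_cons, List.map_nil, List.rotate_cons_succ, List.rotate_zero,
      List.cons_append, List.nil_append, List.cons.injEq, and_true] at h2
    refine ⟨d0, d1, d2, d3, d4, h2.1, h2.2.1, h2.2.2.1, h2.2.2.2.1, h2.2.2.2.2, h1.1, h1.2.1,
      h1.2.2.1, h1.2.2.2.1, h1.2.2.2.2, fun f => ?_⟩
    rw [← h3 f]
    simp only [List.map_cons, List.map_nil, List.sum_cons, List.sum_nil]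
    ring

theorem fac_four (P : Pre) (i : P.I) {w0 w1 w2 w3 : Letter}
    (h : List.IsRotated ((P.cyc (some i)).map P.lab) [w0, w1, w2, w3]) :
    Is4 P i w0 w1 w2 w3 := by
  obtain ⟨l, h1, h2, h3⟩ := fac_rot P i h
  match l, h1, h2, h3 with
  | [d0, d1, d2, d3], h1, h2, h3 =>
    simp only [List.map_cons, List.map_nil, List.cons.injEq, and_true] at h1
    simp only [List.map_cons, List.map_nil, List.rotate_cons_succ, List.rotate_zero,
      List.cons_append, List.nil_append, List.cons.injEq, and_true] at h2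
    refine ⟨d0, d1, d2, d3, h2.1, h2.2.1, h2.2.2.1, h2.2.2.2, h1.1, h1.2.1,
      h1.2.2.1, h1.2.2.2, fun f => ?_⟩
    rw [← h3 f]
    simp only [List.map_cons, List.map_nil, List.sum_cons, List.sum_nil]
    ring

theorem Pre.face_cases (P : Pre) (i : P.I) :
    Is5 P i lx ly lX lY lZ ∨ Is5 P i lz ly lx lY lX ∨ Is4 P i lx lz lX lZ ∨ Is4 P i lz lx lZ lX ∨
      Is4 P i ly lz lY lZ ∨ Is4 P i lz ly lZ lY := by
  obtain ⟨k, h⟩ := P.rel_cyc i
  fin_cases k
  · rcases h with h | h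
    · exact Or.inl (fac_five P i h)
    · exact Or.inr (Or.inl (fac_five P i h))
  · rcases h with h | h
    · exact Or.inr (Or.inr (Or.inl (fac_four P i h)))
    · exact Or.inr (Or.inr (Or.inr (Or.inl (fac_four P i h))))
  · rcases h with h | h
    · exact Or.inr (Or.inr (Or.inr (Or.inr (Or.inl (fac_four P i h)))))
    · exact Or.inr (Or.inr (Or.inr (Or.inr (Or.inr (fac_four P i h)))))

end Pool.Agent.H86.SD
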