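import Pool.Agent.H86.SD.Mass
import Pool.Agent.H86.SD.EnL
import Pool.Agent.H86.SD.Bdr
import Pool.Agent.H86.SD.CalC

/-!
# SD-Fin: the upper bound for `LamStar`

* `lam_m`: `m ≥ 2`.  `Rz.diagram (rz_all hm ..)` with `k = m`, `G = GG ((2m+1)m) m`, `GG_bdr`, and the mass is
  positive (`mass_low`): a diagram `Δ` with word `WW m m`, `card I = card (LT m m) = NN m m` (`card_LT`) and
  `mu ≤ 2 * (21 m / H) / (m^3/648) = 27216 / (m^2 H)` (`cfLT`, `mass_low`; `div_le_div`).  `Δ` is minimal: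
  `red_WW`; for `Δ'` with the word `WW m m`: `NN m m = |bsum ((2m+1)m) (m, m m) (WW m m)| ≤ card I'`
  (`bsum_WW`, `Diagram.card_ge`).  The length is `4 (2m+1) + 4m = 12m + 4` (`length_WW`).
* `lam_mono`: a smaller set in the infimum.
* `lam_le`: `n ≥ 28`, `m = (n - 4) / 12 ≥ 2`, `12m + 4 ≤ n ≤ 12m + 15 ≤ 20m`, `n ≤ (m+1)^4`,
  `hh m ≥ log (m+1) ≥ (log n)/4` (`hh m = harmonic m`, `log_add_one_le_harmonic`).
  `27216/(m^2 hh m) ≤ 27216 * 400 * 4 / (n^2 log n)`.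
-/

open scoped ENNReal

noncomputable section

namespace Pool.Agent.H86.SD

theorem lam_m {m : ℕ} (hm : 2 ≤ m) :
    LamStar (12 * m + 4) ≤ ENNReal.ofReal (27216 / ((m : ℝ) ^ 2 * hh m)) := by
  have hm1 : 1 ≤ m := by omega
  have hmpos : (0 : ℝ) < m := by exact_mod_cast hm1
  have hH : 0 < hh m := hh_pos hm1
  have hlow := mass_low hm
  have hM : 0 < ((LT m m).map (Mf (GG ((2 * m + 1) * m) m))).sum := by
    have h1 : (0 : ℝ) < (m : ℝ) ^ 3 / 648 := by positivity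
    exact lt_of_lt_of_le h1 hlow
  obtain ⟨Δ, hw, hc, hmu⟩ := Rz.diagram (rz_all hm hm1) (GG ((2 * m + 1) * m) m)
    (GG_bdr hm1) hM
  have hmin : Δ.Minimal ∧ Δ.toPre.word.length ≤ 12 * m + 4 := by
    refine ⟨⟨?_, ?_⟩, ?_⟩
    · rw [hw]
      exact red_WW hm1 hm1
    · intro Δ' h
      have h1 := Δ'.card_ge ((2 * m + 1) * m) ((m : ℝ), (m : ℝ) * m)
      rw [h, hw, bsum_WW, abs_of_nonneg (Nat.cast_nonneg _)] at h1
      rw [hc, card_LT hm1 hm1]
      exact_mod_cast h1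
    · rw [hw, length_WW]
      omega
  refine (iInf₂_le Δ hmin).trans (hmu.trans ?_)
  apply ENNReal.ofReal_le_ofReal
  have hC := cfLT hm1
  have h1 : 2 * ((LT m m).map (Cf (GG ((2 * m + 1) * m) m))).sum /
      ((LT m m).map (Mf (GG ((2 * m + 1) * m) m))).sum ≤
      2 * (21 * m / hh m) / ((m : ℝ) ^ 3 / 648) := by
    apply div_le_div₀
    · positivity
    · exact mul_le_mul_of_nonneg_left hC (by norm_num)
    · positivity
    · exact hlow
  refine h1.trans (le_of_eq ?_)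
  field_simp
  ring

theorem lam_mono {n n' : ℕ} (h : n ≤ n') : LamStar n' ≤ LamStar n := by
  unfold LamStar
  refine le_iInf₂ fun Δ hΔ => ?_
  exact iInf₂_le Δ ⟨hΔ.1, hΔ.2.trans h⟩

theorem hh_log (m : ℕ) : Real.log (m + 1) ≤ hh m := by
  have h1 := log_add_one_le_harmonic m
  have h2 : ((harmonic m : ℚ) : ℝ) = hh m := by
    unfold harmonic hh
    push_cast
    refine Finset.sum_congr rfl fun i _ => ?_
    rw [one_div]
  rw [h2] at h1
  exact_mod_cast h1

theorem lam_le {n : ℕ} (hn : 28 ≤ n) :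
    LamStar n ≤ ENNReal.ofReal (43545600 / ((n : ℝ) ^ 2 * Real.log n)) := by
  obtain ⟨m, hm⟩ : ∃ m, m = (n - 4) / 12 := ⟨_, rfl⟩
  have hm2 : 2 ≤ m := by omega
  have hle : 12 * m + 4 ≤ n := by omega
  have hge : n ≤ 20 * m := by omega
  have hge' : n ≤ 12 * m + 15 := by omega
  refine (lam_mono hle).trans ((lam_m hm2).trans ?_)
  apply ENNReal.ofReal_le_ofReal
  have hmpos : (0 : ℝ) < m := by exact_mod_cast (by omega : 0 < m)
  have hnpos : (0 : ℝ) < n := by exact_mod_cast (by omega : 0 < n)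
  have hH : 0 < hh m := hh_pos (by omega)
  have hlogn : 0 < Real.log n := Real.log_pos (by exact_mod_cast (by omega : 1 < n))
  have h4 : (n : ℝ) ≤ ((m : ℝ) + 1) ^ 4 := by
    have h5 : n ≤ (m + 1) ^ 4 := by
      refine hge'.trans ?_
      have h6 : (m + 1) ^ 4 = (m + 1) * (m + 1) * ((m + 1) * (m + 1)) := by ring
      rw [h6]
      nlinarith [Nat.mul_le_mul (show 3 ≤ m + 1 by omega) (show 3 ≤ m + 1 by omega)]
    exact_mod_cast h5
  have hlog : Real.log n ≤ 4 * hh m := by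
    have h5 : Real.log n ≤ Real.log (((m : ℝ) + 1) ^ 4) := Real.log_le_log hnpos h4
    rw [Real.log_pow] at h5
    have h6 := hh_log m
    push_cast at h5
    linarith
  have hn20 : (n : ℝ) ≤ 20 * m := by exact_mod_cast hge
  rw [div_le_div_iff₀ (by positivity) (by positivity)]
  have h7 : (n : ℝ) ^ 2 ≤ 400 * (m : ℝ) ^ 2 := by nlinarith
  have h8 : (n : ℝ) ^ 2 * Real.log n ≤ (400 * (m : ℝ) ^ 2) * (4 * hh m) :=
    mul_le_mul h7 hlog hlogn.le (by positivity)
  nlinarith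

end Pool.Agent.H86.SD
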