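import Pool.Agent.H86.SD.Bas

/-!
# SD-LinA: functions on the oriented edges

`del f` is the difference of a function `f` on the vertices, `eps g` the difference of a function on
the faces, `anti` the space of antisymmetric functions on the oriented edges.
* `del_mem`: `vtx (φ (α d)) = vtx d` (`vtx_φα`), `vtx (α d) = vtx (φ d)` (`vtx_α`).
* `eps_mem`: `α (α d) = d`.
* `orth`: for `ω` antisymmetric: `∑ ω d (g (fc d) - g (fc (α d))) = 2 ∑ ω d g (fc d)` (substitute `α`:
  `Equiv.sum_comp P.α`); for `ω = del f`: `∑ f (vtx (φ d)) g (fc d) - ∑ f (vtx d) g (fc d) = 0`, since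
  `g (fc d) = g (fc (φ d))` (`fc_φ`) and `Equiv.sum_comp P.φ`.
* `finrank_anti`: `lab (α d)` and `lab d` have opposite signs (`lab_α`, `linv`).  So `α` is a bijection
  from the set `D⁺` of the edges with sign `true` to its complement, `card D = 2 card D⁺`; and
  restriction to `D⁺` is a linear isomorphism `anti ≃ (D⁺ → ℝ)` with inverse
  `h ↦ (d ↦ if (lab d).2 then h d else - h (α d))`; `Module.finrank_fintype_fun_eq_card`.
-/

noncomputable section

namespace Pool.Agent.H86.SD

namespace Pre

variable (P : Pre)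

/-- the difference of a function on the vertices along an oriented edge -/
def del : (P.Vert → ℝ) →ₗ[ℝ] (P.D → ℝ) where
  toFun f d := f (P.vtx (P.φ d)) - f (P.vtx d)
  map_add' f g := by
    ext d
    simp only [Pi.add_apply]
    ring
  map_smul' c f := by
    ext d
    simp only [Pi.smul_apply, smul_eq_mul, RingHom.id_apply]
    ring

/-- the difference of a function on the faces across an oriented edge -/
def eps : (Option P.I → ℝ) →ₗ[ℝ] (P.D → ℝ) where
  toFun g d := g (P.fc d) - g (P.fc (P.α d))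
  map_add' f g := by
    ext d
    simp only [Pi.add_apply]
    ring
  map_smul' c f := by
    ext d
    simp only [Pi.smul_apply, smul_eq_mul, RingHom.id_apply]
    ring

theorem del_apply (f : P.Vert → ℝ) (d : P.D) : P.del f d = f (P.vtx (P.φ d)) - f (P.vtx d) := rfl

theorem eps_apply (g : Option P.I → ℝ) (d : P.D) :
    P.eps g d = g (P.fc d) - g (P.fc (P.α d)) := rfl

/-- antisymmetric functions -/
def anti : Submodule ℝ (P.D → ℝ) where
  carrier := {ω | ∀ d, ω (P.α d) = - ω d}
  zero_mem' := by intro d; simp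
  add_mem' := by
    intro a b ha hb d
    simp only [Pi.add_apply]
    rw [ha d, hb d]
    ring
  smul_mem' := by
    intro c a ha d
    simp only [Pi.smul_apply, smul_eq_mul]
    rw [ha d]
    ring

theorem mem_anti (ω : P.D → ℝ) : ω ∈ P.anti ↔ ∀ d, ω (P.α d) = - ω d := Iff.rfl

theorem del_mem (f : P.Vert → ℝ) : P.del f ∈ P.anti := by
  intro d
  rw [del_apply, del_apply, P.vtx_φα, P.vtx_α]
  ring

theorem eps_mem (g : Option P.I → ℝ) : P.eps g ∈ P.anti := by
  intro d
  rw [eps_apply, eps_apply, P.α_α]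
  ring

theorem sum_mul_eps (ω : P.D → ℝ) (hω : ω ∈ P.anti) (g : Option P.I → ℝ) :
    ∑ d, ω d * P.eps g d = 2 * ∑ d, ω d * g (P.fc d) := by
  have h1 : ∑ d, ω d * g (P.fc (P.α d)) = -∑ d, ω d * g (P.fc d) := by
    rw [← Equiv.sum_comp P.α, ← Finset.sum_neg_distrib]
    refine Finset.sum_congr rfl fun d _ => ?_
    rw [P.α_α, (P.mem_anti ω).1 hω d]
    ring
  have h2 : ∑ d, ω d * P.eps g d = ∑ d, ω d * g (P.fc d) - ∑ d, ω d * g (P.fc (P.α d)) := by
    rw [← Finset.sum_sub_distrib]
    refine Finset.sum_congr rfl fun d _ => ?_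
    rw [eps_apply]
    ring
  rw [h2, h1]
  ring

theorem orth (f : P.Vert → ℝ) (g : Option P.I → ℝ) : ∑ d, P.del f d * P.eps g d = 0 := by
  rw [P.sum_mul_eps _ (P.del_mem f) g]
  have h1 : ∑ d, f (P.vtx (P.φ d)) * g (P.fc d) = ∑ d, f (P.vtx d) * g (P.fc d) := by
    rw [← Equiv.sum_comp P.φ (fun d => f (P.vtx d) * g (P.fc d))]
    refine Finset.sum_congr rfl fun d _ => ?_
    rw [P.fc_φ]
  have h2 : ∑ d, P.del f d * g (P.fc d) =
      ∑ d, f (P.vtx (P.φ d)) * g (P.fc d) - ∑ d, f (P.vtx d) * g (P.fc d) := by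
    rw [← Finset.sum_sub_distrib]
    refine Finset.sum_congr rfl fun d _ => ?_
    rw [del_apply]
    ring
  rw [h2, h1, sub_self, mul_zero]

theorem linA_snd (d : P.D) : (P.lab (P.α d)).2 = !(P.lab d).2 := by
  rw [P.lab_α]
  rfl

/-- the positively oriented edges and the others -/
def linA_flip : {d : P.D // (P.lab d).2 = true} ≃ {d : P.D // ¬ (P.lab d).2 = true} where
  toFun d := ⟨P.α d.1, by rw [P.linA_snd, d.2]; simp⟩
  invFun d := ⟨P.α d.1, by
    have h := d.2
    rw [P.linA_snd]
    simpa using h⟩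
  left_inv d := Subtype.ext (P.α_α d.1)
  right_inv d := Subtype.ext (P.α_α d.1)

/-- restriction to the positively oriented edges -/
def linA_equiv : P.anti ≃ₗ[ℝ] ({d : P.D // (P.lab d).2 = true} → ℝ) where
  toFun ω d := ω.1 d.1
  map_add' _ _ := rfl
  map_smul' _ _ := rfl
  invFun h := ⟨fun d => if hd : (P.lab d).2 = true then h ⟨d, hd⟩ else
      - h ⟨P.α d, by rw [P.linA_snd]; simpa using hd⟩, by
    intro d
    by_cases hd : (P.lab d).2 = true
    · have hd2 : ¬ (P.lab (P.α d)).2 = true := by rw [P.linA_snd, hd]; simp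
      beta_reduce
      rw [dif_pos hd, dif_neg hd2]
      have h3 : ∀ (x : P.D) (hx : (P.lab x).2 = true), x = d → h ⟨x, hx⟩ = h ⟨d, hd⟩ := by
        intro x hx e
        subst e
        rfl
      rw [h3 _ _ (P.α_α d)]
    · have hd2 : (P.lab (P.α d)).2 = true := by rw [P.linA_snd]; simpa using hd
      beta_reduce
      rw [dif_neg hd, dif_pos hd2, neg_neg]⟩
  left_inv ω := by
    apply Subtype.ext
    funext d
    change (if hd : (P.lab d).2 = true then ω.1 d else - ω.1 (P.α d)) = ω.1 d
    by_cases hd : (P.lab d).2 = true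
    · rw [dif_pos hd]
    · rw [dif_neg hd, (P.mem_anti ω.1).1 ω.2 d, neg_neg]
  right_inv h := by
    funext d
    exact dif_pos d.2

theorem finrank_anti : 2 * Module.finrank ℝ P.anti = Fintype.card P.D := by
  rw [LinearEquiv.finrank_eq P.linA_equiv, Module.finrank_fintype_fun_eq_card,
    ← Fintype.card_congr (Equiv.sumCompl (fun d : P.D => (P.lab d).2 = true)), Fintype.card_sum,
    ← Fintype.card_congr P.linA_flip, two_mul]

end Pre

end Pool.Agent.H86.SD
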