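import Pool.Agent.H86.SD.LinA

/-!
# SD-LinB: dimensions of the ranges of `del` and `eps`

`ker del` is the space of constant functions: let `del f = 0`.  The function `d ↦ f (vtx d)` is
invariant under `φ` (`del_apply`), and under `α` (`vtx_α`: `vtx (α d) = vtx (φ d)`), so it is constant
by `Pre.conn_induction`; `vtx` is surjective (`Quotient.exists_rep`).  So `finrank (ker del) = 1`
(spanned by the constant function 1, which is not 0 as `D` is nonempty; `finrank_span_singleton`), and
rank-nullity `LinearMap.finrank_range_add_finrank_ker`, `Module.finrank_fintype_fun_eq_card` (use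
`Fintype.ofFinite` and `Nat.card_eq_fintype_card`).
`ker eps`: `d ↦ g (fc d)` is invariant under `α` and under `φ` (`fc_φ`), `fc` is surjective (`fc_surj`);
`card (Option I) = card I + 1`.
-/

noncomputable section

namespace Pool.Agent.H86.SD

namespace Pre

variable (P : Pre)

theorem LinB_ker_del : LinearMap.ker P.del = Submodule.span ℝ {fun _ => (1 : ℝ)} := by
  ext f
  rw [LinearMap.mem_ker, Submodule.mem_span_singleton]
  constructor
  · intro h
    obtain ⟨d0⟩ := (inferInstance : Nonempty P.D)
    have hφ : ∀ d, f (P.vtx (P.φ d)) = f (P.vtx d) := by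
      intro d
      have h1 := congrFun h d
      rw [P.del_apply] at h1
      simp only [Pi.zero_apply] at h1
      linarith
    have key : ∀ d, f (P.vtx d) = f (P.vtx d0) := by
      intro d
      refine P.conn_induction (p := fun d => f (P.vtx d) = f (P.vtx d0)) d0 rfl ?_ ?_ d
      · intro d hd
        rw [P.vtx_α, hφ, hd]
      · intro d hd
        rw [hφ, hd]
    refine ⟨f (P.vtx d0), ?_⟩
    ext v
    obtain ⟨d, hd⟩ : ∃ d, P.vtx d = v := Quotient.exists_rep v
    have h2 := key d
    rw [← hd]
    simp only [Pi.smul_apply, smul_eq_mul, mul_one]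
    exact h2.symm
  · rintro ⟨c, rfl⟩
    ext d
    rw [P.del_apply]
    simp

theorem LinB_ker_eps : LinearMap.ker P.eps = Submodule.span ℝ {fun _ => (1 : ℝ)} := by
  ext f
  rw [LinearMap.mem_ker, Submodule.mem_span_singleton]
  constructor
  · intro h
    obtain ⟨d0⟩ := (inferInstance : Nonempty P.D)
    have hα : ∀ d, f (P.fc (P.α d)) = f (P.fc d) := by
      intro d
      have h1 := congrFun h d
      rw [P.eps_apply] at h1
      simp only [Pi.zero_apply] at h1
      linarith
    have key : ∀ d, f (P.fc d) = f (P.fc d0) := by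
      intro d
      refine P.conn_induction (p := fun d => f (P.fc d) = f (P.fc d0)) d0 rfl ?_ ?_ d
      · intro d hd
        rw [hα, hd]
      · intro d hd
        rw [P.fc_φ, hd]
    refine ⟨f (P.fc d0), ?_⟩
    ext i
    obtain ⟨d, rfl⟩ := P.fc_surj i
    have h2 := key d
    simp only [Pi.smul_apply, smul_eq_mul, mul_one]
    exact h2.symm
  · rintro ⟨c, rfl⟩
    ext d
    rw [P.eps_apply]
    simp

theorem finrank_del : Module.finrank ℝ (LinearMap.range P.del) + 1 = Nat.card P.Vert := by
  letI : Fintype P.Vert := Fintype.ofFinite _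
  obtain ⟨d0⟩ := (inferInstance : Nonempty P.D)
  have hne : (fun _ => (1 : ℝ) : P.Vert → ℝ) ≠ 0 := by
    intro h
    have h1 := congrFun h (P.vtx d0)
    simp at h1
  have h := LinearMap.finrank_range_add_finrank_ker P.del
  rw [Module.finrank_fintype_fun_eq_card, LinB_ker_del, finrank_span_singleton hne] at h
  rw [h, Nat.card_eq_fintype_card]

theorem finrank_eps : Module.finrank ℝ (LinearMap.range P.eps) = Fintype.card P.I := by
  have hne : (fun _ => (1 : ℝ) : Option P.I → ℝ) ≠ 0 := by
    intro h
    have h1 := congrFun h none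
    simp at h1
  have h := LinearMap.finrank_range_add_finrank_ker P.eps
  rw [Module.finrank_fintype_fun_eq_card, LinB_ker_eps, finrank_span_singleton hne,
    Fintype.card_option] at h
  omega

end Pre

end Pool.Agent.H86.SD
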