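import Pool.Agent.H86.SD.MacDef

/-!
# SD-MacA: swaps

`swap_Xz` (MacDef.lean) is the model.  `sg k a c` is the multiset with the one element `(k, (a, c))`.
* `swap_ZX`: induction on `r`, `pw [lZ] (r+1) = pw [lZ] r ++ [lZ]` (`pw_succ'`): first
  `pw Z r ++ [Z, X] ⇒ pw Z r ++ [X, Z]` by `r_ZX_XZ a (c - r)` (`walk_Z`; face `(a-1, c-r-1)`), then the
  induction hypothesis with `R.right [lZ]`; `Finset.sum_range_succ`.
* `swap_zx`: the same with `r_zx_xz a (c + r)` (face `(a, c+r)`), `walk_z`.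
* `swap_xZ`: like `swap_Xz`: `[x] ++ Z :: pw Z r ⇒ Z :: [x] ++ pw Z r` by `r_xZ_Zx a c` (face `(a, c-1)`),
  then the hypothesis at `c - 1`; `Finset.sum_range_succ'`.
-/

noncomputable section

namespace Pool.Agent.H86.SD

open Finset

theorem swap_ZX (a c : ℤ) (r : ℕ) : R (a, c) (pw [lZ] r ++ [lX]) ([lX] ++ pw [lZ] r)
    (∑ j ∈ range r, sg 1 (a - 1) (c - j - 1)) := by
  induction r with
  | zero => simpa using R.refl (a, c) [lX]
  | succ r ih =>
    have h1 : R (a, c) (pw [lZ] r ++ [lZ, lX]) (pw [lZ] r ++ [lX, lZ])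
        (sg 1 (a - 1) (c - r - 1)) := by
      apply R.left
      rw [walk_Z]
      exact r_ZX_XZ a (c - r)
    have h2 : R (a, c) ((pw [lZ] r ++ [lX]) ++ [lZ]) (([lX] ++ pw [lZ] r) ++ [lZ])
        (∑ j ∈ range r, sg 1 (a - 1) (c - j - 1)) := R.right [lZ] ih
    have e1 : pw [lZ] (r + 1) ++ [lX] = pw [lZ] r ++ [lZ, lX] := by
      rw [pw_succ', List.append_assoc]
      rfl
    have e2 : [lX] ++ pw [lZ] (r + 1) = ([lX] ++ pw [lZ] r) ++ [lZ] := by
      rw [pw_succ', List.append_assoc]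
    have e3 : (pw [lZ] r ++ [lX]) ++ [lZ] = pw [lZ] r ++ [lX, lZ] := by
      rw [List.append_assoc]
      rfl
    rw [e3] at h2
    rw [e1, e2]
    refine R.cast (R.trans h1 h2) ?_
    rw [Finset.sum_range_succ, add_comm]

theorem swap_zx (a c : ℤ) (r : ℕ) : R (a, c) (pw [lz] r ++ [lx]) ([lx] ++ pw [lz] r)
    (∑ j ∈ range r, sg 1 a (c + j)) := by
  induction r with
  | zero => simpa using R.refl (a, c) [lx]
  | succ r ih =>
    have h1 : R (a, c) (pw [lz] r ++ [lz, lx]) (pw [lz] r ++ [lx, lz])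
        (sg 1 a (c + r)) := by
      apply R.left
      rw [walk_z]
      exact r_zx_xz a (c + r)
    have h2 : R (a, c) ((pw [lz] r ++ [lx]) ++ [lz]) (([lx] ++ pw [lz] r) ++ [lz])
        (∑ j ∈ range r, sg 1 a (c + j)) := R.right [lz] ih
    have e1 : pw [lz] (r + 1) ++ [lx] = pw [lz] r ++ [lz, lx] := by
      rw [pw_succ', List.append_assoc]
      rfl
    have e2 : [lx] ++ pw [lz] (r + 1) = ([lx] ++ pw [lz] r) ++ [lz] := by
      rw [pw_succ', List.append_assoc]
    have e3 : (pw [lz] r ++ [lx]) ++ [lz] = pw [lz] r ++ [lx, lz] := by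
      rw [List.append_assoc]
      rfl
    rw [e3] at h2
    rw [e1, e2]
    refine R.cast (R.trans h1 h2) ?_
    rw [Finset.sum_range_succ, add_comm]

theorem swap_xZ (a c : ℤ) (r : ℕ) : R (a, c) ([lx] ++ pw [lZ] r) (pw [lZ] r ++ [lx])
    (∑ j ∈ range r, sg 1 a (c - j - 1)) := by
  induction r generalizing c with
  | zero => simpa using R.refl (a, c) [lx]
  | succ r ih =>
    have h1 : R (a, c) ([lx] ++ pw [lZ] (r + 1)) ([lZ, lx] ++ pw [lZ] r) (sg 1 a (c - 1)) := by
      rw [pw_succ]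
      exact R.right (pw [lZ] r) (r_xZ_Zx a c)
    have h2 : R (a, c) ([lZ] ++ ([lx] ++ pw [lZ] r)) ([lZ] ++ (pw [lZ] r ++ [lx]))
        (∑ j ∈ range r, sg 1 a (c - 1 - j - 1)) := by
      apply R.left
      have : walk (a, c) [lZ] = (a, c - 1) := by simp
      rw [this]
      exact ih (c - 1)
    have h3 := R.trans h1 h2
    rw [pw_succ]
    refine R.cast h3 ?_
    rw [Finset.sum_range_succ']
    rw [add_comm]
    congr 1
    · refine Finset.sum_congr rfl fun j _ => ?_
      congr 1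
      push_cast
      ring
    · simp

end Pool.Agent.H86.SD
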