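import Pool.Agent.H86.SD.MacDef

/-!
# SD-MacB: corridors of pentagons

All by induction on `m`, adding the last step on the right (`pw_succ'`, `R.right`, `R.left`, `R.trans`,
`R.cast`, `Finset.sum_range_succ`); base case `m = 0` is the first rule (`pw_one`).
* `cor_Zx`: base `r_Zx_yxY a c` (face `(a, c-1)`).  Step: `pw Zx (m+1) ++ [Z,x] ⇒ y x^(m+1) Y Z x ⇒
  y x^(m+1) x Y` by `r_YZx_xY` at `walk (a,c) (y x^(m+1)) = (a+m+1, c+a)`: face
  `(a+m+1, c+a-(a+m+1)-1) = (a+m+1, c-(m+1)-1)`.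
* `cor_Xz`: base `r_Xz_yXY a c` (face `(a-1, c)`); step `r_YXz_XY` at `(a-m-1, c+a)`: face
  `(a-m-2, c+a-(a-m-1)) = (a-(m+1)-1, c+(m+1))`.
* `cor_X`: base `r_X_YXzy a c` (face `(a-1, c-a)`); step: `Y (Xz)^(m+1) y X ⇒ Y (Xz)^(m+1) X z y` by
  `r_yX_Xzy` at `walk (a,c) (Y (Xz)^(m+1)) = (a-m-1, c-a+m+1)`: face `(a-m-2, c-a+m+1)`.
* `cor_x`: base `r_x_YZxy a c` (face `(a, c-a-1)`); step `r_yx_Zxy` at `(a+m+1, c-a-m-1)`: face
  `(a+m+1, c-a-m-2)`.
* `wedge`: induction on `r` (base: `R.refl`): `X^r Y (Zx)^r ⇒ X^r X Y Z x (Zx)^r` by `r_Y_XYZx` at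
  `(a-r, c)`: face `(a-r-1, c-(a-r))`; `[Z,x] ++ pw Zx r = pw Zx (r+1)` (`pw_succ`).
-/

noncomputable section

namespace Pool.Agent.H86.SD

open Finset

theorem cor_Zx (a c : ℤ) (m : ℕ) :
    R (a, c) (pw [lZ, lx] (m + 1)) ([ly] ++ pw [lx] (m + 1) ++ [lY])
      (∑ j ∈ range (m + 1), sg 0 (a + j) (c - j - 1)) := by
  induction m with
  | zero =>
    have h := r_Zx_yxY a c
    rw [Finset.sum_range_one, Nat.cast_zero, add_zero, sub_zero, zero_add, pw_one, pw_one]
    exact h
  | succ m ih =>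
    have h1 := R.right [lZ, lx] ih
    have hw : walk (a, c) ([ly] ++ pw [lx] (m + 1)) = (a + (m + 1), c + a) := by
      rw [walk_append, walk_cons, step_y, walk_nil, walk_x]
      push_cast
      rfl
    have h2 : R (a, c) (([ly] ++ pw [lx] (m + 1)) ++ [lY, lZ, lx])
        (([ly] ++ pw [lx] (m + 1)) ++ [lx, lY]) (sg 0 (a + (m + 1)) (c - (m + 1) - 1)) := by
      apply R.left
      rw [hw]
      refine R.cast (r_YZx_xY (a + (m + 1)) (c + a)) ?_
      have e : c + a - (a + (m + 1)) - 1 = c - ((m : ℤ) + 1) - 1 := by ring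
      rw [e]
      rfl
    have e1 : ([ly] ++ pw [lx] (m + 1) ++ [lY]) ++ [lZ, lx] =
        ([ly] ++ pw [lx] (m + 1)) ++ [lY, lZ, lx] := by
      simp only [List.append_assoc, List.cons_append, List.nil_append]
    have e2 : ([ly] ++ pw [lx] (m + 1)) ++ [lx, lY] = [ly] ++ pw [lx] (m + 1 + 1) ++ [lY] := by
      rw [pw_succ' [lx] (m + 1)]
      simp only [List.append_assoc, List.cons_append, List.nil_append]
    rw [e1] at h1
    rw [e2] at h2
    rw [pw_succ' [lZ, lx] (m + 1)]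
    refine R.cast (R.trans h1 h2) ?_
    rw [Finset.sum_range_succ _ (m + 1)]
    push_cast
    rfl

theorem cor_Xz (a c : ℤ) (m : ℕ) :
    R (a, c) (pw [lX, lz] (m + 1)) ([ly] ++ pw [lX] (m + 1) ++ [lY])
      (∑ j ∈ range (m + 1), sg 0 (a - j - 1) (c + j)) := by
  induction m with
  | zero =>
    have h := r_Xz_yXY a c
    rw [Finset.sum_range_one, Nat.cast_zero, add_zero, sub_zero, zero_add, pw_one, pw_one]
    exact h
  | succ m ih =>
    have h1 := R.right [lX, lz] ih
    have hw : walk (a, c) ([ly] ++ pw [lX] (m + 1)) = (a - (m + 1), c + a) := by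
      rw [walk_append, walk_cons, step_y, walk_nil, walk_X]
      push_cast
      rfl
    have h2 : R (a, c) (([ly] ++ pw [lX] (m + 1)) ++ [lY, lX, lz])
        (([ly] ++ pw [lX] (m + 1)) ++ [lX, lY]) (sg 0 (a - (m + 1) - 1) (c + (m + 1))) := by
      apply R.left
      rw [hw]
      refine R.cast (r_YXz_XY (a - (m + 1)) (c + a)) ?_
      have e : c + a - (a - (m + 1)) = c + ((m : ℤ) + 1) := by ring
      rw [e]
      rfl
    have e1 : ([ly] ++ pw [lX] (m + 1) ++ [lY]) ++ [lX, lz] =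
        ([ly] ++ pw [lX] (m + 1)) ++ [lY, lX, lz] := by
      simp only [List.append_assoc, List.cons_append, List.nil_append]
    have e2 : ([ly] ++ pw [lX] (m + 1)) ++ [lX, lY] = [ly] ++ pw [lX] (m + 1 + 1) ++ [lY] := by
      rw [pw_succ' [lX] (m + 1)]
      simp only [List.append_assoc, List.cons_append, List.nil_append]
    rw [e1] at h1
    rw [e2] at h2
    rw [pw_succ' [lX, lz] (m + 1)]
    refine R.cast (R.trans h1 h2) ?_
    rw [Finset.sum_range_succ _ (m + 1)]
    push_cast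
    rfl

theorem cor_X (a c : ℤ) (m : ℕ) :
    R (a, c) (pw [lX] (m + 1)) ([lY] ++ pw [lX, lz] (m + 1) ++ [ly])
      (∑ j ∈ range (m + 1), sg 0 (a - j - 1) (c - a + j)) := by
  induction m with
  | zero =>
    have h := r_X_YXzy a c
    rw [Finset.sum_range_one, Nat.cast_zero, add_zero, sub_zero, zero_add, pw_one, pw_one]
    exact h
  | succ m ih =>
    have h1 := R.right [lX] ih
    have hw : walk (a, c) ([lY] ++ pw [lX, lz] (m + 1)) = (a - (m + 1), c - a + (m + 1)) := by
      rw [walk_append, walk_cons, step_Y, walk_nil, walk_Xz]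
      push_cast
      rfl
    have h2 : R (a, c) (([lY] ++ pw [lX, lz] (m + 1)) ++ [ly, lX])
        (([lY] ++ pw [lX, lz] (m + 1)) ++ [lX, lz, ly])
        (sg 0 (a - (m + 1) - 1) (c - a + (m + 1))) := by
      apply R.left
      rw [hw]
      exact r_yX_Xzy (a - (m + 1)) (c - a + (m + 1))
    have e1 : ([lY] ++ pw [lX, lz] (m + 1) ++ [ly]) ++ [lX] =
        ([lY] ++ pw [lX, lz] (m + 1)) ++ [ly, lX] := by
      simp only [List.append_assoc, List.cons_append, List.nil_append]
    have e2 : ([lY] ++ pw [lX, lz] (m + 1)) ++ [lX, lz, ly] =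
        [lY] ++ pw [lX, lz] (m + 1 + 1) ++ [ly] := by
      rw [pw_succ' [lX, lz] (m + 1)]
      simp only [List.append_assoc, List.cons_append, List.nil_append]
    rw [e1] at h1
    rw [e2] at h2
    rw [pw_succ' [lX] (m + 1)]
    refine R.cast (R.trans h1 h2) ?_
    rw [Finset.sum_range_succ _ (m + 1)]
    push_cast
    rfl

theorem cor_x (a c : ℤ) (m : ℕ) :
    R (a, c) (pw [lx] (m + 1)) ([lY] ++ pw [lZ, lx] (m + 1) ++ [ly])
      (∑ j ∈ range (m + 1), sg 0 (a + j) (c - a - j - 1)) := by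
  induction m with
  | zero =>
    have h := r_x_YZxy a c
    rw [Finset.sum_range_one, Nat.cast_zero, add_zero, sub_zero, zero_add, pw_one, pw_one]
    exact h
  | succ m ih =>
    have h1 := R.right [lx] ih
    have hw : walk (a, c) ([lY] ++ pw [lZ, lx] (m + 1)) = (a + (m + 1), c - a - (m + 1)) := by
      rw [walk_append, walk_cons, step_Y, walk_nil, walk_Zx]
      push_cast
      rfl
    have h2 : R (a, c) (([lY] ++ pw [lZ, lx] (m + 1)) ++ [ly, lx])
        (([lY] ++ pw [lZ, lx] (m + 1)) ++ [lZ, lx, ly])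
        (sg 0 (a + (m + 1)) (c - a - (m + 1) - 1)) := by
      apply R.left
      rw [hw]
      exact r_yx_Zxy (a + (m + 1)) (c - a - (m + 1))
    have e1 : ([lY] ++ pw [lZ, lx] (m + 1) ++ [ly]) ++ [lx] =
        ([lY] ++ pw [lZ, lx] (m + 1)) ++ [ly, lx] := by
      simp only [List.append_assoc, List.cons_append, List.nil_append]
    have e2 : ([lY] ++ pw [lZ, lx] (m + 1)) ++ [lZ, lx, ly] =
        [lY] ++ pw [lZ, lx] (m + 1 + 1) ++ [ly] := by
      rw [pw_succ' [lZ, lx] (m + 1)]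
      simp only [List.append_assoc, List.cons_append, List.nil_append]
    rw [e1] at h1
    rw [e2] at h2
    rw [pw_succ' [lx] (m + 1)]
    refine R.cast (R.trans h1 h2) ?_
    rw [Finset.sum_range_succ _ (m + 1)]
    push_cast
    rfl

theorem wedge (a c : ℤ) (r : ℕ) :
    R (a, c) [lY] (pw [lX] r ++ [lY] ++ pw [lZ, lx] r)
      (∑ j ∈ range r, sg 0 (a - j - 1) (c - a + j)) := by
  induction r with
  | zero =>
    rw [pw_zero, pw_zero, Finset.range_zero, Finset.sum_empty, List.append_nil, List.nil_append]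
    exact R.refl (a, c) [lY]
  | succ r ih =>
    have hw : walk (a, c) (pw [lX] r) = (a - r, c) := walk_X a c r
    have h2 : R (a, c) (pw [lX] r ++ ([lY] ++ pw [lZ, lx] r))
        (pw [lX] r ++ ([lX, lY, lZ, lx] ++ pw [lZ, lx] r))
        (sg 0 (a - r - 1) (c - a + r)) := by
      apply R.left
      apply R.right
      rw [hw]
      refine R.cast (r_Y_XYZx (a - r) c) ?_
      have e : c - (a - (r : ℤ)) = c - a + r := by ring
      rw [e]
      rfl
    have e2 : pw [lX] r ++ ([lX, lY, lZ, lx] ++ pw [lZ, lx] r) =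
        pw [lX] (r + 1) ++ [lY] ++ pw [lZ, lx] (r + 1) := by
      rw [pw_succ' [lX] r, pw_succ [lZ, lx] r]
      simp only [List.append_assoc, List.cons_append, List.nil_append]
    rw [e2] at h2
    rw [List.append_assoc] at ih
    refine R.cast (R.trans ih h2) ?_
    rw [Finset.sum_range_succ _ r]

end Pool.Agent.H86.SD
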