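import Pool.Agent.H86.SD.MacA

/-!
# SD-MacC1: triangles of squares, part 1

`T1 a c (m+1) = ∑_{j<m+1} sg 1 (a-1) (c-j-1) + T1 (a-1) c m` (`Finset.sum_range_succ'`; prove it first).
* `triD`: induction on `r` (generalising `a`): `Z :: Z^r ⇒ X Z x Z^r` (`r_Z_XZx a c`, face
  `(a-1, c-1)`), `x Z^r ⇒ Z^r x` (`swap_xZ` at `walk (a,c) [X,Z] = (a-1, c-1)`: faces `(a-1, c-1-j-1)`),
  the word is `X (Z^(r+1)) x = X Z^r Z x`, hypothesis at `(a-1, c)` (`R.left [lX]`, `R.right`).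
* `triTL`: induction on `m` (generalising `a`): `Z^(m+1) (Xz)^(m+1) = Z^m (Z X z) (Xz)^m ⇒
  Z^m X (Xz)^m` (`r_ZXz_X` at `(a, c-m)`: face `(a-1, c-m-1)`), `Z^m X ⇒ X Z^m` (`swap_ZX`: faces
  `(a-1, c-j-1)`, `j < m`), hypothesis at `(a-1, c)`.
* `triTLi`: `Z^(r+1) = Z :: Z^r ⇒ X Z x Z^r ⇒ X Z Z^r x` as in `triD` (faces `(a-1, c-1-j)`, `j < r+1`),
  then the first `X ⇒ z X Z` (`r_X_zXZ a c`: face `(a-1, c)`): word `z X Z Z^(r+1) x`
  `= z X Z^(r+1) Z x`, then `triD` with `r+1` at `(a-1, c+1)`: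
  `z X X^(r+1) (Zx)^(r+1) Z x = z X^(r+2) (Zx)^(r+2)`.
-/

noncomputable section

namespace Pool.Agent.H86.SD

open Finset

theorem MacC1_cast {p : ℤ × ℤ} {u v u' v' : List Letter} {S T : Multiset (Fin 3 × (ℤ × ℤ))}
    (h : R p u v S) (hu : u = u') (hv : v = v') (e : S = T) : R p u' v' T := by
  subst hu hv e
  exact h

theorem T1_succ (a c : ℤ) (m : ℕ) :
    T1 a c (m + 1) = ∑ j ∈ range (m + 1), sg 1 (a - 1) (c - j - 1) + T1 (a - 1) c m := by
  unfold T1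
  rw [Finset.sum_range_succ', add_comm]
  congr 1
  · rw [Nat.sub_zero]
    refine Finset.sum_congr rfl fun j _ => ?_
    rw [Nat.cast_zero, sub_zero]
  · refine Finset.sum_congr rfl fun i _ => ?_
    rw [Nat.succ_sub_succ_eq_sub]
    refine Finset.sum_congr rfl fun j _ => ?_
    rw [show a - 1 - ((i + 1 : ℕ) : ℤ) = a - 1 - 1 - (i : ℤ) by push_cast; ring]

theorem MacC1_comm (r : ℕ) : [lZ] ++ pw [lZ] r = pw [lZ] r ++ [lZ] := by
  rw [← pw_succ, pw_succ']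

/-- the first two steps of `triD` and `triTLi` -/
theorem MacC1_start (a c : ℤ) (r : ℕ) :
    R (a, c) (pw [lZ] (r + 1)) ([lX] ++ (pw [lZ] (r + 1) ++ [lx]))
      (∑ j ∈ range (r + 1), sg 1 (a - 1) (c - j - 1)) := by
  have h1 : R (a, c) ([lZ] ++ pw [lZ] r) ([lX, lZ, lx] ++ pw [lZ] r) (sg 1 (a - 1) (c - 1)) :=
    R.right (pw [lZ] r) (r_Z_XZx a c)
  have h2 : R (a, c) ([lX, lZ] ++ ([lx] ++ pw [lZ] r)) ([lX, lZ] ++ (pw [lZ] r ++ [lx]))
      (∑ j ∈ range r, sg 1 (a - 1) (c - 1 - j - 1)) := by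
    apply R.left
    have : walk (a, c) [lX, lZ] = (a - 1, c - 1) := by simp
    rw [this]
    exact swap_xZ (a - 1) (c - 1) r
  refine MacC1_cast (R.trans h1 (MacC1_cast h2 rfl rfl rfl)) (pw_succ _ _).symm ?_ ?_
  · rw [pw_succ]
    simp
  · rw [Finset.sum_range_succ', add_comm]
    congr 1
    · refine Finset.sum_congr rfl fun j _ => ?_
      rw [show c - 1 - (j : ℤ) - 1 = c - ((j + 1 : ℕ) : ℤ) - 1 by push_cast; ring]
    · rw [Nat.cast_zero, sub_zero]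

theorem triD (a c : ℤ) (r : ℕ) :
    R (a, c) (pw [lZ] r) (pw [lX] r ++ pw [lZ, lx] r) (T1 a c r) := by
  induction r generalizing a with
  | zero => simpa [T1] using R.refl (a, c) []
  | succ r ih =>
    have h3 : R (a, c) ([lX] ++ (pw [lZ] r ++ [lZ, lx]))
        ([lX] ++ ((pw [lX] r ++ pw [lZ, lx] r) ++ [lZ, lx])) (T1 (a - 1) c r) := by
      apply R.left
      apply R.right
      have : walk (a, c) [lX] = (a - 1, c) := by simp
      rw [this]
      exact ih (a - 1)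
    refine MacC1_cast (R.trans (MacC1_start a c r) (MacC1_cast h3 ?_ rfl rfl)) rfl ?_
      (T1_succ a c r).symm
    · rw [pw_succ']
      simp
    · rw [pw_succ, pw_succ']
      simp

theorem triTL (a c : ℤ) (m : ℕ) :
    R (a, c) (pw [lZ] m ++ pw [lX, lz] m) (pw [lX] m) (T1 a c m) := by
  induction m generalizing a with
  | zero => simpa [T1] using R.refl (a, c) []
  | succ m ih =>
    have h1 : R (a, c) (pw [lZ] m ++ ([lZ, lX, lz] ++ pw [lX, lz] m))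
        (pw [lZ] m ++ ([lX] ++ pw [lX, lz] m)) (sg 1 (a - 1) (c - m - 1)) := by
      apply R.left
      apply R.right
      rw [walk_Z]
      exact r_ZXz_X a (c - m)
    have h2 : R (a, c) ((pw [lZ] m ++ [lX]) ++ pw [lX, lz] m)
        (([lX] ++ pw [lZ] m) ++ pw [lX, lz] m) (∑ j ∈ range m, sg 1 (a - 1) (c - j - 1)) :=
      R.right _ (swap_ZX a c m)
    have h3 : R (a, c) ([lX] ++ (pw [lZ] m ++ pw [lX, lz] m)) ([lX] ++ pw [lX] m)
        (T1 (a - 1) c m) := by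
      apply R.left
      have : walk (a, c) [lX] = (a - 1, c) := by simp
      rw [this]
      exact ih (a - 1)
    refine MacC1_cast (R.trans (R.trans h1 (MacC1_cast h2 (List.append_assoc _ _ _)
      (List.append_assoc _ _ _) rfl)) h3) ?_ (pw_succ _ _).symm ?_
    · rw [pw_succ', pw_succ]
      simp
    · rw [T1_succ, Finset.sum_range_succ]
      congr 1
      exact add_comm _ _

theorem triTLi (a c : ℤ) (r : ℕ) :
    R (a, c) (pw [lZ] (r + 1)) ([lz] ++ pw [lX] (r + 2) ++ pw [lZ, lx] (r + 2))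
      (T1 a (c + 1) (r + 2)) := by
  have h2 : R (a, c) ([lX] ++ (pw [lZ] (r + 1) ++ [lx]))
      ([lz, lX, lZ] ++ (pw [lZ] (r + 1) ++ [lx])) (sg 1 (a - 1) c) :=
    R.right _ (r_X_zXZ a c)
  have h3 : R (a, c) ([lz, lX] ++ (pw [lZ] (r + 1) ++ [lZ, lx]))
      ([lz, lX] ++ ((pw [lX] (r + 1) ++ pw [lZ, lx] (r + 1)) ++ [lZ, lx]))
      (T1 (a - 1) (c + 1) (r + 1)) := by
    apply R.left
    apply R.right
    have : walk (a, c) [lz, lX] = (a - 1, c + 1) := by simp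
    rw [this]
    exact triD (a - 1) (c + 1) (r + 1)
  refine MacC1_cast (R.trans (R.trans (MacC1_start a c r) h2) (MacC1_cast h3 ?_ rfl rfl)) rfl ?_ ?_
  · have e := MacC1_comm (r + 1)
    calc [lz, lX] ++ (pw [lZ] (r + 1) ++ [lZ, lx])
        = [lz, lX] ++ ((pw [lZ] (r + 1) ++ [lZ]) ++ [lx]) := by simp
      _ = [lz, lX] ++ (([lZ] ++ pw [lZ] (r + 1)) ++ [lx]) := by rw [e]
      _ = [lz, lX, lZ] ++ (pw [lZ] (r + 1) ++ [lx]) := by simp
  · rw [show r + 2 = (r + 1) + 1 from rfl, pw_succ [lX] (r + 1), pw_succ' [lZ, lx] (r + 1)]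
    simp
  · rw [show r + 2 = (r + 1) + 1 from rfl, T1_succ a (c + 1) (r + 1),
      Finset.sum_range_succ' _ (r + 1)]
    congr 1
    congr 1
    · refine Finset.sum_congr rfl fun j _ => ?_
      rw [show c + 1 - ((j + 1 : ℕ) : ℤ) - 1 = c - (j : ℤ) - 1 by push_cast; ring]
    · rw [Nat.cast_zero, sub_zero, add_sub_cancel_right]

end Pool.Agent.H86.SD
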