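import Pool.Agent.H86.SD.MacA

/-!
# SD-MacC2: triangles of squares, part 2

`T2 a c (m+1) = T2 a c m + ∑_{j<m} sg 1 (a-m-1) (c+j)` (`Finset.sum_range_succ`).
* `triTR`: induction on `m`: `X^(m+1) z^(m+1) = X^m (X z^m) z ⇒ X^m z^m X z` (`swap_Xz` at `(a-m, c)`:
  faces `(a-m-1, c+j)`), hypothesis with `R.right [lX, lz]`; `pw_succ'`.
* `triI`: induction on `t`: `X^(t+2) = X^(t+1) X ⇒ (Xz)^t X Z^t X` (hypothesis, faces `T2 a c (t+1)`),
  `Z^t X ⇒ X Z^t` (`swap_ZX` at `walk (a,c) ((Xz)^t X) = (a-t-1, c+t)`: faces `(a-t-2, c+t-j-1)`,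
  `j < t`), the second `X ⇒ z X Z` (`r_X_zXZ (a-t-1) (c+t)`: face `(a-t-2, c+t)`): the word is
  `(Xz)^t X z X Z Z^t = (Xz)^(t+1) X Z^(t+1)`; these faces are `(a-t-2, c+j)`, `j < t+1`
  (`Finset.sum_range_reflect` or `Finset.sum_flip`, `Finset.sum_range_succ`).
-/

noncomputable section

namespace Pool.Agent.H86.SD

open Finset

theorem MacC2_T2 (a c : ℤ) (m : ℕ) :
    T2 a c (m + 1) = T2 a c m + ∑ j ∈ range m, sg 1 (a - m - 1) (c + j) := by
  unfold T2
  rw [Finset.sum_range_succ]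

theorem triTR (a c : ℤ) (m : ℕ) :
    R (a, c) (pw [lX] m ++ pw [lz] m) (pw [lX, lz] m) (T2 a c m) := by
  induction m with
  | zero => simpa [T2] using R.refl (a, c) []
  | succ m ih =>
    have h0 : R (walk (a, c) (pw [lX] m)) ([lX] ++ pw [lz] m) (pw [lz] m ++ [lX])
        (∑ j ∈ range m, sg 1 (a - m - 1) (c + j)) := by
      rw [walk_X]
      exact swap_Xz (a - m) c m
    have h1 := R.ctx (pw [lX] m) [lz] h0
    have h2 := R.right [lX, lz] ih
    have e1 : pw [lX] m ++ (pw [lz] m ++ [lX]) ++ [lz] =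
        pw [lX] m ++ pw [lz] m ++ [lX, lz] := by
      simp only [List.append_assoc, List.cons_append, List.nil_append]
    rw [e1] at h1
    have h3 := R.trans h1 h2
    have e2 : pw [lX] (m + 1) ++ pw [lz] (m + 1) =
        pw [lX] m ++ ([lX] ++ pw [lz] m) ++ [lz] := by
      rw [pw_succ', pw_succ']
      simp only [List.append_assoc, List.cons_append, List.nil_append]
    rw [e2, pw_succ']
    refine R.cast h3 ?_
    rw [MacC2_T2, add_comm]

theorem triI (a c : ℤ) (t : ℕ) :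
    R (a, c) (pw [lX] (t + 1)) (pw [lX, lz] t ++ [lX] ++ pw [lZ] t) (T2 a c (t + 1)) := by
  induction t with
  | zero => simpa [T2, pw_one] using R.refl (a, c) [lX]
  | succ t ih =>
    have hw : walk (a, c) (pw [lX, lz] t ++ [lX]) = (a - t - 1, c + t) := by
      rw [walk_append, walk_Xz, walk_cons, walk_nil, step_X]
    have h1 := R.right [lX] ih
    have h2 : R (walk (a, c) (pw [lX, lz] t ++ [lX])) (pw [lZ] t ++ [lX]) ([lX] ++ pw [lZ] t)
        (∑ j ∈ range t, sg 1 (a - t - 1 - 1) (c + t - j - 1)) := by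
      rw [hw]
      exact swap_ZX (a - t - 1) (c + t) t
    have h3 := R.left (pw [lX, lz] t ++ [lX]) h2
    have h4 : R (walk (a, c) (pw [lX, lz] t ++ [lX])) [lX] [lz, lX, lZ]
        {(1, (a - t - 1 - 1, c + t))} := by
      rw [hw]
      exact r_X_zXZ (a - t - 1) (c + t)
    have h5 := R.ctx (pw [lX, lz] t ++ [lX]) (pw [lZ] t) h4
    have e1 : pw [lX] (t + 1 + 1) = pw [lX] (t + 1) ++ [lX] := pw_succ' _ _
    have e2 : pw [lX, lz] t ++ [lX] ++ pw [lZ] t ++ [lX] =
        pw [lX, lz] t ++ [lX] ++ (pw [lZ] t ++ [lX]) := by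
      simp only [List.append_assoc, List.cons_append, List.nil_append]
    have e3 : pw [lX, lz] t ++ [lX] ++ ([lX] ++ pw [lZ] t) =
        pw [lX, lz] t ++ [lX] ++ [lX] ++ pw [lZ] t := by
      simp only [List.append_assoc, List.cons_append, List.nil_append]
    have e4 : pw [lX, lz] (t + 1) ++ [lX] ++ pw [lZ] (t + 1) =
        pw [lX, lz] t ++ [lX] ++ [lz, lX, lZ] ++ pw [lZ] t := by
      rw [pw_succ', pw_succ]
      simp only [List.append_assoc, List.cons_append, List.nil_append]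
    rw [e2] at h1
    rw [e3] at h3
    rw [e1, e4]
    refine R.cast (R.trans h1 (R.trans h3 h5)) ?_
    rw [MacC2_T2 a c (t + 1)]
    congr 1
    rw [Finset.sum_range_succ]
    congr 1
    · rw [← Finset.sum_range_reflect]
      refine Finset.sum_congr rfl fun j hj => ?_
      rw [Finset.mem_range] at hj
      have f1 : a - (t : ℤ) - 1 - 1 = a - ((t + 1 : ℕ) : ℤ) - 1 := by push_cast; ring
      have f2 : c + (t : ℤ) - ((t - 1 - j : ℕ) : ℤ) - 1 = c + (j : ℤ) := by omega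
      rw [f1, f2]
    · have f1 : a - (t : ℤ) - 1 - 1 = a - ((t + 1 : ℕ) : ℤ) - 1 := by push_cast; ring
      unfold sg
      rw [f1]

end Pool.Agent.H86.SD
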