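import Pool.Agent.H86.SD.MacA

/-!
# SD-MacC3: triangles of squares, part 3

`T3 a c (r+1) = ∑_{j<r+1} sg 1 a (c+j) + T3 (a+1) c r` (`Finset.sum_range_succ'`),
`T4 a c (m+1) = T4 a c m + ∑_{j<m+1} sg 1 (a+m) (c-j-1)` (`Finset.sum_range_succ`).
* `triTRl`: induction on `r` (generalising `a`): `z^(r+1) x (Zx)^(r+1) = z^r (z x Z) x (Zx)^r ⇒
  z^r x x (Zx)^r` (`r_zxZ_x` at `(a, c+r)`: face `(a, c+r)`), `z^r x ⇒ x z^r` (`swap_zx`: faces
  `(a, c+j)`, `j < r`), the word is `x (z^r x (Zx)^r)`, hypothesis at `(a+1, c)`.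
* `triTLu`: induction on `m`: `x^(m+1) Z^(m+1) = x^m (x Z^(m+1)) ⇒ x^m Z^(m+1) x` (`swap_xZ` at
  `(a+m, c)` with `r = m+1`: faces `(a+m, c-j-1)`), `= (x^m Z^m) Z x`, hypothesis with
  `R.right [lZ, lx]`.
-/

noncomputable section

namespace Pool.Agent.H86.SD

open Finset

theorem MacC3_T3 (a c : ℤ) (r : ℕ) :
    T3 a c (r + 1) = T3 (a + 1) c r + ∑ j ∈ range (r + 1), sg 1 a (c + j) := by
  unfold T3
  rw [Finset.sum_range_succ']
  congr 1
  · refine Finset.sum_congr rfl fun i _ => ?_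
    have e1 : r + 1 - (i + 1) = r - i := by omega
    have e2 : a + ((i + 1 : ℕ) : ℤ) = a + 1 + i := by push_cast; ring
    rw [e1, e2]
  · rw [Nat.cast_zero, add_zero, Nat.sub_zero]

theorem MacC3_T4 (a c : ℤ) (m : ℕ) :
    T4 a c (m + 1) = T4 a c m + ∑ j ∈ range (m + 1), sg 1 (a + m) (c - j - 1) := by
  unfold T4
  rw [Finset.sum_range_succ]

theorem triTRl (a c : ℤ) (r : ℕ) :
    R (a, c) (pw [lz] r ++ [lx] ++ pw [lZ, lx] r) (pw [lx] (r + 1)) (T3 a c r) := by
  induction r generalizing a with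
  | zero => simpa [T3, pw_one] using R.refl (a, c) [lx]
  | succ r ih =>
    have h1 : R (walk (a, c) (pw [lz] r)) [lz, lx, lZ] [lx] {(1, (a, c + r))} := by
      rw [walk_z]
      exact r_zxZ_x a (c + r)
    have h2 := R.ctx (pw [lz] r) ([lx] ++ pw [lZ, lx] r) h1
    have h3 := R.right ([lx] ++ pw [lZ, lx] r) (swap_zx a c r)
    have h4 : R (walk (a, c) [lx]) (pw [lz] r ++ [lx] ++ pw [lZ, lx] r) (pw [lx] (r + 1))
        (T3 (a + 1) c r) := by
      rw [walk_cons, walk_nil, step_x]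
      exact ih (a + 1)
    have h5 := R.left [lx] h4
    have e1 : pw [lz] (r + 1) ++ [lx] ++ pw [lZ, lx] (r + 1) =
        pw [lz] r ++ [lz, lx, lZ] ++ ([lx] ++ pw [lZ, lx] r) := by
      rw [pw_succ', pw_succ]
      simp only [List.append_assoc, List.cons_append, List.nil_append]
    have e3 : [lx] ++ pw [lz] r ++ ([lx] ++ pw [lZ, lx] r) =
        [lx] ++ (pw [lz] r ++ [lx] ++ pw [lZ, lx] r) := by
      simp only [List.append_assoc, List.cons_append, List.nil_append]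
    have e4 : pw [lx] (r + 1 + 1) = [lx] ++ pw [lx] (r + 1) := pw_succ _ _
    rw [e3] at h3
    rw [e1, e4]
    refine R.cast (R.trans h2 (R.trans h3 h5)) ?_
    rw [MacC3_T3, Finset.sum_range_succ]
    unfold sg
    abel

theorem triTLu (a c : ℤ) (m : ℕ) :
    R (a, c) (pw [lx] m ++ pw [lZ] m) (pw [lZ, lx] m) (T4 a c m) := by
  induction m with
  | zero => simpa [T4] using R.refl (a, c) []
  | succ m ih =>
    have h0 : R (walk (a, c) (pw [lx] m)) ([lx] ++ pw [lZ] (m + 1)) (pw [lZ] (m + 1) ++ [lx])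
        (∑ j ∈ range (m + 1), sg 1 (a + m) (c - j - 1)) := by
      rw [walk_x]
      exact swap_xZ (a + m) c (m + 1)
    have h1 := R.left (pw [lx] m) h0
    have h2 := R.right [lZ, lx] ih
    have e1 : pw [lx] m ++ (pw [lZ] (m + 1) ++ [lx]) =
        pw [lx] m ++ pw [lZ] m ++ [lZ, lx] := by
      rw [pw_succ']
      simp only [List.append_assoc, List.cons_append, List.nil_append]
    have e2 : pw [lx] (m + 1) ++ pw [lZ] (m + 1) =
        pw [lx] m ++ ([lx] ++ pw [lZ] (m + 1)) := by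
      rw [pw_succ' [lx]]
      simp only [List.append_assoc, List.cons_append, List.nil_append]
    rw [e1] at h1
    rw [e2, pw_succ' [lZ, lx]]
    refine R.cast (R.trans h1 h2) ?_
    rw [MacC3_T4, add_comm]

end Pool.Agent.H86.SD
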