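import Pool.Agent.H86.SD.MacDef

/-!
# SD-MacD: walls of `[y,z]`-squares over the line `a = 0`

* `wcol`: induction on `r` : `Y^(r+1) Z = Y (Y^r Z) ⇒ Y Z Y^r ⇒ Z Y Y^r` (`r_YZ_ZY 0 c`: face
  `(0, c-0-1)`; `walk (0,c) [Y] = (0, c)`).
* `wZY`: the same for `Z Y^r ⇒ Y^r Z` (`r_ZY_YZ`, face `(0, c-0-1)`), and `wzY`: `z Y^r ⇒ Y^r z`
  (`r_zY_Yz`, face `(0, c-0)`).
* `wall1`: induction on `m` (generalising `c`): `Y^(r+1) = Y Y^r ⇒ z Y Z Y^r` (`r_Y_zYZ 0 c`: face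
  `(0, c)`) `⇒ z Y Y^r Z` (`wZY` at `(0, c+1)`: faces `(0, c)`), so `Y^(r+1) ⇒ z Y^(r+1) Z` with
  `(r+1) • sg 2 0 c`; then the hypothesis at `(0, c+1)` inside (`R.ctx [lz] [lZ]`);
  `pw [lz] (m+1) = [lz] ++ pw [lz] m`, `pw [lZ] (m+1) = pw [lZ] m ++ [lZ]`.
* `wall0`: the same with `r_Y_ZYz 0 c` (face `(0, c-1)`), `wzY` at `(0, c-1)` (faces `(0, c-1)`).
-/

noncomputable section

namespace Pool.Agent.H86.SD

open Finset

theorem wcol (c : ℤ) (r : ℕ) :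
    R (0, c) (pw [lY] r ++ [lZ]) ([lZ] ++ pw [lY] r) (r • sg 2 0 (c - 1)) := by
  induction r with
  | zero => simpa using R.refl (0, c) [lZ]
  | succ r ih =>
    have h1 : R (0, c) ([lY] ++ (pw [lY] r ++ [lZ])) ([lY] ++ ([lZ] ++ pw [lY] r))
        (r • sg 2 0 (c - 1)) := by
      apply R.left
      have : walk ((0 : ℤ), c) [lY] = (0, c) := by simp
      rw [this]
      exact ih
    have h2 : R (0, c) ([lY, lZ] ++ pw [lY] r) ([lZ, lY] ++ pw [lY] r) (sg 2 0 (c - 0 - 1)) :=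
      R.right (pw [lY] r) (r_YZ_ZY 0 c)
    have h3 := R.trans h1 h2
    rw [pw_succ, List.append_assoc]
    refine R.cast h3 ?_
    rw [succ_nsmul, sub_zero]

theorem wZY (c : ℤ) (r : ℕ) :
    R (0, c) ([lZ] ++ pw [lY] r) (pw [lY] r ++ [lZ]) (r • sg 2 0 (c - 1)) := by
  induction r with
  | zero => simpa using R.refl (0, c) [lZ]
  | succ r ih =>
    have h1 : R (0, c) ([lZ, lY] ++ pw [lY] r) ([lY, lZ] ++ pw [lY] r) (sg 2 0 (c - 0 - 1)) :=
      R.right (pw [lY] r) (r_ZY_YZ 0 c)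
    have h2 : R (0, c) ([lY] ++ ([lZ] ++ pw [lY] r)) ([lY] ++ (pw [lY] r ++ [lZ]))
        (r • sg 2 0 (c - 1)) := by
      apply R.left
      have : walk ((0 : ℤ), c) [lY] = (0, c) := by simp
      rw [this]
      exact ih
    have h3 := R.trans h1 h2
    rw [pw_succ, List.append_assoc]
    refine R.cast h3 ?_
    rw [succ_nsmul, sub_zero, add_comm]

theorem wzY (c : ℤ) (r : ℕ) :
    R (0, c) ([lz] ++ pw [lY] r) (pw [lY] r ++ [lz]) (r • sg 2 0 c) := by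
  induction r with
  | zero => simpa using R.refl (0, c) [lz]
  | succ r ih =>
    have h1 : R (0, c) ([lz, lY] ++ pw [lY] r) ([lY, lz] ++ pw [lY] r) (sg 2 0 (c - 0)) :=
      R.right (pw [lY] r) (r_zY_Yz 0 c)
    have h2 : R (0, c) ([lY] ++ ([lz] ++ pw [lY] r)) ([lY] ++ (pw [lY] r ++ [lz]))
        (r • sg 2 0 c) := by
      apply R.left
      have : walk ((0 : ℤ), c) [lY] = (0, c) := by simp
      rw [this]
      exact ih
    have h3 := R.trans h1 h2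
    rw [pw_succ, List.append_assoc]
    refine R.cast h3 ?_
    rw [succ_nsmul, sub_zero, add_comm]

private theorem MacD_walk_zY (c : ℤ) : walk ((0 : ℤ), c) [lz, lY] = (0, c + 1) := by simp

private theorem MacD_walk_ZY (c : ℤ) : walk ((0 : ℤ), c) [lZ, lY] = (0, c - 1) := by simp

private theorem MacD_one1 (c : ℤ) (r : ℕ) :
    R (0, c) (pw [lY] (r + 1)) ([lz] ++ pw [lY] (r + 1) ++ [lZ]) ((r + 1) • sg 2 0 c) := by
  have h1 : R (0, c) ([lY] ++ pw [lY] r) ([lz, lY, lZ] ++ pw [lY] r) (sg 2 0 (c - 0)) :=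
    R.right (pw [lY] r) (r_Y_zYZ 0 c)
  have h2 : R (0, c) ([lz, lY] ++ ([lZ] ++ pw [lY] r)) ([lz, lY] ++ (pw [lY] r ++ [lZ]))
      (r • sg 2 0 (c + 1 - 1)) := by
    apply R.left
    rw [MacD_walk_zY]
    exact wZY (c + 1) r
  have h3 := R.trans h1 h2
  rw [pw_succ]
  have e : [lz] ++ ([lY] ++ pw [lY] r) ++ [lZ] = [lz, lY] ++ (pw [lY] r ++ [lZ]) := by simp
  rw [e]
  refine R.cast h3 ?_
  rw [succ_nsmul, sub_zero, add_comm, add_sub_cancel_right]

private theorem MacD_one0 (c : ℤ) (r : ℕ) :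
    R (0, c) (pw [lY] (r + 1)) ([lZ] ++ pw [lY] (r + 1) ++ [lz]) ((r + 1) • sg 2 0 (c - 1)) := by
  have h1 : R (0, c) ([lY] ++ pw [lY] r) ([lZ, lY, lz] ++ pw [lY] r) (sg 2 0 (c - 0 - 1)) :=
    R.right (pw [lY] r) (r_Y_ZYz 0 c)
  have h2 : R (0, c) ([lZ, lY] ++ ([lz] ++ pw [lY] r)) ([lZ, lY] ++ (pw [lY] r ++ [lz]))
      (r • sg 2 0 (c - 1)) := by
    apply R.left
    rw [MacD_walk_ZY]
    exact wzY (c - 1) r
  have h3 := R.trans h1 h2
  rw [pw_succ]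
  have e : [lZ] ++ ([lY] ++ pw [lY] r) ++ [lz] = [lZ, lY] ++ (pw [lY] r ++ [lz]) := by simp
  rw [e]
  refine R.cast h3 ?_
  rw [succ_nsmul, sub_zero, add_comm]

theorem wall1 (c : ℤ) (r m : ℕ) :
    R (0, c) (pw [lY] (r + 1)) (pw [lz] m ++ pw [lY] (r + 1) ++ pw [lZ] m)
      (∑ t ∈ range m, (r + 1) • sg 2 0 (c + t)) := by
  induction m generalizing c with
  | zero => simpa using R.refl (0, c) (pw [lY] (r + 1))
  | succ m ih =>
    have h1 := MacD_one1 c r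
    have h2 : R (0, c) ([lz] ++ pw [lY] (r + 1) ++ [lZ])
        ([lz] ++ (pw [lz] m ++ pw [lY] (r + 1) ++ pw [lZ] m) ++ [lZ])
        (∑ t ∈ range m, (r + 1) • sg 2 0 (c + 1 + t)) := by
      refine R.ctx [lz] [lZ] ?_
      have : walk ((0 : ℤ), c) [lz] = (0, c + 1) := by simp
      rw [this]
      exact ih (c + 1)
    have h3 := R.trans h1 h2
    have e : pw [lz] (m + 1) ++ pw [lY] (r + 1) ++ pw [lZ] (m + 1) =
        [lz] ++ (pw [lz] m ++ pw [lY] (r + 1) ++ pw [lZ] m) ++ [lZ] := by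
      rw [pw_succ [lz], pw_succ' [lZ]]
      simp only [List.append_assoc]
    rw [e]
    refine R.cast h3 ?_
    rw [Finset.sum_range_succ', add_comm]
    congr 1
    · refine Finset.sum_congr rfl fun t _ => ?_
      congr 2
      push_cast
      ring
    · simp

theorem wall0 (c : ℤ) (r m : ℕ) :
    R (0, c) (pw [lY] (r + 1)) (pw [lZ] m ++ pw [lY] (r + 1) ++ pw [lz] m)
      (∑ t ∈ range m, (r + 1) • sg 2 0 (c - t - 1)) := by
  induction m generalizing c with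
  | zero => simpa using R.refl (0, c) (pw [lY] (r + 1))
  | succ m ih =>
    have h1 := MacD_one0 c r
    have h2 : R (0, c) ([lZ] ++ pw [lY] (r + 1) ++ [lz])
        ([lZ] ++ (pw [lZ] m ++ pw [lY] (r + 1) ++ pw [lz] m) ++ [lz])
        (∑ t ∈ range m, (r + 1) • sg 2 0 (c - 1 - t - 1)) := by
      refine R.ctx [lZ] [lz] ?_
      have : walk ((0 : ℤ), c) [lZ] = (0, c - 1) := by simp
      rw [this]
      exact ih (c - 1)
    have h3 := R.trans h1 h2
    have e : pw [lZ] (m + 1) ++ pw [lY] (r + 1) ++ pw [lz] (m + 1) =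
        [lZ] ++ (pw [lZ] m ++ pw [lY] (r + 1) ++ pw [lz] m) ++ [lz] := by
      rw [pw_succ [lZ], pw_succ' [lz]]
      simp only [List.append_assoc]
    rw [e]
    refine R.cast h3 ?_
    rw [Finset.sum_range_succ', add_comm]
    congr 1
    · refine Finset.sum_congr rfl fun t _ => ?_
      congr 2
      push_cast
      ring
    · simp

end Pool.Agent.H86.SD
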