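import Pool.Agent.H86.SD.Rul

/-!
# SD-MacDef: multisets of face data
-/

noncomputable section

namespace Pool.Agent.H86.SD

open Finset

/-- the data of one face -/
def sg (k : Fin 3) (a c : ℤ) : Multiset (Fin 3 × (ℤ × ℤ)) := {(k, (a, c))}

def T1 (a c : ℤ) (m : ℕ) : Multiset (Fin 3 × (ℤ × ℤ)) :=
  ∑ i ∈ range m, ∑ j ∈ range (m - i), sg 1 (a - 1 - i) (c - j - 1)

def T2 (a c : ℤ) (m : ℕ) : Multiset (Fin 3 × (ℤ × ℤ)) :=
  ∑ i ∈ range m, ∑ j ∈ range i, sg 1 (a - i - 1) (c + j)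

def T3 (a c : ℤ) (m : ℕ) : Multiset (Fin 3 × (ℤ × ℤ)) :=
  ∑ i ∈ range m, ∑ j ∈ range (m - i), sg 1 (a + i) (c + j)

def T4 (a c : ℤ) (m : ℕ) : Multiset (Fin 3 × (ℤ × ℤ)) :=
  ∑ i ∈ range m, ∑ j ∈ range (i + 1), sg 1 (a + i) (c - j - 1)

/-- change the multiset by an equation -/
theorem R.cast {p : ℤ × ℤ} {u v : List Letter} {S T : Multiset (Fin 3 × (ℤ × ℤ))}
    (h : R p u v S) (e : S = T) : R p u v T := e ▸ h

/-- context on the left -/
theorem R.left {p : ℤ × ℤ} {u v : List Letter} {S : Multiset (Fin 3 × (ℤ × ℤ))}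
    (a : List Letter) (h : R (walk p a) u v S) : R p (a ++ u) (a ++ v) S := by
  have := R.ctx a [] h
  simpa using this

/-- context on the right -/
theorem R.right {p : ℤ × ℤ} {u v : List Letter} {S : Multiset (Fin 3 × (ℤ × ℤ))}
    (b : List Letter) (h : R p u v S) : R p (u ++ b) (v ++ b) S := by
  have := R.ctx (p := p) [] b h
  simpa using this

/-- an example: the proof of the first swap rule -/
theorem swap_Xz (a c : ℤ) (r : ℕ) : R (a, c) ([lX] ++ pw [lz] r) (pw [lz] r ++ [lX])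
    (∑ j ∈ range r, sg 1 (a - 1) (c + j)) := by
  induction r generalizing c with
  | zero => simpa using R.refl (a, c) [lX]
  | succ r ih =>
    have h1 : R (a, c) ([lX] ++ pw [lz] (r + 1)) ([lz, lX] ++ pw [lz] r) (sg 1 (a - 1) c) := by
      rw [pw_succ]
      exact R.right (pw [lz] r) (r_Xz_zX a c)
    have h2 : R (a, c) ([lz] ++ ([lX] ++ pw [lz] r)) ([lz] ++ (pw [lz] r ++ [lX]))
        (∑ j ∈ range r, sg 1 (a - 1) (c + 1 + j)) := by
      apply R.left
      have : walk (a, c) [lz] = (a, c + 1) := by simp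
      rw [this]
      exact ih (c + 1)
    have h3 := R.trans h1 h2
    rw [pw_succ]
    refine R.cast h3 ?_
    rw [Finset.sum_range_succ']
    rw [add_comm]
    congr 1
    · refine Finset.sum_congr rfl fun j _ => ?_
      congr 1
      push_cast
      ring
    · simp

end Pool.Agent.H86.SD
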