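import Pool.Agent.H86.SD.Cnt
import Pool.Agent.H86.SD.AsmB

/-!
# SD-Mass: lower bound for the mass; the number of faces

* `hh_half`: `hh m ≤ hh (2n) ≤ 2 hh n`: induction on `n`:
  `hh (2(n+1)) - hh (2n) = 1/(2n+1) + 1/(2n+2) ≤ 2/(n+1)`.
* `GG_low`: `M = (2m+1)m`, `c = m m + j m + m - j' - 1`, `2j ≤ m`, `j' < m`: `c ≥ m^2` and
  `M - c ≥ m^2 - j m + 1 ≥ m^2/2`, `M ≤ 3m^2`, so `tau ≥ 1/6`; `|-1-i| = i+1`, `2(i+1) ≤ m`, so
  `m ≤ 2 (m - (i+1))` and `hf ≥ 1/2` (`hh_half`).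
* `mass_low`: all terms of `Mf` are nonnegative; keep in `LT m m` only the parts `T1 0 (c+m) m` of
  `L1 m (i0+1) c`, `c = m m + (i0+1) m`, with `i0 < m/2` (natural division; `2 (i0+1) ≤ m`), and in `T1` only
  the columns `i < m/2`.  Each face has `Mf = 4 GG^2 ≥ 4/144 = 1/36` (`(rel 1).length = 4`); there are
  `(m/2) * (m/2)` pairs `(i0, i)` with `m - i ≥ m/2` faces each, i.e. at least
  `(m/2)(m/2)(m/2 as a real)`; `(m/2 : ℕ) ≥ m/3` for `m ≥ 2`; `(m/3)^2 (m/2)/36 = m^3/648`.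
* `card_LT`: `card_LI + ∑_{j=1}^k (4jm + 2m^2 + 2m) + 2m(k-1) = NN m k` (induction on `k`, from `k = 1`;
  write `k = k' + 1`).
-/

noncomputable section

namespace Pool.Agent.H86.SD

open Finset

theorem Mass_hh_succ (n : ℕ) : hh (n + 1) = hh n + 1 / ((n : ℝ) + 1) := by
  unfold hh
  rw [Finset.sum_range_succ]

theorem Mass_hh_double (n : ℕ) : hh (2 * n) ≤ 2 * hh n := by
  induction n with
  | zero => simp [hh]
  | succ n ih =>
    have e : 2 * (n + 1) = (2 * n + 1) + 1 := by ring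
    rw [e, Mass_hh_succ (2 * n + 1), Mass_hh_succ (2 * n), Mass_hh_succ n]
    have h0 : (0 : ℝ) ≤ n := Nat.cast_nonneg n
    have h1 : 1 / (((2 * n : ℕ) : ℝ) + 1) ≤ 1 / ((n : ℝ) + 1) := by
      apply one_div_le_one_div_of_le (by linarith)
      push_cast
      linarith
    have h2 : 1 / (((2 * n + 1 : ℕ) : ℝ) + 1) ≤ 1 / ((n : ℝ) + 1) := by
      apply one_div_le_one_div_of_le (by linarith)
      push_cast
      linarith
    linarith

theorem hh_half {m n : ℕ} (h : m ≤ 2 * n) : hh m ≤ 2 * hh n :=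
  (hh_mono h).trans (Mass_hh_double n)

theorem GG_low {m j i j' : ℕ} (hm : 2 ≤ m) (hj : 2 * j ≤ m) (hi : 2 * (i + 1) ≤ m) (hj' : j' < m) :
    1 / 12 ≤ GG ((2 * m + 1) * m) m (0 - 1 - i, (m : ℤ) * m + j * m + m - j' - 1) := by
  have hmR : (2 : ℝ) ≤ m := by exact_mod_cast hm
  have hjR : 2 * (j : ℝ) ≤ m := by exact_mod_cast hj
  have hj0 : (0 : ℝ) ≤ j := Nat.cast_nonneg j
  have hj'R : (j' : ℝ) + 1 ≤ m := by exact_mod_cast hj'
  have hj'0 : (0 : ℝ) ≤ j' := Nat.cast_nonneg j'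
  have hM : (0 : ℝ) < (2 * m + 1) * m := by positivity
  have h1 : 1 / 6 ≤ tau ((2 * m + 1) * m) ((m : ℤ) * m + j * m + m - j' - 1) := by
    unfold tau
    rw [le_div_iff₀ hM]
    refine le_trans ?_ (le_max_right _ _)
    push_cast
    apply le_min
    · nlinarith
    · nlinarith
  have h2 : 1 / 2 ≤ hf m (0 - 1 - i) := by
    unfold hf
    have e : (0 - 1 - (i : ℤ)).natAbs = i + 1 := by omega
    rw [e]
    have h3 := hh_half (m := m) (n := m - (i + 1)) (by omega)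
    rw [le_div_iff₀ (hh_pos (by omega))]
    linarith
  unfold GG
  calc (1 : ℝ) / 12 = 1 / 6 * (1 / 2) := by norm_num
    _ ≤ _ := mul_le_mul h1 h2 (by norm_num) (le_trans (by norm_num) h1)

theorem Mass_Mf_nonneg (G : ℤ × ℤ → ℝ) (x : Fin 3 × (ℤ × ℤ)) : 0 ≤ Mf G x := by
  unfold Mf
  positivity

theorem mass_low {m : ℕ} (hm : 2 ≤ m) :
    (m : ℝ) ^ 3 / 648 ≤ msum (Mf (GG ((2 * m + 1) * m) m)) (LT m m) := by
  obtain ⟨G, hG⟩ : ∃ G, G = GG ((2 * m + 1) * m) m := ⟨_, rfl⟩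
  rw [← hG]
  have hf0 : ∀ x, 0 ≤ Mf G x := Mass_Mf_nonneg G
  have hn := fun S => msum_nonneg hf0 S
  have hmR : (2 : ℝ) ≤ m := by exact_mod_cast hm
  have hle : m / 2 ≤ m := Nat.div_le_self m 2
  -- one stage
  have h1 : ∀ i0 : ℕ, i0 < m / 2 →
      ((m / 2 : ℕ) : ℝ) * ((m : ℝ) / 2) * (1 / 36) ≤ msum (Mf G) (LA m m (i0 + 1)) := by
    intro i0 hi0
    unfold LA L1 T1
    simp only [msum_add]
    have h2 : ((m / 2 : ℕ) : ℝ) * ((m : ℝ) / 2) * (1 / 36) ≤ msum (Mf G)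
        (∑ i ∈ range m, ∑ j ∈ range (m - i),
          sg 1 (0 - 1 - i) ((m : ℤ) * m + ((i0 + 1 : ℕ) : ℤ) * m + m - j - 1)) := by
      rw [msum_sum]
      have h3 : ∀ i ∈ range (m / 2), ((m : ℝ) / 2) * (1 / 36) ≤
          msum (Mf G) (∑ j ∈ range (m - i),
            sg 1 (0 - 1 - i) ((m : ℤ) * m + ((i0 + 1 : ℕ) : ℤ) * m + m - j - 1)) := by
        intro i hi
        rw [Finset.mem_range] at hi
        rw [msum_sum]
        have h4 : ∀ j ∈ range (m - i), (1 / 36 : ℝ) ≤ msum (Mf G)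
            (sg 1 (0 - 1 - i) ((m : ℤ) * m + ((i0 + 1 : ℕ) : ℤ) * m + m - j - 1)) := by
          intro j hj
          rw [Finset.mem_range] at hj
          rw [msum_sg]
          have h5 := GG_low (m := m) (j := i0 + 1) (i := i) (j' := j) hm (by omega) (by omega)
            (by omega)
          rw [← hG] at h5
          unfold Mf
          have h6 : (((rel 1).length : ℕ) : ℝ) = 4 := by
            simp [rel]
          change (1 / 36 : ℝ) ≤ (((rel 1).length : ℕ) : ℝ) * G _ ^ 2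
          rw [h6]
          nlinarith
        calc ((m : ℝ) / 2) * (1 / 36) ≤ ((m - i : ℕ) : ℝ) * (1 / 36) := by
              apply mul_le_mul_of_nonneg_right _ (by norm_num)
              have : m ≤ 2 * (m - i) := by omega
              have h7 : (m : ℝ) ≤ 2 * ((m - i : ℕ) : ℝ) := by exact_mod_cast this
              linarith
          _ = ∑ _j ∈ range (m - i), (1 / 36 : ℝ) := by simp
          _ ≤ _ := Finset.sum_le_sum h4
      calc ((m / 2 : ℕ) : ℝ) * ((m : ℝ) / 2) * (1 / 36)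
          = ∑ _i ∈ range (m / 2), ((m : ℝ) / 2) * (1 / 36) := by
            simp only [Finset.sum_const, card_range, nsmul_eq_mul]
            ring
        _ ≤ _ := Finset.sum_le_sum h3
        _ ≤ _ := Finset.sum_le_sum_of_subset_of_nonneg
            (Finset.range_subset_range.2 hle) fun i _ _ => hn _
    have a1 := hn (∑ t ∈ range m, (2 * (i0 + 1)) • sg 2 0
      ((m : ℤ) * m + ((i0 + 1 : ℕ) : ℤ) * m + t))
    have a2 := hn (T2 m ((m : ℤ) * m + ((i0 + 1 : ℕ) : ℤ) * m) m)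
    have a3 := hn (∑ i ∈ range m, sg 0 ((m : ℤ) - i - 1)
      ((m : ℤ) * m + ((i0 + 1 : ℕ) : ℤ) * m + i))
    have a4 := hn (L0 m (i0 + 1) ((m : ℤ) * m - ((i0 + 1 : ℕ) : ℤ) * m + m))
    linarith
  have h2 : ((m / 2 : ℕ) : ℝ) * (((m / 2 : ℕ) : ℝ) * ((m : ℝ) / 2) * (1 / 36)) ≤
      msum (Mf G) (LT m m) := by
    unfold LT
    rw [msum_add, msum_add, msum_sum]
    have b1 := hn (LI m m)
    have b2 := hn (∑ i ∈ range (m - 1), LB m m (i + 1))
    have b3 : ((m / 2 : ℕ) : ℝ) * (((m / 2 : ℕ) : ℝ) * ((m : ℝ) / 2) * (1 / 36)) ≤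
        ∑ i ∈ range m, msum (Mf G) (LA m m (i + 1)) := by
      calc ((m / 2 : ℕ) : ℝ) * (((m / 2 : ℕ) : ℝ) * ((m : ℝ) / 2) * (1 / 36))
          = ∑ _i ∈ range (m / 2), ((m / 2 : ℕ) : ℝ) * ((m : ℝ) / 2) * (1 / 36) := by
            simp only [Finset.sum_const, card_range, nsmul_eq_mul]
        _ ≤ ∑ i ∈ range (m / 2), msum (Mf G) (LA m m (i + 1)) :=
            Finset.sum_le_sum fun i hi => h1 i (Finset.mem_range.1 hi)
        _ ≤ _ := Finset.sum_le_sum_of_subset_of_nonneg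
            (Finset.range_subset_range.2 hle) fun i _ _ => hn _
    linarith
  refine le_trans ?_ h2
  have h3 : (m : ℝ) / 3 ≤ ((m / 2 : ℕ) : ℝ) := by
    have : m ≤ 3 * (m / 2) := by omega
    have h7 : (m : ℝ) ≤ 3 * ((m / 2 : ℕ) : ℝ) := by exact_mod_cast this
    linarith
  have h4 : ((m : ℝ) / 3) * ((m : ℝ) / 3) ≤ ((m / 2 : ℕ) : ℝ) * ((m / 2 : ℕ) : ℝ) :=
    mul_le_mul h3 h3 (by positivity) (by positivity)
  calc (m : ℝ) ^ 3 / 648 = ((m : ℝ) / 3) * ((m : ℝ) / 3) * ((m : ℝ) / 2 * (1 / 36)) := by ring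
    _ ≤ ((m / 2 : ℕ) : ℝ) * ((m / 2 : ℕ) : ℝ) * ((m : ℝ) / 2 * (1 / 36)) :=
        mul_le_mul_of_nonneg_right h4 (by positivity)
    _ = _ := by ring

theorem Mass_card_LA {m : ℕ} (hm : 1 ≤ m) (k j : ℕ) :
    Multiset.card (LA m k j) = 4 * j * m + 2 * (m * m) + 2 * m := by
  unfold LA
  rw [Multiset.card_add, card_L1, card_L0 hm]
  ring

theorem Mass_sum (m : ℕ) (k : ℕ) :
    ∑ i ∈ range k, (4 * (i + 1) * m + 2 * (m * m) + 2 * m) =
      2 * m * k * (k + 1) + 2 * k * (m * m) + 2 * k * m := by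
  induction k with
  | zero => simp
  | succ k ih =>
    rw [Finset.sum_range_succ, ih]
    ring

theorem card_LT {m k : ℕ} (hm : 1 ≤ m) (hk : 1 ≤ k) : Multiset.card (LT m k) = NN m k := by
  obtain ⟨k', rfl⟩ : ∃ k', k = k' + 1 := ⟨k - 1, by omega⟩
  unfold LT LB NN
  rw [Multiset.card_add, Multiset.card_add, card_LI, Multiset.card_sum, Multiset.card_sum]
  simp only [Mass_card_LA hm, card_LC, Finset.sum_const, card_range, smul_eq_mul]
  rw [Mass_sum, Nat.add_sub_cancel]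
  ring

end Pool.Agent.H86.SD
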