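import Pool.Agent.H86.SD.St

/-!
# SD-Pend: adding a pendant edge at the base point

Let `S` be a state with boundary path `edges p w`, `O = cyc none`, `O = o0 :: O1 = O2 ++ [q]`.  From
`O.map φ = O.rotate 1` (`map_cyc`): `φ q = o0`, and `pos o0 = p`.
New state: `D' = D ⊕ Bool`, `I' = I`, `e = inr true`, `ē = inr false`,
`α' = Equiv.sumCongr α Equiv.boolNot`,
`φ' (inl d) = if d = q then e else inl (φ d)`, `φ' e = ē`, `φ' ē = inl (φ q)`: injective by cases, so
a permutation (`Equiv.ofBijective`, `Finite.injective_iff_bijective`),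
`lab' = Sum.elim lab (fun b => if b then l else linv l)`, `fc' = Sum.elim fc (fun _ => none)`,
`cyc' none = e :: ē :: O.map inl`, `cyc' (some i) = (cyc (some i)).map inl`,
`pos' = Sum.elim pos (fun b => if b then p else step p l)`,
`N' = Option N`, `nm' (inl d) = some (nm d)`, `nm' e = some (nm (φ q))`, `nm' ē = none`, `fd' = fd`.
* `map_cyc none`: `(O.map inl).map φ' = O1.map inl ++ [e]` (for `d ∈ O2` `d ≠ q` by `cyc_nodup`, and
  `φ d` is the next one), `φ' ē = inl o0`.  `map_cyc (some i)`: `q ∉ cyc (some i)` (`mem_cyc`).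
* `conn`: for `S'` closed let `T = {d | inl d ∈ S'}`: closed under `α`, `φ` (for `q`: `e`, `ē`,
  `inl (φ q)` are in `S'`), not empty (`e → ē → inl (φ q)`), so `T = univ`, and `e, ē ∈ S'`.
* `pos_φ`: `pos' e = p = pos o0 = pos (φ q) = step (pos q) (lab q)`; `step_linv` for `ē`.
* `nm_inv`: for `inl d` with `α d = q`: `nm' e = some (nm (φ (α d))) = some (nm d)`.
* `face`, `rel_cyc`: `(cyc (some i)).map inl` has the same positions and labels.
* `count`: `2 ((card N + 1) + card I + 1) = card D + 2 + 4`.
-/

noncomputable section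

namespace Pool.Agent.H86.SD

open Classical in
/-- the next edge after adding a pendant edge after `q` -/
def pd_f (P : Pre) (q : P.D) : P.D ⊕ Bool → P.D ⊕ Bool
  | Sum.inl d => if d = q then Sum.inr true else Sum.inl (P.φ d)
  | Sum.inr true => Sum.inr false
  | Sum.inr false => Sum.inl (P.φ q)

theorem pd_f_q (P : Pre) (q : P.D) : pd_f P q (Sum.inl q) = Sum.inr true := by
  simp [pd_f]

theorem pd_f_ne (P : Pre) {q d : P.D} (h : d ≠ q) : pd_f P q (Sum.inl d) = Sum.inl (P.φ d) := by
  simp [pd_f, h]

theorem pd_f_inj (P : Pre) (q : P.D) : Function.Injective (pd_f P q) := by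
  have key : ∀ d : P.D, pd_f P q (Sum.inl d) ≠ Sum.inr false := by
    intro d h
    by_cases hd : d = q
    · rw [hd, pd_f_q] at h
      simp at h
    · rw [pd_f_ne P hd] at h
      simp at h
  have key2 : ∀ d : P.D, pd_f P q (Sum.inl d) ≠ Sum.inl (P.φ q) := by
    intro d h
    by_cases hd : d = q
    · rw [hd, pd_f_q] at h
      simp at h
    · rw [pd_f_ne P hd] at h
      exact hd (P.φ.injective (Sum.inl_injective h))
  rintro (a | a) (b | b) h
  · by_cases ha : a = q
    · by_cases hb : b = q
      · rw [ha, hb]
      · rw [ha, pd_f_q, pd_f_ne P hb] at h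
        simp at h
    · by_cases hb : b = q
      · rw [hb, pd_f_q, pd_f_ne P ha] at h
        simp at h
      · rw [pd_f_ne P ha, pd_f_ne P hb] at h
        rw [P.φ.injective (Sum.inl_injective h)]
  · cases b
    · exact absurd h (key2 a)
    · exact absurd h (key a)
  · cases a
    · exact absurd h.symm (key2 b)
    · exact absurd h.symm (key b)
  · cases a <;> cases b
    · rfl
    · exact absurd h (by simp [pd_f])
    · exact absurd h (by simp [pd_f])
    · rfl

/-- the next edge as a permutation -/
def pd_φ (P : Pre) (q : P.D) : Equiv.Perm (P.D ⊕ Bool) :=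
  Equiv.ofBijective (pd_f P q) (Finite.injective_iff_bijective.1 (pd_f_inj P q))

theorem pd_φ_apply (P : Pre) (q : P.D) (x : P.D ⊕ Bool) : pd_φ P q x = pd_f P q x := rfl

/-- the next edge on the outer face -/
theorem pd_map {D : Type*} {φ : D → D} {O O1 O2 : List D} {o0 q : D} (h0 : O = o0 :: O1)
    (hq : O = O2 ++ [q]) (h : O.map φ = O.rotate 1) : O2.map φ = O1 ∧ φ q = o0 := by
  have h1 : O.rotate 1 = O1 ++ [o0] := by
    rw [h0, List.rotate_cons_succ, List.rotate_zero]
  rw [h1, hq, List.map_append, List.map_cons, List.map_nil] at h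
  have h2 := List.append_inj' h rfl
  exact ⟨h2.1, by simpa using h2.2⟩

/-- the combinatorial map with a pendant edge -/
def pd_pre (P : Pre) (l : Letter) (q o0 : P.D) (O1 O2 : List P.D) (h0 : P.cyc none = o0 :: O1)
    (hq : P.cyc none = O2 ++ [q]) : Pre where
  D := P.D ⊕ Bool
  I := P.I
  α := Equiv.sumCongr P.α Equiv.boolNot
  φ := pd_φ P q
  lab := Sum.elim P.lab (fun b => if b = true then l else linv l)
  fc := Sum.elim P.fc (fun _ => none)
  cyc := fun i => match i with
    | none => Sum.inr true :: Sum.inr false :: (P.cyc none).map Sum.inl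
    | some i => (P.cyc (some i)).map Sum.inl
  α_α := fun d => by
    rcases d with d | d
    · show Sum.inl (P.α (P.α d)) = _
      rw [P.α_α]
    · cases d <;> rfl
  lab_α := fun d => by
    rcases d with d | d
    · show P.lab (P.α d) = linv (P.lab d)
      rw [P.lab_α]
    · cases d
      · show l = linv (linv l)
        rw [linv_linv]
      · rfl
  cyc_ne := fun i => by
    cases i with
    | none => exact List.cons_ne_nil _ _
    | some i =>
      intro h
      exact P.cyc_ne (some i) (List.map_eq_nil_iff.1 h)
  cyc_nodup := fun i => by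
    cases i with
    | none =>
      show (Sum.inr true :: Sum.inr false :: (P.cyc none).map Sum.inl).Nodup
      rw [List.nodup_cons, List.nodup_cons]
      refine ⟨?_, ?_, (P.cyc_nodup none).map Sum.inl_injective⟩
      · simp
      · simp
    | some i => exact (P.cyc_nodup (some i)).map Sum.inl_injective
  mem_cyc := fun i d => by
    cases i with
    | none =>
      show d ∈ (Sum.inr true :: Sum.inr false :: (P.cyc none).map Sum.inl) ↔ _
      rcases d with d | d
      · rw [List.mem_cons, List.mem_cons, List.mem_map_of_injective Sum.inl_injective, P.mem_cyc]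
        constructor
        · rintro (h | h | h)
          · simp at h
          · simp at h
          · exact h
        · intro h
          exact Or.inr (Or.inr h)
      · constructor
        · intro _
          rfl
        · intro _
          cases d
          · exact List.mem_cons_of_mem _ List.mem_cons_self
          · exact List.mem_cons_self
    | some i =>
      show d ∈ (P.cyc (some i)).map Sum.inl ↔ _
      rcases d with d | d
      · rw [List.mem_map_of_injective Sum.inl_injective, P.mem_cyc]
        exact Iff.rfl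
      · constructor
        · intro h
          obtain ⟨x, -, hx⟩ := List.mem_map.1 h
          simp at hx
        · intro h
          exact absurd h (by simp)
  map_cyc := fun i => by
    cases i with
    | none =>
      obtain ⟨h3, h4⟩ := pd_map h0 hq (P.map_cyc none)
      show (Sum.inr true :: Sum.inr false :: (P.cyc none).map Sum.inl).map (pd_φ P q) =
        (Sum.inr true :: Sum.inr false :: (P.cyc none).map Sum.inl).rotate 1
      rw [List.rotate_cons_succ, List.rotate_zero, List.map_cons, List.map_cons]
      have h5 : ((P.cyc none).map Sum.inl).map (pd_φ P q) = O1.map Sum.inl ++ [Sum.inr true] := by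
        have h6 : (O2 ++ [q]).Nodup := hq ▸ P.cyc_nodup none
        have h7 : q ∉ O2 := by
          intro h8
          exact (List.nodup_append.1 h6).2.2 q h8 q (List.mem_singleton.2 rfl) rfl
        rw [hq, List.map_append, List.map_append, ← h3, List.map_map, List.map_map]
        congr 1
        · rw [List.map_map]
          apply List.map_congr_left
          intro x hx
          have h9 : x ≠ q := fun h => h7 (h ▸ hx)
          show pd_f P q (Sum.inl x) = _
          rw [pd_f_ne P h9]
          rfl
        · show [pd_f P q (Sum.inl q)] = _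
          rw [pd_f_q]
      rw [h5]
      show Sum.inr false :: Sum.inl (P.φ q) :: (O1.map Sum.inl ++ [Sum.inr true]) = _
      rw [h4, h0]
      rfl
    | some i =>
      show ((P.cyc (some i)).map Sum.inl).map (pd_φ P q) = ((P.cyc (some i)).map Sum.inl).rotate 1
      rw [List.map_map, ← List.map_rotate, ← P.map_cyc, List.map_map]
      apply List.map_congr_left
      intro x hx
      have h9 : x ≠ q := by
        rintro rfl
        have h10 : P.fc x = some i := (P.mem_cyc _ _).1 hx
        have h11 : P.fc x = none := by
          apply (P.mem_cyc _ _).1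
          rw [hq]
          simp
        rw [h10] at h11
        simp at h11
      show pd_f P q (Sum.inl x) = _
      rw [pd_f_ne P h9]
      rfl
  rel_cyc := fun i => by
    show ∃ k, List.IsRotated (((P.cyc (some i)).map Sum.inl).map _) (rel k) ∨
      List.IsRotated (((P.cyc (some i)).map Sum.inl).map _) (winv (rel k))
    rw [List.map_map]
    exact P.rel_cyc i
  conn := fun S hS h => by
    have hl : ∀ d, Sum.inl d ∈ S → Sum.inl (P.α d) ∈ S ∧ Sum.inl (P.φ d) ∈ S ∧
        (d = q → Sum.inr true ∈ S ∧ Sum.inr false ∈ S) := by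
      intro d hd
      have h1 : Sum.inl (P.α d) ∈ S := (h _ hd).1
      have h2 : pd_f P q (Sum.inl d) ∈ S := (h _ hd).2
      by_cases hdq : d = q
      · rw [hdq, pd_f_q] at h2
        have h3 : Sum.inr false ∈ S := (h _ h2).2
        have h4 : Sum.inl (P.φ q) ∈ S := (h _ h3).2
        exact ⟨h1, hdq ▸ h4, fun _ => ⟨h2, h3⟩⟩
      · rw [pd_f_ne P hdq] at h2
        exact ⟨h1, h2, fun h => absurd h hdq⟩
    have hf : Sum.inr false ∈ S → Sum.inl (P.φ q) ∈ S := fun h3 => (h _ h3).2
    have ht : Sum.inr true ∈ S → Sum.inr false ∈ S := fun h3 => (h _ h3).2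
    have hne : ({d | Sum.inl d ∈ S} : Set P.D).Nonempty := by
      obtain ⟨d, hd⟩ := hS
      rcases d with d | d
      · exact ⟨d, hd⟩
      · cases d
        · exact ⟨_, hf hd⟩
        · exact ⟨_, hf (ht hd)⟩
    have hT := P.conn {d | Sum.inl d ∈ S} hne (fun d hd => ⟨(hl d hd).1, (hl d hd).2.1⟩)
    have hall : ∀ d : P.D, Sum.inl d ∈ S := by
      intro d
      have : d ∈ ({d | Sum.inl d ∈ S} : Set P.D) := by
        rw [hT]
        trivial
      exact this
    ext x
    refine ⟨fun _ => trivial, fun _ => ?_⟩
    rcases x with d | d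
    · exact hall d
    · cases d
      · exact ((hl q (hall q)).2.2 rfl).2
      · exact ((hl q (hall q)).2.2 rfl).1

theorem pd_face {k : Fin 3} {b : ℤ × ℤ} {l l' : List ((ℤ × ℤ) × Letter)} (e : l' = l)
    (h : IsFaceAt k b l) : IsFaceAt k b l' := e ▸ h

/-- the state with a pendant edge -/
def pd_st (S : St) (p : ℤ × ℤ) (l : Letter) (q o0 : S.P.D) (O1 O2 : List S.P.D)
    (h0 : S.P.cyc none = o0 :: O1) (hq : S.P.cyc none = O2 ++ [q]) (hp : S.pos (S.P.φ q) = p) :
    St where
  P := pd_pre S.P l q o0 O1 O2 h0 hq
  pos := Sum.elim S.pos (fun b : Bool => if b = true then p else step p l)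
  N := Option S.N
  nm := Sum.elim (fun d => some (S.nm d))
    (fun b : Bool => if b = true then some (S.nm (S.P.φ q)) else none)
  fd := S.fd
  pos_φ := fun d => by
    rcases d with d | d
    · show Sum.elim S.pos (fun b : Bool => if b = true then p else step p l)
        (pd_f S.P q (Sum.inl d)) = step (S.pos d) (S.P.lab d)
      by_cases hd : d = q
      · rw [hd, pd_f_q, ← S.pos_φ, hp]
        rfl
      · rw [pd_f_ne _ hd, ← S.pos_φ]
        rfl
    · cases d
      · show S.pos (S.P.φ q) = step (step p l) (linv l)
        rw [step_linv, hp]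
      · rfl
  pos_α := fun d => by
    rcases d with d | d
    · exact S.pos_α d
    · cases d
      · show p = step (step p l) (linv l)
        rw [step_linv]
      · rfl
  nm_surj := fun n => by
    cases n with
    | none => exact ⟨Sum.inr false, rfl⟩
    | some n =>
      obtain ⟨d, hd⟩ := S.nm_surj n
      exact ⟨Sum.inl d, congrArg some hd⟩
  nm_inv := fun d => by
    rcases d with d | d
    · show Sum.elim (fun d => some (S.nm d))
        (fun b : Bool => if b = true then some (S.nm (S.P.φ q)) else none)
        (pd_f S.P q (Sum.inl (S.P.α d))) = some (S.nm d)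
      by_cases hd : S.P.α d = q
      · rw [hd, pd_f_q]
        show some (S.nm (S.P.φ q)) = some (S.nm d)
        rw [← hd, S.nm_inv]
      · rw [pd_f_ne _ hd]
        show some (S.nm (S.P.φ (S.P.α d))) = some (S.nm d)
        rw [S.nm_inv]
    · cases d <;> rfl
  face := fun i => by
    exact pd_face List.map_map (S.face i)
  count := by
    have h1 : Fintype.card (pd_pre S.P l q o0 O1 O2 h0 hq).I = Fintype.card S.P.I := rfl
    have h2 : Fintype.card (pd_pre S.P l q o0 O1 O2 h0 hq).D = Fintype.card S.P.D + 2 := by
      show Fintype.card (S.P.D ⊕ Bool) = _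
      rw [Fintype.card_sum, Fintype.card_bool]
    rw [h1, h2, Fintype.card_option]
    have := S.count
    omega

theorem Rz.pend {p : ℤ × ℤ} {w : List Letter} {L : Multiset (Fin 3 × (ℤ × ℤ))} (l : Letter)
    (h : Rz p w L) : Rz p (l :: linv l :: w) L := by
  obtain ⟨S, h1, h2⟩ := h
  have hne := S.P.cyc_ne none
  obtain ⟨o0, O1, h0⟩ := List.exists_cons_of_ne_nil hne
  obtain ⟨O2, q, hq⟩ : ∃ O2 q, S.P.cyc none = O2 ++ [q] :=
    ⟨_, _, (List.dropLast_append_getLast hne).symm⟩
  obtain ⟨-, h4⟩ := pd_map h0 hq (S.P.map_cyc none)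
  have hp : S.pos (S.P.φ q) = p := by
    rw [h4]
    rw [h0, List.map_cons] at h1
    cases w with
    | nil => simp at h1
    | cons a w =>
      rw [edges_cons, List.cons.injEq] at h1
      exact congrArg Prod.fst h1.1
  refine ⟨pd_st S p l q o0 O1 O2 h0 hq hp, ?_, h2⟩
  have e : ((S.P.cyc none).map Sum.inl).map (fun d =>
      ((pd_st S p l q o0 O1 O2 h0 hq hp).pos d, (pd_st S p l q o0 O1 O2 h0 hq hp).P.lab d)) =
      edges p w := by
    rw [← h1]
    exact List.map_map
  show (p, l) :: (step p l, linv l) :: (((S.P.cyc none).map Sum.inl).map (fun d =>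
      ((pd_st S p l q o0 O1 O2 h0 hq hp).pos d, (pd_st S p l q o0 O1 O2 h0 hq hp).P.lab d))) = _
  rw [e, edges_cons, edges_cons, step_linv]

end Pool.Agent.H86.SD
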