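import Pool.Agent.H86.SD.LinC
import Pool.Agent.H86.SD.Fac

/-!
# SD-Pot: positions `(a, c)` for the vertices of an arbitrary diagram

`exists_a`: `ω d = if (lab d).1 = 0 then sgn (lab d).2 else 0` is antisymmetric (`lab_α`, `linv`,
`sgn`), and its sum over each inner face is 0 (`face_cases`, six cases, `simp [lx, .., sgn]`).  Let `f` be
from `exists_pot` and `a d = f (vtx d)`: `a (φ d) - a d = ω d` (`del_apply`), `a (α d) = a (φ d)`
(`vtx_α`).
`exists_c`: `ω d = (if (lab d).1 = 1 then sgn (lab d).2 * a d else 0) + if (lab d).1 = 2 then ..`.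
Antisymmetric: for a letter `(1, _)` `a (α d) = a (φ d) = a d`.  The sum over an inner face is 0: in each of
the six cases the values `a d1, a d2, ..` are expressed by `a d0` with `ha` (`a d1 = a (φ d0) = ..`), and
`lab` is known; e.g. `[x,y]z⁻¹`: `0 + (a+1) + 0 - a - 1`; `[x,z]`: `1 - 1`; `[y,z]`: `a + 1 - a - 1`.
`exists_pos`: take `a` from `exists_a` plus a constant such that `a d0 = p0.1` for the first element
`d0` of `cyc none`, then `c` from `exists_c` plus a constant such that `c d0 = p0.2`;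
`P d = (a d, c d)`; `step` is unfolded.  The last statement is `cyc_edges` (with `map_cyc none`).
-/

noncomputable section

namespace Pool.Agent.H86.SD

namespace Diagram

variable (Δ : Diagram)

theorem Pot_sgn (b : Bool) : (sgn (!b) : ℝ) = - sgn b := by
  cases b <;> simp [sgn]

theorem exists_a : ∃ a : Δ.D → ℝ,
    (∀ d, a (Δ.φ d) = a d + if (Δ.lab d).1 = 0 then sgn (Δ.lab d).2 else 0) ∧
      ∀ d, a (Δ.α d) = a (Δ.φ d) := by
  obtain ⟨f, hf⟩ := Δ.exists_pot (fun d => if (Δ.lab d).1 = 0 then sgn (Δ.lab d).2 else 0)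
    (by
      intro d
      show (if (Δ.lab (Δ.α d)).1 = 0 then (sgn (Δ.lab (Δ.α d)).2 : ℝ) else 0) =
        - (if (Δ.lab d).1 = 0 then sgn (Δ.lab d).2 else 0)
      rw [Δ.lab_α]
      show (if (Δ.lab d).1 = 0 then (sgn (!(Δ.lab d).2) : ℝ) else 0) = _
      split_ifs
      · exact Pot_sgn _
      · exact neg_zero.symm)
    (by
      intro i
      rcases Δ.toPre.face_cases i with h | h | h | h | h | h
      all_goals first
        | (obtain ⟨d0, d1, d2, d3, d4, -, -, -, -, -, l0, l1, l2, l3, l4, hs⟩ := h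
           rw [hs]
           simp [l0, l1, l2, l3, l4, lx, ly, lz, lX, lY, lZ, sgn])
        | (obtain ⟨d0, d1, d2, d3, -, -, -, -, l0, l1, l2, l3, hs⟩ := h
           rw [hs]
           simp [l0, l1, l2, l3, lx, ly, lz, lX, lY, lZ, sgn]))
  refine ⟨fun d => f (Δ.vtx d), fun d => ?_, fun d => ?_⟩
  · have h := congrFun hf d
    rw [Pre.del_apply] at h
    show f (Δ.vtx (Δ.φ d)) = f (Δ.vtx d) + _
    rw [← h]
    ring
  · show f (Δ.vtx (Δ.α d)) = f (Δ.vtx (Δ.φ d))
    rw [Δ.toPre.vtx_α]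

theorem exists_c (a : Δ.D → ℝ)
    (h1 : ∀ d, a (Δ.φ d) = a d + if (Δ.lab d).1 = 0 then sgn (Δ.lab d).2 else 0)
    (h2 : ∀ d, a (Δ.α d) = a (Δ.φ d)) :
    ∃ c : Δ.D → ℝ, (∀ d, c (Δ.φ d) = c d + (if (Δ.lab d).1 = 1 then sgn (Δ.lab d).2 * a d else 0) +
      if (Δ.lab d).1 = 2 then sgn (Δ.lab d).2 else 0) ∧ ∀ d, c (Δ.α d) = c (Δ.φ d) := by
  obtain ⟨f, hf⟩ := Δ.exists_pot
    (fun d => (if (Δ.lab d).1 = 1 then sgn (Δ.lab d).2 * a d else 0) +
      if (Δ.lab d).1 = 2 then sgn (Δ.lab d).2 else 0)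
    (by
      intro d
      show (if (Δ.lab (Δ.α d)).1 = 1 then (sgn (Δ.lab (Δ.α d)).2 : ℝ) * a (Δ.α d) else 0) +
        (if (Δ.lab (Δ.α d)).1 = 2 then sgn (Δ.lab (Δ.α d)).2 else 0) =
        - ((if (Δ.lab d).1 = 1 then sgn (Δ.lab d).2 * a d else 0) +
          if (Δ.lab d).1 = 2 then sgn (Δ.lab d).2 else 0)
      rw [Δ.lab_α]
      show (if (Δ.lab d).1 = 1 then (sgn (!(Δ.lab d).2) : ℝ) * a (Δ.α d) else 0) +
        (if (Δ.lab d).1 = 2 then sgn (!(Δ.lab d).2) else 0) = _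
      rw [Pot_sgn, h2, h1]
      by_cases e1 : (Δ.lab d).1 = 1
      · have e0 : ¬ (Δ.lab d).1 = 0 := by rw [e1]; decide
        have e2 : ¬ (Δ.lab d).1 = 2 := by rw [e1]; decide
        rw [if_pos e1, if_pos e1, if_neg e0, if_neg e2, if_neg e2]
        ring
      · rw [if_neg e1, if_neg e1]
        split_ifs <;> ring)
    (by
      intro i
      rcases Δ.toPre.face_cases i with h | h | h | h | h | h
      all_goals first
        | (obtain ⟨d0, d1, d2, d3, d4, p0, p1, p2, p3, p4, l0, l1, l2, l3, l4, hs⟩ := h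
           have q0 := h1 d0
           have q1 := h1 d1
           have q2 := h1 d2
           have q3 := h1 d3
           rw [p0, l0] at q0
           rw [p1, l1] at q1
           rw [p2, l2] at q2
           rw [p3, l3] at q3
           rw [hs]
           simp [lx, ly, lz, lX, lY, sgn] at q0 q1 q2 q3
           simp [l0, l1, l2, l3, l4, lx, ly, lz, lX, lY, lZ, sgn]
           linarith)
        | (obtain ⟨d0, d1, d2, d3, p0, p1, p2, p3, l0, l1, l2, l3, hs⟩ := h
           have q0 := h1 d0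
           have q1 := h1 d1
           have q2 := h1 d2
           rw [p0, l0] at q0
           rw [p1, l1] at q1
           rw [p2, l2] at q2
           rw [hs]
           simp [lx, ly, lz, lX, lY, lZ, sgn] at q0 q1 q2
           simp [l0, l1, l2, l3, lx, ly, lz, lX, lY, lZ, sgn]
           try linarith))
  refine ⟨fun d => f (Δ.vtx d), fun d => ?_, fun d => ?_⟩
  · have h := congrFun hf d
    rw [Pre.del_apply] at h
    show f (Δ.vtx (Δ.φ d)) = f (Δ.vtx d) + _ + _
    rw [add_assoc, ← h]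
    ring
  · show f (Δ.vtx (Δ.α d)) = f (Δ.vtx (Δ.φ d))
    rw [Δ.toPre.vtx_α]

theorem exists_pos (p0 : ℝ × ℝ) : ∃ P : Δ.D → ℝ × ℝ,
    (∀ d, P (Δ.φ d) = step (P d) (Δ.lab d)) ∧ (∀ d, P (Δ.α d) = P (Δ.φ d)) ∧
      (Δ.cyc none).map (fun d => (P d, Δ.lab d)) = edges p0 Δ.toPre.word := by
  obtain ⟨d0, l, hl⟩ := List.exists_cons_of_ne_nil (Δ.cyc_ne none)
  obtain ⟨a, ha1, ha2⟩ := Δ.exists_a
  have hb1 : ∀ d, (fun d => a d + (p0.1 - a d0)) (Δ.φ d) = (fun d => a d + (p0.1 - a d0)) d +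
      if (Δ.lab d).1 = 0 then sgn (Δ.lab d).2 else 0 := by
    intro d
    show a (Δ.φ d) + (p0.1 - a d0) = a d + (p0.1 - a d0) + _
    rw [ha1]
    ring
  have hb2 : ∀ d, (fun d => a d + (p0.1 - a d0)) (Δ.α d) =
      (fun d => a d + (p0.1 - a d0)) (Δ.φ d) := by
    intro d
    show a (Δ.α d) + (p0.1 - a d0) = a (Δ.φ d) + (p0.1 - a d0)
    rw [ha2]
  obtain ⟨c, hc1, hc2⟩ := Δ.exists_c (fun d => a d + (p0.1 - a d0)) hb1 hb2
  have hP : ∀ d, (fun d => (a d + (p0.1 - a d0), c d + (p0.2 - c d0))) (Δ.φ d) =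
      step ((fun d => (a d + (p0.1 - a d0), c d + (p0.2 - c d0))) d) (Δ.lab d) := by
    intro d
    apply Prod.ext
    · exact hb1 d
    · show c (Δ.φ d) + (p0.2 - c d0) = (c d + (p0.2 - c d0)) + _ + _
      rw [hc1]
      ring
  refine ⟨fun d => (a d + (p0.1 - a d0), c d + (p0.2 - c d0)), hP, fun d => ?_, ?_⟩
  · show (a (Δ.α d) + (p0.1 - a d0), c (Δ.α d) + (p0.2 - c d0)) =
      (a (Δ.φ d) + (p0.1 - a d0), c (Δ.φ d) + (p0.2 - c d0))
    rw [ha2, hc2]
  · have h3 := Δ.map_cyc none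
    rw [hl] at h3
    have h4 := (cyc_edges (P := fun d => (a d + (p0.1 - a d0), c d + (p0.2 - c d0))) hP h3).1
    have h5 : (a d0 + (p0.1 - a d0), c d0 + (p0.2 - c d0)) = p0 := by
      apply Prod.ext
      · show a d0 + (p0.1 - a d0) = p0.1
        ring
      · show c d0 + (p0.2 - c d0) = p0.2
        ring
    unfold Pre.word
    rw [hl, h4]
    show edges (a d0 + (p0.1 - a d0), c d0 + (p0.2 - c d0)) _ = _
    rw [h5]

end Diagram

end Pool.Agent.H86.SD
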