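import Pool.Agent.H86.SD.Rot
import Pool.Agent.H86.SD.Pend
import Pool.Agent.H86.SD.Chord

/-!
# SD-Rel: rewriting of boundary words

`R p u v S`: the path `u` from `p` can be replaced by the path `v` by attaching faces with data `S`.
* `Rz.of_R`: induction on `R` (generalising `w1, w2, L`).  `refl`: `L + 0 = L`.  `trans`: apply both
  (`v ≠ ..` is not needed).  `ctx (a) (b)`: with `w1 ++ a` and `b ++ w2` (`walk_append`,
  `List.append_assoc`).  `pend l`: `Rz p (w1 ++ w2)`: rotate (`Rz.rot`) to `Rz (walk p w1) (w2 ++ w1)`,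
  `Rz.pend`: `Rz (walk p w1) ([l, linv l] ++ (w2 ++ w1))`, rotate by `[l, linv l] ++ w2`: the base point
  `walk (walk p w1) ([l, linv l] ++ w2) = p` by `Rz.closed` of `p, w1 ++ w2` and `step_linv`.
  `chord`: `Rz p (w1 ++ u ++ w2)`, rotate: `Rz (walk p w1) (u ++ (w2 ++ w1))`, `Rz.chord` (`w2 ++ w1 ≠ []`):
  `Rz (walk p w1) ([l] ++ (w2 ++ w1))`, rotate by `[l] ++ w2`; the base point is `p` by `Rz.closed` and
  `walk p u = step p l`.  `(k, b) ::ₘ L = L + {(k, b)}`.
* `R.pends`: `R p [] (v ++ winv v) 0`: induction on `v`: `[] ⇒ l, linv l`, then `[] ⇒ v ++ winv v` in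
  between (`ctx [l] [linv l]`), `winv_cons`.
* `R.face`: write `v = v' ++ [l]`.  `u ⇒ v' ++ winv v' ++ u` (`pends`, `ctx [] u`), then
  `ctx v' []` and `chord` for the path `winv v' ++ u` from `walk p v'`: `walk (walk p v') (winv v' ++ u)
  = walk p u = walk p v = step (walk p v') l` (`walk_winv`), and the face
  `edges (walk p v') (winv v' ++ u ++ [linv l])` is a rotation (`edges_isRotated`) of
  `edges p (u ++ [linv l] ++ winv v') = edges p (u ++ winv v)` (`winv_append`); the path
  `u ++ winv v` is closed (`walk_winv`).  `IsFaceAt` is invariant under rotation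
  (`List.IsRotated.trans`, `.symm`).
-/

noncomputable section

namespace Pool.Agent.H86.SD

inductive R : ℤ × ℤ → List Letter → List Letter → Multiset (Fin 3 × (ℤ × ℤ)) → Prop
  | refl (p : ℤ × ℤ) (u : List Letter) : R p u u 0
  | trans {p : ℤ × ℤ} {u v w : List Letter} {S T : Multiset (Fin 3 × (ℤ × ℤ))} :
      R p u v S → R p v w T → R p u w (S + T)
  | ctx {p : ℤ × ℤ} {u v : List Letter} {S : Multiset (Fin 3 × (ℤ × ℤ))} (a b : List Letter) :
      R (walk p a) u v S → R p (a ++ u ++ b) (a ++ v ++ b) S
  | pend (p : ℤ × ℤ) (l : Letter) : R p [] [l, linv l] 0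
  | chord {p : ℤ × ℤ} {u : List Letter} {l : Letter} {k : Fin 3} {b : ℤ × ℤ} :
      u ≠ [] → walk p u = step p l → IsFaceAt k b (edges p (u ++ [linv l])) →
      R p u [l] {(k, b)}

theorem Rz.of_R {q : ℤ × ℤ} {u v : List Letter} {S : Multiset (Fin 3 × (ℤ × ℤ))}
    (h : R q u v S) {p : ℤ × ℤ} {w1 w2 : List Letter} {L : Multiset (Fin 3 × (ℤ × ℤ))}
    (hq : walk p w1 = q) (hne : w1 ++ w2 ≠ []) (hz : Rz p (w1 ++ u ++ w2) L) :
    Rz p (w1 ++ v ++ w2) (L + S) := by
  induction h generalizing p w1 w2 L with
  | refl p' u =>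
    rw [add_zero]
    exact hz
  | trans _ _ ih1 ih2 =>
    rw [← add_assoc]
    exact ih2 hq hne (ih1 hq hne hz)
  | @ctx p' u v S a b _ ih =>
    have h1 : w1 ++ (a ++ u ++ b) ++ w2 = (w1 ++ a) ++ u ++ (b ++ w2) := by
      simp only [List.append_assoc]
    have h2 : w1 ++ (a ++ v ++ b) ++ w2 = (w1 ++ a) ++ v ++ (b ++ w2) := by
      simp only [List.append_assoc]
    rw [h1] at hz
    rw [h2]
    refine ih ?_ ?_ hz
    · rw [walk_append, hq]
    · intro h3
      apply hne
      rw [List.append_assoc, List.append_eq_nil_iff, List.append_eq_nil_iff,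
        List.append_eq_nil_iff] at h3
      rw [h3.1, h3.2.2.2, List.append_nil]
  | pend p' l =>
    rw [List.append_nil] at hz
    have hc := hz.closed
    have h1 := (Rz.rot hz).pend l
    have h2 : l :: linv l :: (w2 ++ w1) = (l :: linv l :: w2) ++ w1 := rfl
    rw [h2] at h1
    have h3 := Rz.rot h1
    rw [walk_cons, walk_cons, step_linv, ← walk_append, hc] at h3
    rw [add_zero]
    have h4 : w1 ++ [l, linv l] ++ w2 = w1 ++ (l :: linv l :: w2) := by
      rw [List.append_assoc]
      rfl
    rw [h4]
    exact h3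
  | @chord p' u l k b hu hw hf =>
    have hc := hz.closed
    rw [List.append_assoc] at hz
    have h1 := Rz.rot hz
    rw [List.append_assoc] at h1
    rw [hq] at h1
    have h2 := Rz.chord hu (by
      intro h3
      apply hne
      rw [List.append_eq_nil_iff] at h3
      rw [h3.1, h3.2, List.append_nil]) hw hf h1
    have h3 : l :: (w2 ++ w1) = (l :: w2) ++ w1 := rfl
    rw [h3] at h2
    have h4 := Rz.rot h2
    rw [walk_append, walk_append, hq, hw] at hc
    rw [walk_cons, hc] at h4
    rw [add_comm, Multiset.singleton_add, List.append_assoc]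
    exact h4

theorem R.pends (p : ℤ × ℤ) (v : List Letter) : R p [] (v ++ winv v) 0 := by
  induction v generalizing p with
  | nil => exact R.refl p []
  | cons l v ih =>
    have h1 := R.ctx (p := p) [l] [linv l] (ih (walk p [l]))
    have h2 := R.trans (R.pend p l) h1
    rw [add_zero] at h2
    have h3 : l :: v ++ winv (l :: v) = [l] ++ (v ++ winv v) ++ [linv l] := by
      rw [winv_cons]
      simp
    rw [h3]
    exact h2

theorem R.face {p : ℤ × ℤ} {u v : List Letter} {k : Fin 3} {b : ℤ × ℤ} (hu : u ≠ [])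
    (hv : v ≠ []) (hw : walk p u = walk p v) (hf : IsFaceAt k b (edges p (u ++ winv v))) :
    R p u v {(k, b)} := by
  obtain ⟨v', l, rfl⟩ : ∃ v' l, v = v' ++ [l] := by
    rcases List.eq_nil_or_concat v with h | ⟨v', l, h⟩
    · exact absurd h hv
    · exact ⟨v', l, by rw [h, List.concat_eq_append]⟩
  have h1 := R.ctx (p := p) [] u (R.pends (walk p []) v')
  rw [List.nil_append, List.nil_append, List.nil_append] at h1
  have hw' : walk p u = step (walk p v') l := by
    rw [hw, walk_append]
    rfl
  have hwl : walk p (u ++ [linv l]) = walk p v' := by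
    rw [walk_append, hw', walk_cons, walk_nil, step_linv]
  have hwalk : walk (walk p v') (winv v' ++ u) = step (walk p v') l := by
    rw [walk_append, walk_winv, hw']
  have hface : IsFaceAt k b (edges (walk p v') ((winv v' ++ u) ++ [linv l])) := by
    have e1 : edges p (u ++ winv (v' ++ [l])) =
        edges p (u ++ [linv l]) ++ edges (walk p v') (winv v') := by
      rw [winv_append]
      show edges p (u ++ ([linv l] ++ winv v')) = _
      rw [← List.append_assoc, edges_append, hwl]
    have e2 : edges (walk p v') ((winv v' ++ u) ++ [linv l]) =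
        edges (walk p v') (winv v') ++ edges p (u ++ [linv l]) := by
      rw [List.append_assoc, edges_append, walk_winv]
    rw [e1] at hf
    rw [e2]
    have hrot : List.IsRotated (edges (walk p v') (winv v') ++ edges p (u ++ [linv l]))
        (edges p (u ++ [linv l]) ++ edges (walk p v') (winv v')) := List.isRotated_append
    rcases hf with h | h
    · exact Or.inl (hrot.trans h)
    · exact Or.inr (hrot.trans h)
  have h2 := R.ctx (p := p) v' [] (R.chord (p := walk p v') (by
    intro h3
    rw [List.append_eq_nil_iff] at h3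
    exact hu h3.2) hwalk hface)
  rw [List.append_nil, List.append_nil] at h2
  rw [List.append_assoc] at h1
  have h3 := R.trans h1 h2
  rw [zero_add] at h3
  exact h3

end Pool.Agent.H86.SD
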