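import Pool.Agent.H86.SD.St

/-!
# SD-Rot: rotation of the boundary word

`Rz.rot`: take the same state, with `cyc none` replaced by `(cyc none).rotate w1.length`
(`cyc' i = match i with | none => .. | some j => S.P.cyc (some j)`).  `cyc_ne`, `cyc_nodup`
(`List.nodup_rotate`), `mem_cyc` (`List.mem_rotate`), `map_cyc`: `(l.rotate n).map φ = (l.map φ).rotate n
= (l.rotate 1).rotate n = (l.rotate n).rotate 1` (`List.map_rotate`, `List.rotate_rotate`).
The boundary path: `(edges p (w1 ++ w2)).rotate w1.length = edges (walk p w1) w2 ++ edges p w1`
(`edges_append`, `length_edges`, `List.rotate_append_length_eq`)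
`= edges (walk p w1) (w2 ++ w1)` as `walk (walk p w1) w2 = p` (`Rz.closed`, `walk_append`).
-/

noncomputable section

namespace Pool.Agent.H86.SD

/-- the boundary cycles after a rotation -/
def rotCyc (P : Pre) (n : ℕ) : Option P.I → List P.D
  | none => (P.cyc none).rotate n
  | some j => P.cyc (some j)

/-- the polygons after a rotation of the outer boundary cycle -/
def rotPre (P : Pre) (n : ℕ) : Pre where
  D := P.D
  I := P.I
  α := P.α
  φ := P.φ
  lab := P.lab
  fc := P.fc
  cyc := rotCyc P n
  α_α := P.α_α
  lab_α := P.lab_α
  cyc_ne i := by
    cases i with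
    | none =>
      intro h
      have h1 : (P.cyc none).rotate n = [] := h
      exact P.cyc_ne none (List.rotate_eq_nil_iff.1 h1)
    | some j => exact P.cyc_ne (some j)
  cyc_nodup i := by
    cases i with
    | none => exact List.nodup_rotate.2 (P.cyc_nodup none)
    | some j => exact P.cyc_nodup (some j)
  mem_cyc i d := by
    cases i with
    | none =>
      rw [← P.mem_cyc none d]
      exact List.mem_rotate
    | some j => exact P.mem_cyc (some j) d
  map_cyc i := by
    cases i with
    | none =>
      change ((P.cyc none).rotate n).map P.φ = ((P.cyc none).rotate n).rotate 1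
      rw [List.map_rotate, P.map_cyc, List.rotate_rotate, List.rotate_rotate, Nat.add_comm]
    | some j => exact P.map_cyc (some j)
  rel_cyc i := P.rel_cyc i
  conn := P.conn

theorem Rz.rot {p : ℤ × ℤ} {w1 w2 : List Letter} {L : Multiset (Fin 3 × (ℤ × ℤ))}
    (h : Rz p (w1 ++ w2) L) : Rz (walk p w1) (w2 ++ w1) L := by
  have hc := h.closed
  obtain ⟨S, h1, h2⟩ := h
  refine ⟨{ P := rotPre S.P w1.length
            pos := S.pos
            N := S.N
            nm := S.nm
            fd := S.fd
            pos_φ := S.pos_φ
            pos_α := S.pos_α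
            nm_surj := S.nm_surj
            nm_inv := S.nm_inv
            face := S.face
            count := S.count }, ?_, h2⟩
  change ((S.P.cyc none).rotate w1.length).map (fun d => (S.pos d, S.P.lab d)) = _
  rw [List.map_rotate, h1, edges_append, ← length_edges p w1, List.rotate_append_length_eq,
    edges_append]
  rw [walk_append] at hc
  rw [hc]

end Pool.Agent.H86.SD
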