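import Pool.Agent.H86.SD.Rel

/-!
# SD-Rul: the 22 local rules
-/

set_option linter.unusedSimpArgs false

noncomputable section

namespace Pool.Agent.H86.SD

theorem linv_lx : linv lx = lX := rfl
theorem linv_lX : linv lX = lx := rfl
theorem linv_ly : linv ly = lY := rfl
theorem linv_lY : linv lY = ly := rfl
theorem linv_lz : linv lz = lZ := rfl
theorem linv_lZ : linv lZ = lz := rfl
theorem rel_0 : rel 0 = [lx, ly, lX, lY, lZ] := rfl
theorem rel_1 : rel 1 = [lx, lz, lX, lZ] := rfl
theorem rel_2 : rel 2 = [ly, lz, lY, lZ] := rfl

theorem r_X_YXzy (a c : ℤ) : R (a, c) [lX] [lY, lX, lz, ly] {(0, (a - 1, c - a))} := by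
  refine R.face (by simp) (by simp) ?_ ?_
  · simp only [walk_cons, walk_nil, step_x, step_X, step_y, step_Y, step_z, step_Z,
      Prod.mk.injEq, and_true, true_and]
    all_goals omega
  · left
    refine ⟨3, ?_⟩
    simp only [winv, List.map_cons, List.map_nil, List.reverse_cons, List.reverse_nil,
      List.nil_append, List.cons_append, linv_lx, linv_lX, linv_ly, linv_lY, linv_lz, linv_lZ,
      rel_0, rel_1, rel_2, edges_cons, edges_nil, step_x, step_X, step_y, step_Y, step_z, step_Z,
      List.rotate_cons_succ, List.rotate_zero, List.cons.injEq, Prod.mk.injEq, and_true,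
      true_and]
    all_goals omega

theorem r_X_zXZ (a c : ℤ) : R (a, c) [lX] [lz, lX, lZ] {(1, (a - 1, c))} := by
  refine R.face (by simp) (by simp) ?_ ?_
  · simp only [walk_cons, walk_nil, step_x, step_X, step_y, step_Y, step_z, step_Z,
      Prod.mk.injEq, and_true, true_and]
    all_goals omega
  · right
    refine ⟨1, ?_⟩
    simp only [winv, List.map_cons, List.map_nil, List.reverse_cons, List.reverse_nil,
      List.nil_append, List.cons_append, linv_lx, linv_lX, linv_ly, linv_lY, linv_lz, linv_lZ,
      rel_0, rel_1, rel_2, edges_cons, edges_nil, step_x, step_X, step_y, step_Y, step_z, step_Z,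
      List.rotate_cons_succ, List.rotate_zero, List.cons.injEq, Prod.mk.injEq, and_true,
      true_and]
    all_goals omega

theorem r_Xz_yXY (a c : ℤ) : R (a, c) [lX, lz] [ly, lX, lY] {(0, (a - 1, c))} := by
  refine R.face (by simp) (by simp) ?_ ?_
  · simp only [walk_cons, walk_nil, step_x, step_X, step_y, step_Y, step_z, step_Z,
      Prod.mk.injEq, and_true, true_and]
    all_goals omega
  · right
    refine ⟨1, ?_⟩
    simp only [winv, List.map_cons, List.map_nil, List.reverse_cons, List.reverse_nil,
      List.nil_append, List.cons_append, linv_lx, linv_lX, linv_ly, linv_lY, linv_lz, linv_lZ,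
      rel_0, rel_1, rel_2, edges_cons, edges_nil, step_x, step_X, step_y, step_Y, step_z, step_Z,
      List.rotate_cons_succ, List.rotate_zero, List.cons.injEq, Prod.mk.injEq, and_true,
      true_and]
    all_goals omega

theorem r_Xz_zX (a c : ℤ) : R (a, c) [lX, lz] [lz, lX] {(1, (a - 1, c))} := by
  refine R.face (by simp) (by simp) ?_ ?_
  · simp only [walk_cons, walk_nil, step_x, step_X, step_y, step_Y, step_z, step_Z,
      Prod.mk.injEq, and_true, true_and]
    all_goals omega
  · right
    refine ⟨1, ?_⟩
    simp only [winv, List.map_cons, List.map_nil, List.reverse_cons, List.reverse_nil,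
      List.nil_append, List.cons_append, linv_lx, linv_lX, linv_ly, linv_lY, linv_lz, linv_lZ,
      rel_0, rel_1, rel_2, edges_cons, edges_nil, step_x, step_X, step_y, step_Y, step_z, step_Z,
      List.rotate_cons_succ, List.rotate_zero, List.cons.injEq, Prod.mk.injEq, and_true,
      true_and]
    all_goals omega

theorem r_Y_XYZx (a c : ℤ) : R (a, c) [lY] [lX, lY, lZ, lx] {(0, (a - 1, c - a))} := by
  refine R.face (by simp) (by simp) ?_ ?_
  · simp only [walk_cons, walk_nil, step_x, step_X, step_y, step_Y, step_z, step_Z,
      Prod.mk.injEq, and_true, true_and]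
    all_goals omega
  · right
    refine ⟨2, ?_⟩
    simp only [winv, List.map_cons, List.map_nil, List.reverse_cons, List.reverse_nil,
      List.nil_append, List.cons_append, linv_lx, linv_lX, linv_ly, linv_lY, linv_lz, linv_lZ,
      rel_0, rel_1, rel_2, edges_cons, edges_nil, step_x, step_X, step_y, step_Y, step_z, step_Z,
      List.rotate_cons_succ, List.rotate_zero, List.cons.injEq, Prod.mk.injEq, and_true,
      true_and]
    all_goals omega

theorem r_Y_ZYz (a c : ℤ) : R (a, c) [lY] [lZ, lY, lz] {(2, (a, c - a - 1))} := by
  refine R.face (by simp) (by simp) ?_ ?_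
  · simp only [walk_cons, walk_nil, step_x, step_X, step_y, step_Y, step_z, step_Z,
      Prod.mk.injEq, and_true, true_and]
    all_goals omega
  · left
    refine ⟨2, ?_⟩
    simp only [winv, List.map_cons, List.map_nil, List.reverse_cons, List.reverse_nil,
      List.nil_append, List.cons_append, linv_lx, linv_lX, linv_ly, linv_lY, linv_lz, linv_lZ,
      rel_0, rel_1, rel_2, edges_cons, edges_nil, step_x, step_X, step_y, step_Y, step_z, step_Z,
      List.rotate_cons_succ, List.rotate_zero, List.cons.injEq, Prod.mk.injEq, and_true,
      true_and]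
    all_goals omega

theorem r_Y_zYZ (a c : ℤ) : R (a, c) [lY] [lz, lY, lZ] {(2, (a, c - a))} := by
  refine R.face (by simp) (by simp) ?_ ?_
  · simp only [walk_cons, walk_nil, step_x, step_X, step_y, step_Y, step_z, step_Z,
      Prod.mk.injEq, and_true, true_and]
    all_goals omega
  · right
    refine ⟨1, ?_⟩
    simp only [winv, List.map_cons, List.map_nil, List.reverse_cons, List.reverse_nil,
      List.nil_append, List.cons_append, linv_lx, linv_lX, linv_ly, linv_lY, linv_lz, linv_lZ,
      rel_0, rel_1, rel_2, edges_cons, edges_nil, step_x, step_X, step_y, step_Y, step_z, step_Z,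
      List.rotate_cons_succ, List.rotate_zero, List.cons.injEq, Prod.mk.injEq, and_true,
      true_and]
    all_goals omega

theorem r_YXz_XY (a c : ℤ) : R (a, c) [lY, lX, lz] [lX, lY] {(0, (a - 1, c - a))} := by
  refine R.face (by simp) (by simp) ?_ ?_
  · simp only [walk_cons, walk_nil, step_x, step_X, step_y, step_Y, step_z, step_Z,
      Prod.mk.injEq, and_true, true_and]
    all_goals omega
  · right
    refine ⟨2, ?_⟩
    simp only [winv, List.map_cons, List.map_nil, List.reverse_cons, List.reverse_nil,
      List.nil_append, List.cons_append, linv_lx, linv_lX, linv_ly, linv_lY, linv_lz, linv_lZ,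
      rel_0, rel_1, rel_2, edges_cons, edges_nil, step_x, step_X, step_y, step_Y, step_z, step_Z,
      List.rotate_cons_succ, List.rotate_zero, List.cons.injEq, Prod.mk.injEq, and_true,
      true_and]
    all_goals omega

theorem r_YZ_ZY (a c : ℤ) : R (a, c) [lY, lZ] [lZ, lY] {(2, (a, c - a - 1))} := by
  refine R.face (by simp) (by simp) ?_ ?_
  · simp only [walk_cons, walk_nil, step_x, step_X, step_y, step_Y, step_z, step_Z,
      Prod.mk.injEq, and_true, true_and]
    all_goals omega
  · left
    refine ⟨2, ?_⟩
    simp only [winv, List.map_cons, List.map_nil, List.reverse_cons, List.reverse_nil,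
      List.nil_append, List.cons_append, linv_lx, linv_lX, linv_ly, linv_lY, linv_lz, linv_lZ,
      rel_0, rel_1, rel_2, edges_cons, edges_nil, step_x, step_X, step_y, step_Y, step_z, step_Z,
      List.rotate_cons_succ, List.rotate_zero, List.cons.injEq, Prod.mk.injEq, and_true,
      true_and]
    all_goals omega

theorem r_YZx_xY (a c : ℤ) : R (a, c) [lY, lZ, lx] [lx, lY] {(0, (a, c - a - 1))} := by
  refine R.face (by simp) (by simp) ?_ ?_
  · simp only [walk_cons, walk_nil, step_x, step_X, step_y, step_Y, step_z, step_Z,
      Prod.mk.injEq, and_true, true_and]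
    all_goals omega
  · left
    refine ⟨2, ?_⟩
    simp only [winv, List.map_cons, List.map_nil, List.reverse_cons, List.reverse_nil,
      List.nil_append, List.cons_append, linv_lx, linv_lX, linv_ly, linv_lY, linv_lz, linv_lZ,
      rel_0, rel_1, rel_2, edges_cons, edges_nil, step_x, step_X, step_y, step_Y, step_z, step_Z,
      List.rotate_cons_succ, List.rotate_zero, List.cons.injEq, Prod.mk.injEq, and_true,
      true_and]
    all_goals omega

theorem r_Z_XZx (a c : ℤ) : R (a, c) [lZ] [lX, lZ, lx] {(1, (a - 1, c - 1))} := by
  refine R.face (by simp) (by simp) ?_ ?_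
  · simp only [walk_cons, walk_nil, step_x, step_X, step_y, step_Y, step_z, step_Z,
      Prod.mk.injEq, and_true, true_and]
    all_goals omega
  · right
    refine ⟨2, ?_⟩
    simp only [winv, List.map_cons, List.map_nil, List.reverse_cons, List.reverse_nil,
      List.nil_append, List.cons_append, linv_lx, linv_lX, linv_ly, linv_lY, linv_lz, linv_lZ,
      rel_0, rel_1, rel_2, edges_cons, edges_nil, step_x, step_X, step_y, step_Y, step_z, step_Z,
      List.rotate_cons_succ, List.rotate_zero, List.cons.injEq, Prod.mk.injEq, and_true,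
      true_and]
    all_goals omega

theorem r_ZX_XZ (a c : ℤ) : R (a, c) [lZ, lX] [lX, lZ] {(1, (a - 1, c - 1))} := by
  refine R.face (by simp) (by simp) ?_ ?_
  · simp only [walk_cons, walk_nil, step_x, step_X, step_y, step_Y, step_z, step_Z,
      Prod.mk.injEq, and_true, true_and]
    all_goals omega
  · right
    refine ⟨2, ?_⟩
    simp only [winv, List.map_cons, List.map_nil, List.reverse_cons, List.reverse_nil,
      List.nil_append, List.cons_append, linv_lx, linv_lX, linv_ly, linv_lY, linv_lz, linv_lZ,
      rel_0, rel_1, rel_2, edges_cons, edges_nil, step_x, step_X, step_y, step_Y, step_z, step_Z,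
      List.rotate_cons_succ, List.rotate_zero, List.cons.injEq, Prod.mk.injEq, and_true,
      true_and]
    all_goals omega

theorem r_ZXz_X (a c : ℤ) : R (a, c) [lZ, lX, lz] [lX] {(1, (a - 1, c - 1))} := by
  refine R.face (by simp) (by simp) ?_ ?_
  · simp only [walk_cons, walk_nil, step_x, step_X, step_y, step_Y, step_z, step_Z,
      Prod.mk.injEq, and_true, true_and]
    all_goals omega
  · right
    refine ⟨2, ?_⟩
    simp only [winv, List.map_cons, List.map_nil, List.reverse_cons, List.reverse_nil,
      List.nil_append, List.cons_append, linv_lx, linv_lX, linv_ly, linv_lY, linv_lz, linv_lZ,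
      rel_0, rel_1, rel_2, edges_cons, edges_nil, step_x, step_X, step_y, step_Y, step_z, step_Z,
      List.rotate_cons_succ, List.rotate_zero, List.cons.injEq, Prod.mk.injEq, and_true,
      true_and]
    all_goals omega

theorem r_ZY_YZ (a c : ℤ) : R (a, c) [lZ, lY] [lY, lZ] {(2, (a, c - a - 1))} := by
  refine R.face (by simp) (by simp) ?_ ?_
  · simp only [walk_cons, walk_nil, step_x, step_X, step_y, step_Y, step_z, step_Z,
      Prod.mk.injEq, and_true, true_and]
    all_goals omega
  · right
    refine ⟨2, ?_⟩
    simp only [winv, List.map_cons, List.map_nil, List.reverse_cons, List.reverse_nil,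
      List.nil_append, List.cons_append, linv_lx, linv_lX, linv_ly, linv_lY, linv_lz, linv_lZ,
      rel_0, rel_1, rel_2, edges_cons, edges_nil, step_x, step_X, step_y, step_Y, step_z, step_Z,
      List.rotate_cons_succ, List.rotate_zero, List.cons.injEq, Prod.mk.injEq, and_true,
      true_and]
    all_goals omega

theorem r_Zx_yxY (a c : ℤ) : R (a, c) [lZ, lx] [ly, lx, lY] {(0, (a, c - 1))} := by
  refine R.face (by simp) (by simp) ?_ ?_
  · simp only [walk_cons, walk_nil, step_x, step_X, step_y, step_Y, step_z, step_Z,
      Prod.mk.injEq, and_true, true_and]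
    all_goals omega
  · left
    refine ⟨1, ?_⟩
    simp only [winv, List.map_cons, List.map_nil, List.reverse_cons, List.reverse_nil,
      List.nil_append, List.cons_append, linv_lx, linv_lX, linv_ly, linv_lY, linv_lz, linv_lZ,
      rel_0, rel_1, rel_2, edges_cons, edges_nil, step_x, step_X, step_y, step_Y, step_z, step_Z,
      List.rotate_cons_succ, List.rotate_zero, List.cons.injEq, Prod.mk.injEq, and_true,
      true_and]
    all_goals omega

theorem r_x_YZxy (a c : ℤ) : R (a, c) [lx] [lY, lZ, lx, ly] {(0, (a, c - a - 1))} := by
  refine R.face (by simp) (by simp) ?_ ?_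
  · simp only [walk_cons, walk_nil, step_x, step_X, step_y, step_Y, step_z, step_Z,
      Prod.mk.injEq, and_true, true_and]
    all_goals omega
  · right
    refine ⟨3, ?_⟩
    simp only [winv, List.map_cons, List.map_nil, List.reverse_cons, List.reverse_nil,
      List.nil_append, List.cons_append, linv_lx, linv_lX, linv_ly, linv_lY, linv_lz, linv_lZ,
      rel_0, rel_1, rel_2, edges_cons, edges_nil, step_x, step_X, step_y, step_Y, step_z, step_Z,
      List.rotate_cons_succ, List.rotate_zero, List.cons.injEq, Prod.mk.injEq, and_true,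
      true_and]
    all_goals omega

theorem r_xZ_Zx (a c : ℤ) : R (a, c) [lx, lZ] [lZ, lx] {(1, (a, c - 1))} := by
  refine R.face (by simp) (by simp) ?_ ?_
  · simp only [walk_cons, walk_nil, step_x, step_X, step_y, step_Y, step_z, step_Z,
      Prod.mk.injEq, and_true, true_and]
    all_goals omega
  · right
    refine ⟨3, ?_⟩
    simp only [winv, List.map_cons, List.map_nil, List.reverse_cons, List.reverse_nil,
      List.nil_append, List.cons_append, linv_lx, linv_lX, linv_ly, linv_lY, linv_lz, linv_lZ,
      rel_0, rel_1, rel_2, edges_cons, edges_nil, step_x, step_X, step_y, step_Y, step_z, step_Z,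
      List.rotate_cons_succ, List.rotate_zero, List.cons.injEq, Prod.mk.injEq, and_true,
      true_and]
    all_goals omega

theorem r_yX_Xzy (a c : ℤ) : R (a, c) [ly, lX] [lX, lz, ly] {(0, (a - 1, c))} := by
  refine R.face (by simp) (by simp) ?_ ?_
  · simp only [walk_cons, walk_nil, step_x, step_X, step_y, step_Y, step_z, step_Z,
      Prod.mk.injEq, and_true, true_and]
    all_goals omega
  · left
    refine ⟨4, ?_⟩
    simp only [winv, List.map_cons, List.map_nil, List.reverse_cons, List.reverse_nil,
      List.nil_append, List.cons_append, linv_lx, linv_lX, linv_ly, linv_lY, linv_lz, linv_lZ,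
      rel_0, rel_1, rel_2, edges_cons, edges_nil, step_x, step_X, step_y, step_Y, step_z, step_Z,
      List.rotate_cons_succ, List.rotate_zero, List.cons.injEq, Prod.mk.injEq, and_true,
      true_and]
    all_goals omega

theorem r_yx_Zxy (a c : ℤ) : R (a, c) [ly, lx] [lZ, lx, ly] {(0, (a, c - 1))} := by
  refine R.face (by simp) (by simp) ?_ ?_
  · simp only [walk_cons, walk_nil, step_x, step_X, step_y, step_Y, step_z, step_Z,
      Prod.mk.injEq, and_true, true_and]
    all_goals omega
  · right
    refine ⟨4, ?_⟩
    simp only [winv, List.map_cons, List.map_nil, List.reverse_cons, List.reverse_nil,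
      List.nil_append, List.cons_append, linv_lx, linv_lX, linv_ly, linv_lY, linv_lz, linv_lZ,
      rel_0, rel_1, rel_2, edges_cons, edges_nil, step_x, step_X, step_y, step_Y, step_z, step_Z,
      List.rotate_cons_succ, List.rotate_zero, List.cons.injEq, Prod.mk.injEq, and_true,
      true_and]
    all_goals omega

theorem r_zY_Yz (a c : ℤ) : R (a, c) [lz, lY] [lY, lz] {(2, (a, c - a))} := by
  refine R.face (by simp) (by simp) ?_ ?_
  · simp only [walk_cons, walk_nil, step_x, step_X, step_y, step_Y, step_z, step_Z,
      Prod.mk.injEq, and_true, true_and]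
    all_goals omega
  · left
    refine ⟨3, ?_⟩
    simp only [winv, List.map_cons, List.map_nil, List.reverse_cons, List.reverse_nil,
      List.nil_append, List.cons_append, linv_lx, linv_lX, linv_ly, linv_lY, linv_lz, linv_lZ,
      rel_0, rel_1, rel_2, edges_cons, edges_nil, step_x, step_X, step_y, step_Y, step_z, step_Z,
      List.rotate_cons_succ, List.rotate_zero, List.cons.injEq, Prod.mk.injEq, and_true,
      true_and]
    all_goals omega

theorem r_zx_xz (a c : ℤ) : R (a, c) [lz, lx] [lx, lz] {(1, (a, c))} := by
  refine R.face (by simp) (by simp) ?_ ?_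
  · simp only [walk_cons, walk_nil, step_x, step_X, step_y, step_Y, step_z, step_Z,
      Prod.mk.injEq, and_true, true_and]
    all_goals omega
  · right
    refine ⟨0, ?_⟩
    simp only [winv, List.map_cons, List.map_nil, List.reverse_cons, List.reverse_nil,
      List.nil_append, List.cons_append, linv_lx, linv_lX, linv_ly, linv_lY, linv_lz, linv_lZ,
      rel_0, rel_1, rel_2, edges_cons, edges_nil, step_x, step_X, step_y, step_Y, step_z, step_Z,
      List.rotate_cons_succ, List.rotate_zero, List.cons.injEq, Prod.mk.injEq, and_true,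
      true_and]
    all_goals omega

theorem r_zxZ_x (a c : ℤ) : R (a, c) [lz, lx, lZ] [lx] {(1, (a, c))} := by
  refine R.face (by simp) (by simp) ?_ ?_
  · simp only [walk_cons, walk_nil, step_x, step_X, step_y, step_Y, step_z, step_Z,
      Prod.mk.injEq, and_true, true_and]
    all_goals omega
  · right
    refine ⟨0, ?_⟩
    simp only [winv, List.map_cons, List.map_nil, List.reverse_cons, List.reverse_nil,
      List.nil_append, List.cons_append, linv_lx, linv_lX, linv_ly, linv_lY, linv_lz, linv_lZ,
      rel_0, rel_1, rel_2, edges_cons, edges_nil, step_x, step_X, step_y, step_Y, step_z, step_Z,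
      List.rotate_cons_succ, List.rotate_zero, List.cons.injEq, Prod.mk.injEq, and_true,
      true_and]
    all_goals omega

end Pool.Agent.H86.SD
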