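import Pool.Agent.H86.SD.MacB
import Pool.Agent.H86.SD.MacC1
import Pool.Agent.H86.SD.MacC2
import Pool.Agent.H86.SD.MacC3
import Pool.Agent.H86.SD.MacD

/-!
# SD-Sid: the faces of one side of a stage
-/

noncomputable section

namespace Pool.Agent.H86.SD

open Finset

/-- the faces of side 1 of a stage -/
def L1 (m j : ℕ) (c : ℤ) : Multiset (Fin 3 × (ℤ × ℤ)) :=
  ∑ t ∈ range m, (2 * j) • sg 2 0 (c + t) + T1 0 (c + m) m + T2 m c m +
    ∑ i ∈ range m, sg 0 (m - i - 1) (c + i)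

/-- the faces of side 0 of a stage -/
def L0 (m j : ℕ) (c : ℤ) : Multiset (Fin 3 × (ℤ × ℤ)) :=
  ∑ t ∈ range m, (2 * j) • sg 2 0 (c - t - 1) + T3 0 (c - m) (m - 1) + T4 (-m) c m +
    ∑ i ∈ range m, sg 0 (-m + i) (c - i - 1)

end Pool.Agent.H86.SD
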